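import Pool.Agent.Lib.MP_adb389_ag.Dual

/-! Homogeneous components, and a basis of the graded pieces of the quotients that does not depend
on the matrix. -/

set_option autoImplicit false

namespace Pool.Agent.Lib.MP_adb389_ag

open MvPolynomial Finset

variable {n : ℕ} {K : Type} [Field K]

theorem hc_mul {l g : MvPolynomial (Fin n) K} {s k : ℕ} (hl : l.IsHomogeneous s) :
    homogeneousComponent (s + k) (l * g) = l * homogeneousComponent k g := by
  have h1 : homogeneousComponent (s + k) (l * g) =
      ∑ i ∈ range (g.totalDegree + 1), homogeneousComponent (s + k) (l * homogeneousComponent i g) := by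
    rw [← map_sum, ← Finset.mul_sum, sum_homogeneousComponent]
  rw [h1]
  have h2 : ∀ i, homogeneousComponent (s + k) (l * homogeneousComponent i g) =
      if k = i then l * homogeneousComponent i g else 0 := by
    intro i
    rw [homogeneousComponent_of_mem (hl.mul (homogeneousComponent_isHomogeneous i g))]
    by_cases h : k = i
    · rw [if_pos h, if_pos (by rw [h])]
    · rw [if_neg h, if_neg (by omega)]
  rw [Finset.sum_congr rfl fun i _ => h2 i, Finset.sum_ite_eq]
  by_cases hk : k ∈ range (g.totalDegree + 1)
  · rw [if_pos hk]
  · rw [if_neg hk, homogeneousComponent_eq_zero, mul_zero]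
    rw [Finset.mem_range] at hk
    omega

theorem hc_mul_zero {l g : MvPolynomial (Fin n) K} {s k : ℕ} (hl : l.IsHomogeneous s)
    (hk : k < s) : homogeneousComponent k (l * g) = 0 := by
  have h1 : homogeneousComponent k (l * g) =
      ∑ i ∈ range (g.totalDegree + 1), homogeneousComponent k (l * homogeneousComponent i g) := by
    rw [← map_sum, ← Finset.mul_sum, sum_homogeneousComponent]
  rw [h1]
  refine Finset.sum_eq_zero fun i _ => ?_
  rw [homogeneousComponent_of_mem (hl.mul (homogeneousComponent_isHomogeneous i g)),
    if_neg (by omega)]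

theorem yf_hom (A : Matrix (Fin n) (Fin n) K) (i : Fin n) : (yf A i).IsHomogeneous 1 := by
  unfold yf
  refine IsHomogeneous.sum _ _ _ fun j _ => ?_
  have := (isHomogeneous_C (Fin n) (A i j)).mul (isHomogeneous_X K j)
  simpa using this

theorem gen_hom (A : Matrix (Fin n) (Fin n) K) (d : Fin n → ℕ) (i : Fin n) :
    (gen A d i).IsHomogeneous (d i + 1) := by
  unfold gen
  exact ((isHomogeneous_X_pow (R := K) i (d i)).mul (yf_hom A i))

attribute [local instance] MvPolynomial.gradedAlgebra in
theorem idl_isHomogeneous (A : Matrix (Fin n) (Fin n) K) (d : Fin n → ℕ) :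
    (idl A d).IsHomogeneous (homogeneousSubmodule (Fin n) K) := by
  unfold idl
  refine Ideal.homogeneous_span _ _ ?_
  rintro _ ⟨i, rfl⟩
  exact ⟨d i + 1, gen_hom A d i⟩

theorem hc_mem {A : Matrix (Fin n) (Fin n) K} {d : Fin n → ℕ} {g : MvPolynomial (Fin n) K}
    (hg : g ∈ idl A d) (k : ℕ) : homogeneousComponent k g ∈ idl A d :=
  homogeneousComponent_mem_of_mem (idl_isHomogeneous A d) hg k

theorem idl_le_unitRow {A : Matrix (Fin n) (Fin n) K} {d : Fin n → ℕ} {i : Fin n}
    (hi : d i ≠ 0) : idl A d ≤ idl (unitRow A i) (Function.update d i 0) := by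
  have hX : (X i : MvPolynomial (Fin n) K) ∈ idl (unitRow A i) (Function.update d i 0) := by
    have : gen (unitRow A i) (Function.update d i 0) i = X i := by
      unfold gen
      rw [Function.update_self, pow_zero, one_mul, yf_unitRow_self]
    rw [← this]
    exact Ideal.subset_span ⟨i, rfl⟩
  have h : ∀ j, gen A d j ∈ idl (unitRow A i) (Function.update d i 0) := by
    intro j
    by_cases hj : j = i
    · subst hj
      unfold gen
      obtain ⟨e, he⟩ : ∃ e, d j = e + 1 := ⟨d j - 1, by omega⟩
      rw [he, pow_succ', mul_assoc]
      exact Ideal.mul_mem_right _ _ hX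
    · have : gen A d j = gen (unitRow A i) (Function.update d i 0) j := by
        unfold gen
        rw [Function.update_of_ne hj, yf_unitRow_ne A hj]
      rw [this]
      exact Ideal.subset_span ⟨j, rfl⟩
  unfold idl
  rw [Ideal.span_le]
  rintro _ ⟨j, rfl⟩
  exact h j

theorem X_mem_unitRow {A : Matrix (Fin n) (Fin n) K} {d : Fin n → ℕ} {i : Fin n} :
    (X i : MvPolynomial (Fin n) K) ∈ idl (unitRow A i) (Function.update d i 0) := by
  have : gen (unitRow A i) (Function.update d i 0) i = X i := by
    unfold gen
    rw [Function.update_self, pow_zero, one_mul, yf_unitRow_self]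
  rw [← this]
  exact Ideal.subset_span ⟨i, rfl⟩

theorem X_mul_mem_iff {A : Matrix (Fin n) (Fin n) K} (hA : Good A) {d : Fin n → ℕ} {i : Fin n}
    (hi : d i ≠ 0) {g : MvPolynomial (Fin n) K} (hg : X i * g ∈ idl A d) :
    g ∈ idl A (low d i) := by
  rw [mem_idl_iff hA]
  intro h
  rw [← phi_X_mul hA hi, ← mul_assoc]
  exact phi_idl hA hg h

/-- A basis of the graded piece of degree `k`, the same for all matrices. -/
theorem exists_basis : ∀ (N : ℕ) (d : Fin n → ℕ), ∑ i, d i = N → ∀ k : ℕ,
    ∃ (m : ℕ) (b : Fin m → MvPolynomial (Fin n) K), (∀ i, (b i).IsHomogeneous k) ∧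
      ∀ A : Matrix (Fin n) (Fin n) K, Good A →
        (∀ f : MvPolynomial (Fin n) K, f.IsHomogeneous k →
          ∃ u : Fin m → K, f - ∑ i, u i • b i ∈ idl A d) ∧
        (∀ u : Fin m → K, ∑ i, u i • b i ∈ idl A d → u = 0) := by
  intro N
  induction N using Nat.strong_induction_on with
  | _ N ih =>
    intro d hd k
    by_cases hz : ∀ i, d i = 0
    · have hsum : ∑ i, d i = 0 := Finset.sum_eq_zero fun i _ => hz i
      by_cases hk : k = 0
      · subst hk
        refine ⟨1, fun _ => 1, fun _ => isHomogeneous_one _ _, fun A hA => ⟨fun f hf => ?_, ?_⟩⟩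
        · refine ⟨fun _ => coeff 0 f, ?_⟩
          refine mem_of_coeff_zero (X_mem_of_zero hA hz) ?_
          simp
        · intro u hu
          have h1 := phi_idl hA hu 1
          rw [mul_one, phi_zero A hsum] at h1
          funext i
          have hi : i = 0 := Subsingleton.elim _ _
          subst hi
          simpa using h1
      · refine ⟨0, fun i => i.elim0, fun i => i.elim0, fun A hA => ⟨fun f hf => ?_, ?_⟩⟩
        · refine ⟨fun i => i.elim0, ?_⟩
          refine mem_of_coeff_zero (X_mem_of_zero hA hz) ?_
          simp only [Finset.univ_eq_empty, Finset.sum_empty, sub_zero]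
          by_contra hne
          have := hf hne
          simp at this
          exact hk this.symm
        · intro u _
          funext i
          exact i.elim0
    · push Not at hz
      obtain ⟨i, hi⟩ := hz
      have hsum0 : ∑ j, Function.update d i 0 j < N := by
        have h1 : ∑ j, Function.update d i 0 j + d i = ∑ j, d j := by
          rw [Finset.sum_update_of_mem (Finset.mem_univ i), zero_add,
            Finset.sdiff_singleton_eq_erase, ← Finset.add_sum_erase _ d (Finset.mem_univ i)]
          omega
        omega
      have hsum1 : ∑ j, low d i j < N := by have := sum_low hi; omega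
      obtain ⟨m0, b0, hb0, h0⟩ := ih _ hsum0 _ rfl k
      by_cases hk : k = 0
      · subst hk
        refine ⟨m0, b0, hb0, fun A hA => ⟨fun f hf => ?_, fun u hu => ?_⟩⟩
        · obtain ⟨u, hu⟩ := (h0 (unitRow A i) (good_unitRow hA i)).1 f hf
          refine ⟨u, ?_⟩
          obtain ⟨a, ha, r, hr, har⟩ := Submodule.mem_sup.1 (idl_unitRow_le A d i hu)
          obtain ⟨c, hc⟩ := Ideal.mem_span_singleton.1 ha
          have h1 : homogeneousComponent 0 (f - ∑ i, u i • b0 i) = f - ∑ i, u i • b0 i := by
            refine homogeneousComponent_eq_self (hf.sub ?_)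
            exact IsHomogeneous.sum _ _ _ fun j _ => (homogeneousSubmodule (Fin n) K 0).smul_mem _ (hb0 j)
          rw [← h1, ← har, map_add, hc, hc_mul_zero (isHomogeneous_X K i) (by norm_num), zero_add]
          exact hc_mem hr 0
        · exact (h0 (unitRow A i) (good_unitRow hA i)).2 u (idl_le_unitRow hi hu)
      · obtain ⟨k', rfl⟩ : ∃ k', k = 1 + k' := ⟨k - 1, by omega⟩
        obtain ⟨m1, b1, hb1, h1⟩ := ih _ hsum1 _ rfl k'
        refine ⟨m0 + m1, Fin.append b0 (fun j => X i * b1 j), fun j => ?_, fun A hA =>
          ⟨fun f hf => ?_, fun u hu => ?_⟩⟩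
        · refine Fin.addCases (fun j => ?_) (fun j => ?_) j
          · rw [Fin.append_left]; exact hb0 j
          · rw [Fin.append_right]
            exact (isHomogeneous_X K i).mul (hb1 j)
        · obtain ⟨u, hu⟩ := (h0 (unitRow A i) (good_unitRow hA i)).1 f hf
          obtain ⟨a, ha, r, hr, har⟩ := Submodule.mem_sup.1 (idl_unitRow_le A d i hu)
          obtain ⟨c, hc⟩ := Ideal.mem_span_singleton.1 ha
          have h2 : homogeneousComponent (1 + k') (f - ∑ i, u i • b0 i) =
              f - ∑ i, u i • b0 i := by
            refine homogeneousComponent_eq_self (hf.sub ?_)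
            exact IsHomogeneous.sum _ _ _ fun j _ =>
              (homogeneousSubmodule (Fin n) K (1 + k')).smul_mem _ (hb0 j)
          rw [← har, map_add, hc, hc_mul (isHomogeneous_X K i)] at h2
          obtain ⟨v, hv⟩ := (h1 A hA).1 _ (homogeneousComponent_isHomogeneous k' c)
          refine ⟨Fin.append u v, ?_⟩
          have h3 : ∑ j, Fin.append u v j • Fin.append b0 (fun j => X i * b1 j) j =
              ∑ j, u j • b0 j + X i * ∑ j, v j • b1 j := by
            rw [Fin.sum_univ_add]
            congr 1
            · exact Finset.sum_congr rfl fun j _ => by rw [Fin.append_left, Fin.append_left]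
            · rw [Finset.mul_sum]
              refine Finset.sum_congr rfl fun j _ => ?_
              rw [Fin.append_right, Fin.append_right, mul_smul_comm]
          rw [h3]
          have h4 : f - (∑ j, u j • b0 j + X i * ∑ j, v j • b1 j) =
              X i * (homogeneousComponent k' c - ∑ j, v j • b1 j) +
                homogeneousComponent (1 + k') r := by
            have : f = (∑ j, u j • b0 j) + (X i * c + r) := by
              rw [← hc, har]; ring
            rw [mul_sub]
            rw [sub_eq_iff_eq_add]
            have h5 : X i * homogeneousComponent k' c + homogeneousComponent (1 + k') r =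
              X i * c + r := by rw [h2, ← hc, har]
            rw [this]
            linear_combination -h5
          rw [h4]
          exact Ideal.add_mem _ (X_mul_mem hi hv) (hc_mem hr _)
        · have h3 : ∑ j, u j • Fin.append b0 (fun j => X i * b1 j) j =
              ∑ j, u (Fin.castAdd m1 j) • b0 j + X i * ∑ j, u (Fin.natAdd m0 j) • b1 j := by
            rw [Fin.sum_univ_add]
            congr 1
            · exact Finset.sum_congr rfl fun j _ => by rw [Fin.append_left]
            · rw [Finset.mul_sum]
              refine Finset.sum_congr rfl fun j _ => ?_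
              rw [Fin.append_right, mul_smul_comm]
          rw [h3] at hu
          have h4 : (fun j => u (Fin.castAdd m1 j)) = 0 := by
            refine (h0 (unitRow A i) (good_unitRow hA i)).2 _ ?_
            have h5 := Ideal.sub_mem _ (idl_le_unitRow hi hu)
              (Ideal.mul_mem_right (∑ j, u (Fin.natAdd m0 j) • b1 j) _
                (X_mem_unitRow (A := A) (d := d) (i := i)))
            rwa [add_sub_cancel_right] at h5
          have h5 : (fun j => u (Fin.natAdd m0 j)) = 0 := by
            refine (h1 A hA).2 _ (X_mul_mem_iff hA hi ?_)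
            have h6 : ∑ j, u (Fin.castAdd m1 j) • b0 j = 0 :=
              Finset.sum_eq_zero fun j _ => by
                have := congrFun h4 j
                simp only [Pi.zero_apply] at this
                rw [this, zero_smul]
            rwa [h6, zero_add] at hu
          funext j
          refine Fin.addCases (fun j => ?_) (fun j => ?_) j
          · exact congrFun h4 j
          · exact congrFun h5 j

end Pool.Agent.Lib.MP_adb389_ag
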