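import Pool.Agent.Lib.MP_adb389_ag.Main

/-! Connectedness of the class of cube pairs, and the Hodge-Riemann relations for all of them. -/

set_option autoImplicit false

namespace Pool.Agent.Lib.MP_adb389_ag

open MvPolynomial Finset

variable {n : ℕ}

theorem cube_c_pos {A : Matrix (Fin n) (Fin n) ℝ} {c : Fin n → ℝ} (h : Cube A c) (i : Fin n) :
    0 < c i := by
  obtain ⟨w, hw0, hw⟩ := h ∅
  rw [hw i, Finset.sum_empty, zero_add, if_neg (Finset.notMem_empty i)]
  exact hw0 i

theorem cube_diag_pos {A : Matrix (Fin n) (Fin n) ℝ} {c : Fin n → ℝ} (h : Cube A c) (i : Fin n) :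
    0 < A i i := by
  obtain ⟨w, hw0, hw⟩ := h {i}
  have h1 := hw i
  rw [Finset.sum_singleton, if_pos (Finset.mem_singleton_self i), add_zero] at h1
  have h2 := cube_c_pos h i
  rw [h1] at h2
  exact pos_of_mul_pos_right h2 (hw0 i).le

/-- First path: a projective transformation that makes column `p` diagonal. -/
noncomputable def path1 (A : Matrix (Fin n) (Fin n) ℝ) (c : Fin n → ℝ) (W : Finset (Fin n)) (p : Fin n)
    (t : ℝ) : Matrix (Fin n) (Fin n) ℝ :=
  Matrix.of fun i j => A i j + if i = p ∨ j ∉ W then 0 else t * (-(A i p) / c p * c j)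

theorem path1_zero (A : Matrix (Fin n) (Fin n) ℝ) (c : Fin n → ℝ) (W : Finset (Fin n))
    (p : Fin n) : path1 A c W p 0 = A := by
  ext i j
  simp [path1]

/-- The zero pattern. -/
def Pat (A : Matrix (Fin n) (Fin n) ℝ) (W : Finset (Fin n)) : Prop :=
  ∀ i j, i ≠ j → (i ∉ W ∨ j ∉ W) → A i j = 0

theorem cube_path1 {A : Matrix (Fin n) (Fin n) ℝ} {c : Fin n → ℝ} (h : Cube A c)
    {W : Finset (Fin n)} (hW : Pat A W) {p : Fin n} (hp : p ∈ W) {t : ℝ}
    (ht : t ∈ Set.Icc (0 : ℝ) 1) : Cube (path1 A c W p t) c := by
  have hcp := cube_c_pos h p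
  intro S
  obtain ⟨w, hw0, hw⟩ := h S
  obtain ⟨u, hu⟩ : ∃ u : Fin n → ℝ, ∀ i, u i = if i = p then 0 else -(A i p) / c p :=
    ⟨fun i => if i = p then 0 else -(A i p) / c p, fun _ => rfl⟩
  have hu0 : ∀ i, i ∉ W → u i = 0 := by
    intro i hi
    rw [hu]
    by_cases hip : i = p
    · rw [if_pos hip]
    · rw [if_neg hip, hW i p hip (Or.inl hi), neg_zero, zero_div]
  have hB : ∀ i j, path1 A c W p t i j = A i j + if j ∉ W then 0 else t * (u i * c j) := by
    intro i j
    simp only [path1, Matrix.of_apply, hu]
    by_cases hj : j ∉ W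
    · simp [hj]
    · by_cases hip : i = p
      · simp [hip]
      · simp [hip, hj]
  obtain ⟨s, hs⟩ : ∃ s, s = ∑ i ∈ S, w i * u i := ⟨_, rfl⟩
  have hs1 : 0 < 1 + s := by
    have e : c p * (1 + s) = c p - ∑ i ∈ S.erase p, w i * A i p := by
      have e1 : s = ∑ i ∈ S.erase p, w i * (-(A i p) / c p) := by
        rw [hs]
        have e2 : ∑ i ∈ S.erase p, w i * u i = ∑ i ∈ S, w i * u i := by
          refine Finset.sum_subset (Finset.erase_subset p S) (fun i hi hi2 => ?_)
          have : i = p := by
            by_contra hne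
            exact hi2 (Finset.mem_erase.2 ⟨hne, hi⟩)
          rw [hu, if_pos this, mul_zero]
        rw [← e2]
        refine Finset.sum_congr rfl fun i hi => ?_
        rw [hu, if_neg (Finset.ne_of_mem_erase hi)]
      rw [e1, mul_add, mul_one, Finset.mul_sum, sub_eq_add_neg, ← Finset.sum_neg_distrib]
      congr 1
      refine Finset.sum_congr rfl fun i _ => ?_
      field_simp
    have e2 : 0 < c p * (1 + s) := by
      rw [e, hw p]
      by_cases hpS : p ∈ S
      · rw [if_pos hpS, add_zero, ← Finset.add_sum_erase S _ hpS, add_sub_cancel_right]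
        exact mul_pos (hw0 p) (cube_diag_pos h p)
      · rw [if_neg hpS, Finset.erase_eq_of_notMem hpS, add_sub_cancel_left]
        exact hw0 p
    exact pos_of_mul_pos_right e2 hcp.le
  have hl : 0 < 1 + t * s := by
    have e : 1 + t * s = (1 - t) + t * (1 + s) := by ring
    rw [e]
    rcases eq_or_lt_of_le ht.1 with h0 | h0
    · rw [← h0]; norm_num
    · exact add_pos_of_nonneg_of_pos (by linarith [ht.2]) (mul_pos h0 hs1)
  refine ⟨fun i => if i ∈ W then w i / (1 + t * s) else w i, fun i => ?_, fun j => ?_⟩
  · dsimp only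
    by_cases hi : i ∈ W
    · rw [if_pos hi]
      exact div_pos (hw0 i) hl
    · rw [if_neg hi]
      exact hw0 i
  · dsimp only
    by_cases hj : j ∈ W
    · have e1 : ∀ i ∈ S, (if i ∈ W then w i / (1 + t * s) else w i) * path1 A c W p t i j =
          (w i * A i j + t * c j * (w i * u i)) / (1 + t * s) := by
        intro i _
        rw [hB, if_neg (not_not.2 hj)]
        by_cases hi : i ∈ W
        · rw [if_pos hi]
          field_simp
        · rw [if_neg hi, hu0 i hi, hW i j (fun h => hi (h ▸ hj)) (Or.inl hi)]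
          simp
      rw [Finset.sum_congr rfl e1, ← Finset.sum_div, Finset.sum_add_distrib, ← Finset.mul_sum,
        ← hs, if_pos hj]
      have e2 := hw j
      by_cases hjS : j ∈ S
      · rw [if_pos hjS, add_zero] at e2 ⊢
        rw [← e2]
        field_simp
      · rw [if_neg hjS] at e2 ⊢
        have e3 : ∑ i ∈ S, w i * A i j = c j - w j := by linarith
        rw [e3]
        field_simp
        ring
    · have e1 : ∀ i ∈ S, (if i ∈ W then w i / (1 + t * s) else w i) * path1 A c W p t i j =
          w i * A i j := by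
        intro i _
        rw [hB, if_pos hj, add_zero]
        by_cases hi : i ∈ W
        · rw [hW i j (fun h => hj (h ▸ hi)) (Or.inr hj), mul_zero, mul_zero]
        · rw [if_neg hi]
      rw [Finset.sum_congr rfl e1, if_neg hj]
      exact hw j

theorem pat_path1 {A : Matrix (Fin n) (Fin n) ℝ} {c : Fin n → ℝ} {W : Finset (Fin n)}
    (hW : Pat A W) {p : Fin n} {t : ℝ} : Pat (path1 A c W p t) W := by
  intro i j hij h
  simp only [path1, Matrix.of_apply]
  rw [hW i j hij h, zero_add]
  rcases h with h | h
  · by_cases hip : i = p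
    · rw [if_pos (Or.inl hip)]
    · by_cases hj : j ∈ W
      · rw [if_neg (by push Not; exact ⟨hip, hj⟩), hW i p hip (Or.inl h)]
        simp
      · rw [if_pos (Or.inr hj)]
  · rw [if_pos (Or.inr h)]

theorem col_path1 {A : Matrix (Fin n) (Fin n) ℝ} {c : Fin n → ℝ} {p : Fin n} (hc : 0 < c p)
    {W : Finset (Fin n)} (hp : p ∈ W) {i : Fin n} (hi : i ≠ p) :
    path1 A c W p 1 i p = 0 := by
  simp only [path1, Matrix.of_apply]
  rw [if_neg (by push Not; exact ⟨hi, hp⟩)]
  field_simp
  ring

/-- Second path: scaling the off-diagonal entries of row `p`. -/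
def path2 (A : Matrix (Fin n) (Fin n) ℝ) (p : Fin n) (t : ℝ) : Matrix (Fin n) (Fin n) ℝ :=
  Matrix.of fun i j => if i = p ∧ j ≠ p then t * A i j else A i j

theorem path2_one (A : Matrix (Fin n) (Fin n) ℝ) (p : Fin n) : path2 A p 1 = A := by
  ext i j
  simp [path2]

theorem cube_path2 {A : Matrix (Fin n) (Fin n) ℝ} {c : Fin n → ℝ} (h : Cube A c) {p : Fin n}
    (hcol : ∀ i, i ≠ p → A i p = 0) {t : ℝ} (ht : t ∈ Set.Icc (0 : ℝ) 1) :
    Cube (path2 A p t) c := by
  intro S
  obtain ⟨w, hw0, hw⟩ := h S
  by_cases hp : p ∈ S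
  · obtain ⟨w', hw0', hw'⟩ := h (S.erase p)
    have hA := cube_diag_pos h p
    refine ⟨fun i => if i = p then w p else t * w i + (1 - t) * w' i, fun i => ?_, fun j => ?_⟩
    · dsimp only
      by_cases hi : i = p
      · rw [if_pos hi]; exact hw0 p
      · rw [if_neg hi]
        rcases eq_or_lt_of_le ht.1 with h0 | h0
        · rw [← h0]; simpa using hw0' i
        · exact add_pos_of_pos_of_nonneg (mul_pos h0 (hw0 i))
            (mul_nonneg (by linarith [ht.2]) (hw0' i).le)
    · dsimp only
      by_cases hj : j = p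
      · subst hj
        rw [Finset.sum_eq_single j]
        · have h1 := hw j
          rw [Finset.sum_eq_single j (fun i _ hi => by rw [hcol i hi, mul_zero])
            (fun h => absurd hp h)] at h1
          simpa [path2, hp] using h1
        · intro i _ hi
          have : path2 A j t i j = A i j := by simp [path2]
          rw [this, hcol i hi, mul_zero]
        · intro h; exact absurd hp h
      · have e1 : ∑ i ∈ S, (if i = p then w p else t * w i + (1 - t) * w' i) * path2 A p t i j =
            t * (∑ i ∈ S, w i * A i j) + (1 - t) * ∑ i ∈ S.erase p, w' i * A i j := by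
          rw [← Finset.add_sum_erase S _ hp, ← Finset.add_sum_erase S (fun i => w i * A i j) hp]
          have e2 : ∀ i ∈ S.erase p, (if i = p then w p else t * w i + (1 - t) * w' i) *
              path2 A p t i j = t * (w i * A i j) + (1 - t) * (w' i * A i j) := by
            intro i hi
            have hne := Finset.ne_of_mem_erase hi
            rw [if_neg hne]
            have : path2 A p t i j = A i j := by simp [path2, hne]
            rw [this]; ring
          rw [Finset.sum_congr rfl e2, Finset.sum_add_distrib, ← Finset.mul_sum,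
            ← Finset.mul_sum]
          have e3 : path2 A p t p j = t * A p j := by simp [path2, hj]
          rw [if_pos rfl, e3]
          ring
        rw [e1]
        have h1 := hw j
        have h2 := hw' j
        by_cases hjS : j ∈ S
        · rw [if_pos hjS] at h1 ⊢
          rw [if_pos (Finset.mem_erase.2 ⟨hj, hjS⟩)] at h2
          have h3 : ∑ i ∈ S, w i * A i j = c j := by linarith
          have h4 : ∑ i ∈ S.erase p, w' i * A i j = c j := by linarith
          rw [h3, h4]; ring
        · rw [if_neg hjS] at h1 ⊢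
          rw [if_neg (fun h => hjS (Finset.mem_of_mem_erase h))] at h2
          have h3 : ∑ i ∈ S, w i * A i j = c j - w j := by linarith
          have h4 : ∑ i ∈ S.erase p, w' i * A i j = c j - w' j := by linarith
          rw [h3, h4, if_neg hj]; ring
  · refine ⟨w, hw0, fun j => ?_⟩
    rw [hw j]
    congr 1
    refine Finset.sum_congr rfl fun i hi => ?_
    have hne : i ≠ p := fun h => hp (h ▸ hi)
    have : path2 A p t i j = A i j := by simp [path2, hne]
    rw [this]

theorem pat_path2 {A : Matrix (Fin n) (Fin n) ℝ} {W : Finset (Fin n)} (hW : Pat A W)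
    {p : Fin n} (hcol : ∀ i, i ≠ p → A i p = 0) : Pat (path2 A p 0) (W.erase p) := by
  intro i j hij h
  by_cases hi : i = p
  · have : path2 A p 0 i j = 0 := by
      subst hi
      simp [path2, Ne.symm hij]
    exact this
  · have e : path2 A p 0 i j = A i j := by simp [path2, hi]
    rw [e]
    by_cases hj : j = p
    · rw [hj]; exact hcol i hi
    · refine hW i j hij ?_
      rcases h with h | h
      · exact Or.inl fun h' => h (Finset.mem_erase.2 ⟨hi, h'⟩)
      · exact Or.inr fun h' => h (Finset.mem_erase.2 ⟨hj, h'⟩)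

theorem ampPath1 {A : Matrix (Fin n) (Fin n) ℝ} {c : Fin n → ℝ} (h : Cube A c)
    {W : Finset (Fin n)} (hW : Pat A W) {p : Fin n} (hp : p ∈ W) :
    AmpPath (fun t => path1 A c W p (1 - t)) (fun _ => c) := by
  refine ⟨fun i j => ?_, fun j => continuousOn_const, fun t ht => ?_⟩
  · simp only [path1, Matrix.of_apply]
    by_cases hc : i = p ∨ j ∉ W
    · simp only [if_pos hc]
      exact continuousOn_const
    · simp only [if_neg hc]
      fun_prop
  · exact amp_of_cube (cube_path1 h hW hp ⟨by linarith [ht.2], by linarith [ht.1]⟩)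

theorem ampPath2 {A : Matrix (Fin n) (Fin n) ℝ} {c : Fin n → ℝ} (h : Cube A c) {p : Fin n}
    (hcol : ∀ i, i ≠ p → A i p = 0) : AmpPath (fun t => path2 A p t) (fun _ => c) := by
  refine ⟨fun i j => ?_, fun j => continuousOn_const, fun t ht => ?_⟩
  · simp only [path2, Matrix.of_apply]
    by_cases hc : i = p ∧ j ≠ p
    · simp only [if_pos hc]
      fun_prop
    · simp only [if_neg hc]
      exact continuousOn_const
  · exact amp_of_cube (cube_path2 h hcol ht)

/-- Hodge-Riemann relations for all cube pairs. -/
theorem HR_all (hP : StmtPathKer) (hM : StmtMono) (hR : StmtMonoHR) : ∀ (N : ℕ)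
    (A : Matrix (Fin n) (Fin n) ℝ) (c : Fin n → ℝ), Cube A c → ∀ d : Fin n → ℕ,
      ∑ i, d i = N → ∀ k, HR A c d k := by
  intro N
  induction N using Nat.strong_induction_on with
  | _ N ih =>
    have hHL : ∀ (A : Matrix (Fin n) (Fin n) ℝ) (c : Fin n → ℝ), Cube A c → ∀ d : Fin n → ℕ,
        ∑ i, d i = N → ∀ k, HL A c d k := by
      intro A c hA d hd k
      refine HL_of_HR (amp_of_cube hA) d k (fun m hm => ?_)
      refine ih (∑ i, low d m i) ?_ A c hA (low d m) rfl k
      have := sum_low hm
      omega
    have key : ∀ (w : ℕ) (W : Finset (Fin n)), W.card = w →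
        ∀ (A : Matrix (Fin n) (Fin n) ℝ) (c : Fin n → ℝ), Cube A c → Pat A W →
        ∀ d : Fin n → ℕ, ∑ i, d i = N → ∀ k, HR A c d k := by
      intro w
      induction w with
      | zero =>
        intro W hw A c hA hW d _ k
        rw [Finset.card_eq_zero] at hw
        subst hw
        exact HR_diag hM hR (amp_of_cube hA) (fun i j hij => hW i j hij
          (Or.inl (Finset.notMem_empty i))) (cube_diag_pos hA) (cube_c_pos hA) d k
      | succ w ihw =>
        intro W hw A c hA hW d hd k
        obtain ⟨p, hp⟩ : W.Nonempty := by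
          rw [← Finset.card_pos, hw]
          exact Nat.succ_pos w
        have hcard : (W.erase p).card = w := by
          rw [Finset.card_erase_of_mem hp, hw]
          rfl
        rcases k with _ | k
        · exact HR_zero (amp_of_cube hA) d
        by_cases hk : 2 * (k + 1) ≤ ∑ i, d i
        · have h01 : (0 : ℝ) ∈ Set.Icc (0 : ℝ) 1 := by norm_num
          have h11 : (1 : ℝ) ∈ Set.Icc (0 : ℝ) 1 := by norm_num
          have hA1 := cube_path1 hA hW hp h11
          have hcol : ∀ i, i ≠ p → path1 A c W p 1 i p = 0 := fun i hi =>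
            col_path1 (cube_c_pos hA p) hp hi
          have hA2 := cube_path2 hA1 hcol h01
          have hb := ihw (W.erase p) hcard _ c hA2 (pat_path2 (pat_path1 hW) hcol) d hd (k + 1)
          have h2 := HR_path hP (ampPath2 hA1 hcol) d k hk
            (fun t ht => hHL _ _ (cube_path2 hA1 hcol ht) d hd _)
            (fun t ht => hHL _ _ (cube_path2 hA1 hcol ht) d hd _) hb
          have hs : ∀ t ∈ Set.Icc (0 : ℝ) 1, (1 - t) ∈ Set.Icc (0 : ℝ) 1 := fun t ht =>
            ⟨by linarith [ht.2], by linarith [ht.1]⟩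
          have h3 := HR_path hP (ampPath1 hA hW hp) d k hk
            (fun t ht => hHL _ _ (cube_path1 hA hW hp (hs t ht)) d hd _)
            (fun t ht => hHL _ _ (cube_path1 hA hW hp (hs t ht)) d hd _) (by
              show HR (path1 A c W p (1 - 0)) c d (k + 1)
              rw [sub_zero]
              rw [path2_one] at h2
              exact h2)
          have h4 : HR (path1 A c W p (1 - 1)) c d (k + 1) := h3
          rwa [sub_self, path1_zero] at h4
        · intro f _ hk2
          exact absurd hk2 hk
    intro A c hA d hd k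
    exact key _ Finset.univ rfl A c hA (fun i j _ h => by
      rcases h with h | h
      · exact absurd (Finset.mem_univ i) h
      · exact absurd (Finset.mem_univ j) h) d hd k

/-- Hard Lefschetz property for all cube pairs. -/
theorem HL_all (hP : StmtPathKer) (hM : StmtMono) (hR : StmtMonoHR)
    {A : Matrix (Fin n) (Fin n) ℝ} {c : Fin n → ℝ} (h : Cube A c) (d : Fin n → ℕ) (k : ℕ) :
    HL A c d k :=
  HL_of_HR (amp_of_cube h) d k fun m _ => HR_all hP hM hR _ A c h (low d m) rfl k

end Pool.Agent.Lib.MP_adb389_ag
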