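import Pool.Agent.Lib.MP_adb389_ag.Pos

/-! Continuity of the functionals along paths of matrices with nonzero principal minors. -/

set_option autoImplicit false

namespace Pool.Agent.Lib.MP_adb389_ag

open MvPolynomial Finset

variable {n : ℕ}

/-- A continuous path of ample pairs. -/
structure AmpPath (B : ℝ → Matrix (Fin n) (Fin n) ℝ) (c : ℝ → Fin n → ℝ) : Prop where
  contB : ∀ i j, ContinuousOn (fun t => B t i j) (Set.Icc 0 1)
  contc : ∀ j, ContinuousOn (fun t => c t j) (Set.Icc 0 1)
  amp : ∀ t ∈ Set.Icc (0 : ℝ) 1, Amp (B t) (c t)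

theorem continuousOn_matrix_det {m : Type} [Fintype m] [DecidableEq m]
    {M : ℝ → Matrix m m ℝ} {s : Set ℝ} (h : ∀ i j, ContinuousOn (fun t => M t i j) s) :
    ContinuousOn (fun t => (M t).det) s := by
  simp only [Matrix.det_apply]
  refine continuousOn_finsetSum _ fun σ _ => ?_
  exact ContinuousOn.const_smul (continuousOn_finsetProd _ fun i _ => h _ _) _

theorem continuousOn_qv {B : ℝ → Matrix (Fin n) (Fin n) ℝ} {c : ℝ → Fin n → ℝ}
    (h : AmpPath B c) (S : Finset (Fin n)) (m j : Fin n) :
    ContinuousOn (fun t => qv (B t) S m j) (Set.Icc 0 1) := by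
  by_cases hjm : j = m
  · have : (fun t => qv (B t) S m j) = fun _ => (1 : ℝ) := by
      funext t
      rw [hjm, qv_self]
    rw [this]
    exact continuousOn_const
  · by_cases hj : j ∈ S
    · have hdet : ∀ t ∈ Set.Icc (0 : ℝ) 1, ((B t).submatrix (fun i : S => (i : Fin n))
          (fun i : S => (i : Fin n))).det ≠ 0 := fun t ht =>
        det_ne_zero_of_good (h.amp t ht).1 S
      have e : (fun t => qv (B t) S m j) = fun t =>
          -(∑ i : S, (((B t).submatrix (fun i : S => (i : Fin n))
            (fun i : S => (i : Fin n))).det)⁻¹ * ((B t).submatrix (fun i : S => (i : Fin n))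
            (fun i : S => (i : Fin n))).adjugate ⟨j, hj⟩ i * B t i m) := by
        funext t
        unfold qv
        rw [if_neg hjm, dif_pos hj]
        simp only [Matrix.mulVec, dotProduct, Matrix.inv_def, Ring.inverse_eq_inv',
          Matrix.smul_apply, smul_eq_mul]
      rw [e]
      refine ContinuousOn.neg (continuousOn_finsetSum _ fun i _ => ?_)
      refine ContinuousOn.mul (ContinuousOn.mul ?_ ?_) (h.contB i m)
      · exact ContinuousOn.inv₀ (continuousOn_matrix_det fun i k => h.contB _ _) hdet
      · simp only [Matrix.adjugate_apply]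
        refine continuousOn_matrix_det fun a b => ?_
        by_cases hab : a = i
        · subst hab
          simp only [Matrix.updateRow_self]
          exact continuousOn_const
        · simp only [Matrix.updateRow_ne hab, Matrix.submatrix_apply]
          exact h.contB _ _
    · have : (fun t => qv (B t) S m j) = fun _ => (0 : ℝ) := by
        funext t
        rw [qv_off _ S m j hjm hj]
      rw [this]
      exact continuousOn_const

/-- A family of polynomials on which all functionals are continuous. -/
def Cts (B : ℝ → Matrix (Fin n) (Fin n) ℝ) (g : ℝ → MvPolynomial (Fin n) ℝ) : Prop :=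
  ∀ d : Fin n → ℕ, ContinuousOn (fun t => phi (B t) d (g t)) (Set.Icc 0 1)

theorem Cts.X_mul {B : ℝ → Matrix (Fin n) (Fin n) ℝ} {c : ℝ → Fin n → ℝ} (h : AmpPath B c)
    {g : ℝ → MvPolynomial (Fin n) ℝ} (hg : Cts B g) (j : Fin n) :
    Cts B (fun t => X j * g t) := by
  intro d
  have e : Set.EqOn (fun t => phi (B t) d (X j * g t)) (fun t =>
      ∑ m, if d m = 0 then 0 else qv (B t) (zs d) m j * phi (B t) (low d m) (g t))
      (Set.Icc 0 1) := fun t ht => phi_X_mul' (h.amp t ht).1 d j (g t)
  refine ContinuousOn.congr (continuousOn_finsetSum _ fun m _ => ?_) e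
  by_cases hm : d m = 0
  · simp only [if_pos hm]
    exact continuousOn_const
  · simp only [if_neg hm]
    exact (continuousOn_qv h _ _ _).mul (hg _)

theorem Cts.lin_mul {B : ℝ → Matrix (Fin n) (Fin n) ℝ} {c : ℝ → Fin n → ℝ} (h : AmpPath B c)
    {g : ℝ → MvPolynomial (Fin n) ℝ} (hg : Cts B g) :
    Cts B (fun t => lin (c t) * g t) := by
  intro d
  have e : Set.EqOn (fun t => phi (B t) d (lin (c t) * g t)) (fun t =>
      ∑ m, if d m = 0 then 0 else (∑ j, c t j * qv (B t) (zs d) m j) *
        phi (B t) (low d m) (g t))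
      (Set.Icc 0 1) := fun t ht => phi_lin (h.amp t ht).1 _ d (g t)
  refine ContinuousOn.congr (continuousOn_finsetSum _ fun m _ => ?_) e
  by_cases hm : d m = 0
  · simp only [if_pos hm]
    exact continuousOn_const
  · simp only [if_neg hm]
    refine ContinuousOn.mul (continuousOn_finsetSum _ fun j _ => ?_) (hg _)
    exact (h.contc j).mul (continuousOn_qv h _ _ _)

theorem Cts.one {B : ℝ → Matrix (Fin n) (Fin n) ℝ} {c : ℝ → Fin n → ℝ} (h : AmpPath B c) :
    Cts B (fun _ => 1) := by
  intro d
  by_cases hd : ∑ i, d i = 0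
  · have : (fun t => phi (B t) d (1 : MvPolynomial (Fin n) ℝ)) = fun _ => (1 : ℝ) := by
      funext t
      rw [phi_zero _ hd]
      simp
    rw [this]
    exact continuousOn_const
  · have e : Set.EqOn (fun t => phi (B t) d (1 : MvPolynomial (Fin n) ℝ)) (fun _ => (0 : ℝ))
        (Set.Icc 0 1) := fun t ht =>
      phi_hom (h.amp t ht).1 (isHomogeneous_one (Fin n) ℝ) (Ne.symm hd)
    exact ContinuousOn.congr continuousOn_const e

theorem Cts.const {B : ℝ → Matrix (Fin n) (Fin n) ℝ} {c : ℝ → Fin n → ℝ} (h : AmpPath B c)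
    (p : MvPolynomial (Fin n) ℝ) : Cts B (fun _ => p) := by
  induction p using MvPolynomial.induction_on with
  | C a =>
    intro d
    have e : (fun t => phi (B t) d (C a : MvPolynomial (Fin n) ℝ)) =
        fun t => a * phi (B t) d 1 := by
      funext t
      have : (C a : MvPolynomial (Fin n) ℝ) = a • 1 := by
        rw [smul_eq_C_mul, mul_one]
      rw [this, map_smul, smul_eq_mul]
    rw [e]
    exact continuousOn_const.mul (Cts.one h d)
  | add p q hp hq =>
    intro d
    simp only [map_add]
    exact (hp d).add (hq d)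
  | mul_X p i hp =>
    have := Cts.X_mul h hp i
    simpa only [mul_comm] using this

theorem Cts.lin_pow_mul {B : ℝ → Matrix (Fin n) (Fin n) ℝ} {c : ℝ → Fin n → ℝ}
    (h : AmpPath B c) (s : ℕ) (p : MvPolynomial (Fin n) ℝ) :
    Cts B (fun t => lin (c t) ^ s * p) := by
  induction s with
  | zero =>
    simp only [pow_zero, one_mul]
    exact Cts.const h p
  | succ s ih =>
    simp only [pow_succ', mul_assoc]
    exact Cts.lin_mul h ih

end Pool.Agent.Lib.MP_adb389_ag
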