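import Pool.Agent.Lib.MP_adb389_ag.Pos

/-! Weighted column dominant matrices. -/

set_option autoImplicit false

namespace Pool.Agent.Lib.MP_adb389_ag

open MvPolynomial Finset Matrix

variable {n : ℕ}

/-- Weighted column dominance with positive diagonal. -/
def Dom (A : Matrix (Fin n) (Fin n) ℝ) (z : Fin n → ℝ) : Prop :=
  (∀ j, 0 < z j) ∧ ∀ j, ∑ i ∈ Finset.univ.erase j, z i * |A i j| < z j * A j j

/-- The coefficients `Aᵀ z`. -/
def cz (A : Matrix (Fin n) (Fin n) ℝ) (z : Fin n → ℝ) (j : Fin n) : ℝ := ∑ i, z i * A i j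

theorem dom_core {A : Matrix (Fin n) (Fin n) ℝ} {z : Fin n → ℝ} (h : Dom A z) (v σ : Fin n → ℝ)
    (h1 : ∀ i, |σ i| ≤ 1) (h2 : ∀ j, v j * σ j = |v j|) :
    ∑ j, |v j| * (z j * A j j - ∑ i ∈ Finset.univ.erase j, z i * |A i j|) ≤
      ∑ i, z i * σ i * ∑ j, A i j * v j := by
  have e1 : ∑ i, z i * σ i * ∑ j, A i j * v j = ∑ j, v j * ∑ i, z i * σ i * A i j := by
    simp only [Finset.mul_sum]
    rw [Finset.sum_comm]
    refine Finset.sum_congr rfl fun j _ => Finset.sum_congr rfl fun i _ => ?_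
    ring
  rw [e1]
  refine Finset.sum_le_sum fun j _ => ?_
  rw [← Finset.add_sum_erase Finset.univ (fun i => z i * σ i * A i j) (Finset.mem_univ j)]
  have e2 : v j * (z j * σ j * A j j) = |v j| * (z j * A j j) := by
    rw [← h2 j]; ring
  have e3 : -(|v j| * ∑ i ∈ Finset.univ.erase j, z i * |A i j|) ≤
      v j * ∑ i ∈ Finset.univ.erase j, z i * σ i * A i j := by
    have h3 : |∑ i ∈ Finset.univ.erase j, z i * σ i * A i j| ≤
        ∑ i ∈ Finset.univ.erase j, z i * |A i j| := by
      refine (Finset.abs_sum_le_sum_abs _ _).trans (Finset.sum_le_sum fun i _ => ?_)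
      rw [abs_mul, abs_mul, abs_of_pos (h.1 i)]
      refine mul_le_mul_of_nonneg_right ?_ (abs_nonneg _)
      have := mul_le_mul_of_nonneg_left (h1 i) (h.1 i).le
      linarith
    have h4 : |v j * ∑ i ∈ Finset.univ.erase j, z i * σ i * A i j| ≤
        |v j| * ∑ i ∈ Finset.univ.erase j, z i * |A i j| := by
      rw [abs_mul]
      exact mul_le_mul_of_nonneg_left h3 (abs_nonneg _)
    exact (abs_le.1 h4).1
  rw [mul_add, e2, mul_sub]
  linarith

theorem good_of_dom {A : Matrix (Fin n) (Fin n) ℝ} {z : Fin n → ℝ} (h : Dom A z) : Good A := by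
  intro S v hv hv2
  have h1 := dom_core h v (fun i => if i ∈ S then (if 0 ≤ v i then 1 else -1) else 0)
    (fun i => by
      split_ifs <;> simp)
    (fun j => by
      by_cases hj : j ∈ S
      · rw [if_pos hj]
        by_cases hvj : 0 ≤ v j
        · rw [if_pos hvj, mul_one, abs_of_nonneg hvj]
        · rw [if_neg hvj, abs_of_neg (not_le.1 hvj)]; ring
      · rw [if_neg hj, hv j hj]; simp)
  have h2 : ∑ i, z i * (if i ∈ S then (if 0 ≤ v i then (1 : ℝ) else -1) else 0) *
      ∑ j, A i j * v j = 0 := by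
    refine Finset.sum_eq_zero fun i _ => ?_
    by_cases hi : i ∈ S
    · rw [hv2 i hi, mul_zero]
    · rw [if_neg hi]; ring
  rw [h2] at h1
  have h3 : ∀ j, 0 ≤ |v j| * (z j * A j j - ∑ i ∈ Finset.univ.erase j, z i * |A i j|) := fun j =>
    mul_nonneg (abs_nonneg _) (by linarith [h.2 j])
  have h4 := (Finset.sum_eq_zero_iff_of_nonneg fun j _ => h3 j).1
    (le_antisymm h1 (Finset.sum_nonneg fun j _ => h3 j))
  funext j
  have h5 := h4 j (Finset.mem_univ j)
  rcases mul_eq_zero.1 h5 with h6 | h6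
  · exact abs_eq_zero.1 h6
  · linarith [h.2 j]

/-- The weights are positive. -/
theorem w_pos {A : Matrix (Fin n) (Fin n) ℝ} {z : Fin n → ℝ} (h : Dom A z) {S : Finset (Fin n)}
    {m : Fin n} (hm : m ∉ S) : 0 < ∑ j, cz A z j * qv A S m j := by
  have hA := good_of_dom h
  have h1 := dom_core h (fun j => qv A S m j)
    (fun i => if i ∈ S then (if 0 ≤ qv A S m i then 1 else -1) else 1)
    (fun i => by
      split_ifs <;> simp)
    (fun j => by
      by_cases hj : j ∈ S
      · rw [if_pos hj]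
        by_cases hvj : 0 ≤ qv A S m j
        · rw [if_pos hvj, mul_one, abs_of_nonneg hvj]
        · rw [if_neg hvj, abs_of_neg (not_le.1 hvj)]; ring
      · rw [if_neg hj]
        by_cases hjm : j = m
        · rw [hjm, qv_self]; simp
        · rw [qv_off A S m j hjm hj]; simp)
  have h2 : ∑ i, z i * (if i ∈ S then (if 0 ≤ qv A S m i then (1 : ℝ) else -1) else 1) *
      ∑ j, A i j * qv A S m j = ∑ j, cz A z j * qv A S m j := by
    have e : ∑ j, cz A z j * qv A S m j = ∑ i, z i * ∑ j, A i j * qv A S m j := by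
      simp only [cz, Finset.sum_mul, Finset.mul_sum]
      rw [Finset.sum_comm]
      refine Finset.sum_congr rfl fun i _ => Finset.sum_congr rfl fun j _ => ?_
      ring
    rw [e]
    refine Finset.sum_congr rfl fun i _ => ?_
    by_cases hi : i ∈ S
    · rw [qv_zero hA hm hi, mul_zero, mul_zero]
    · rw [if_neg hi, mul_one]
  rw [h2] at h1
  refine lt_of_lt_of_le ?_ h1
  have h3 : ∀ j, 0 ≤ |qv A S m j| * (z j * A j j - ∑ i ∈ Finset.univ.erase j, z i * |A i j|) :=
    fun j => mul_nonneg (abs_nonneg _) (by linarith [h.2 j])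
  refine lt_of_lt_of_le ?_ (Finset.single_le_sum (fun j _ => h3 j) (Finset.mem_univ m))
  rw [qv_self, abs_one, one_mul]
  linarith [h.2 m]


theorem solve {A : Matrix (Fin n) (Fin n) ℝ} (hA : Good A) (S : Finset (Fin n))
    (b : Fin n → ℝ) : ∃ v : Fin n → ℝ, (∀ j, j ∉ S → v j = 0) ∧
      ∀ i ∈ S, ∑ j, A i j * v j = b i := by
  have hdet := det_ne_zero_of_good hA S
  set M := A.submatrix (fun i : S => (i : Fin n)) (fun i : S => (i : Fin n)) with hM
  have h1 : M.mulVec (M⁻¹.mulVec fun i : S => b i) = fun i : S => b i := by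
    rw [Matrix.mulVec_mulVec, Matrix.mul_nonsing_inv _ (isUnit_iff_ne_zero.2 hdet),
      Matrix.one_mulVec]
  set v' := M⁻¹.mulVec (fun i : S => b i) with hv'
  refine ⟨fun j => if h : j ∈ S then v' ⟨j, h⟩ else 0, fun j hj => dif_neg hj, fun i hi => ?_⟩
  have h2 := congrFun h1 ⟨i, hi⟩
  simp only [Matrix.mulVec, dotProduct, hM, Matrix.submatrix_apply] at h2
  rw [← h2]
  dsimp only
  rw [← Finset.sum_subset (Finset.subset_univ S)]
  · rw [← Finset.sum_coe_sort S]
    exact Finset.sum_congr rfl fun j _ => by rw [dif_pos j.2]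
  · intro j _ hj
    rw [dif_neg hj, mul_zero]

theorem solveT {A : Matrix (Fin n) (Fin n) ℝ} (hA : Good A) (S : Finset (Fin n))
    (b : Fin n → ℝ) : ∃ w : Fin n → ℝ, ∀ j ∈ S, ∑ i ∈ S, w i * A i j = b j := by
  have hdet := det_ne_zero_of_good hA S
  set M := A.submatrix (fun i : S => (i : Fin n)) (fun i : S => (i : Fin n)) with hM
  have h1 : (Matrix.vecMul (fun i : S => b i) M⁻¹) ᵥ* M = fun i : S => b i := by
    rw [Matrix.vecMul_vecMul, Matrix.nonsing_inv_mul _ (isUnit_iff_ne_zero.2 hdet),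
      Matrix.vecMul_one]
  set w' := Matrix.vecMul (fun i : S => b i) M⁻¹ with hw'
  refine ⟨fun j => if h : j ∈ S then w' ⟨j, h⟩ else 0, fun i hi => ?_⟩
  have h2 := congrFun h1 ⟨i, hi⟩
  simp only [Matrix.vecMul, dotProduct, hM, Matrix.submatrix_apply] at h2
  rw [← h2, ← Finset.sum_coe_sort S]
  dsimp only
  exact Finset.sum_congr rfl fun j _ => by rw [dif_pos j.2]

theorem cube_of_dom {A : Matrix (Fin n) (Fin n) ℝ} {z : Fin n → ℝ} (h : Dom A z) :
    Cube A (cz A z) := by
  have hA := good_of_dom h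
  intro S
  obtain ⟨w', hw'⟩ := solveT hA S (cz A z)
  obtain ⟨w, hwd⟩ : ∃ w : Fin n → ℝ, ∀ i, w i = if i ∈ S then w' i else
      cz A z i - ∑ k ∈ S, w' k * A k i := ⟨_, fun _ => rfl⟩
  have hwS : ∀ j, ∑ i ∈ S, w i * A i j = ∑ i ∈ S, w' i * A i j := fun j =>
    Finset.sum_congr rfl fun i hi => by rw [hwd, if_pos hi]
  have hw : ∀ j, cz A z j = (∑ i ∈ S, w i * A i j) + if j ∈ S then 0 else w j := by
    intro j
    rw [hwS]
    by_cases hj : j ∈ S
    · rw [if_pos hj, hw' j hj, add_zero]
    · rw [if_neg hj, hwd, if_neg hj]; ring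
  refine ⟨w, fun p => ?_, hw⟩
  by_cases hp : p ∈ S
  · obtain ⟨v, hv, hv2⟩ := solve hA S (fun i => if i = p then 1 else 0)
    have hvp : v ≠ 0 := by
      intro h0
      have := hv2 p hp
      rw [h0] at this
      simp at this
    have hpos : 0 < ∑ j, |v j| * (z j * A j j - ∑ i ∈ Finset.univ.erase j, z i * |A i j|) := by
      have h3 : ∀ j, 0 ≤ |v j| * (z j * A j j - ∑ i ∈ Finset.univ.erase j, z i * |A i j|) :=
        fun j => mul_nonneg (abs_nonneg _) (by linarith [h.2 j])
      obtain ⟨j, hj⟩ : ∃ j, v j ≠ 0 := by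
        by_contra hcon
        push Not at hcon
        exact hvp (funext hcon)
      refine lt_of_lt_of_le ?_ (Finset.single_le_sum (fun j _ => h3 j) (Finset.mem_univ j))
      exact mul_pos (abs_pos.2 hj) (by linarith [h.2 j])
    obtain ⟨σ, hσ⟩ : ∃ σ : Fin n → ℝ, ∀ i, σ i = if 0 ≤ v i then 1 else -1 := ⟨_, fun _ => rfl⟩
    have hσ1 : ∀ i, |σ i| = 1 := by
      intro i
      rw [hσ]
      split_ifs <;> simp
    have hσ2 : ∀ j, v j * σ j = |v j| := by
      intro j
      rw [hσ]
      by_cases hvj : 0 ≤ v j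
      · rw [if_pos hvj, mul_one, abs_of_nonneg hvj]
      · rw [if_neg hvj, abs_of_neg (not_le.1 hvj)]; ring
    have h1 := dom_core h v (fun i => if i ∈ S then σ i else 0)
      (fun i => by
        by_cases hi : i ∈ S
        · rw [if_pos hi, hσ1]
        · rw [if_neg hi]; simp)
      (fun j => by
        by_cases hj : j ∈ S
        · rw [if_pos hj, hσ2]
        · rw [if_neg hj, hv j hj]; simp)
    have e1 : ∑ i, z i * (if i ∈ S then σ i else 0) * ∑ j, A i j * v j = z p * σ p := by
      rw [Finset.sum_eq_single p]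
      · rw [if_pos hp, hv2 p hp, if_pos rfl, mul_one]
      · intro i _ hi
        by_cases hiS : i ∈ S
        · rw [hv2 i hiS, if_neg hi, mul_zero]
        · rw [if_neg hiS, mul_zero, zero_mul]
      · intro h'; exact absurd (Finset.mem_univ p) h'
    rw [e1] at h1
    have hσp : σ p = 1 := by
      have h2 : 0 < z p * σ p := lt_of_lt_of_le hpos h1
      have h3 : 0 < σ p := by
        by_contra hcon
        push Not at hcon
        exact absurd h2 (not_lt.2 (mul_nonpos_of_nonneg_of_nonpos (h.1 p).le hcon))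
      rw [hσ] at h3 ⊢
      by_cases hvp : 0 ≤ v p
      · rw [if_pos hvp]
      · rw [if_neg hvp] at h3
        norm_num at h3
    have h2 := dom_core h v (fun i => if i ∈ S then σ i else 1)
      (fun i => by
        by_cases hi : i ∈ S
        · rw [if_pos hi, hσ1]
        · rw [if_neg hi]; simp)
      (fun j => by
        by_cases hj : j ∈ S
        · rw [if_pos hj, hσ2]
        · rw [if_neg hj, hv j hj]; simp)
    have e2 : ∑ i, z i * (if i ∈ S then σ i else 1) * ∑ j, A i j * v j =
        ∑ j, cz A z j * v j := by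
      have e : ∑ j, cz A z j * v j = ∑ i, z i * ∑ j, A i j * v j := by
        simp only [cz, Finset.sum_mul, Finset.mul_sum]
        rw [Finset.sum_comm]
        refine Finset.sum_congr rfl fun i _ => Finset.sum_congr rfl fun j _ => ?_
        ring
      rw [e]
      refine Finset.sum_congr rfl fun i _ => ?_
      by_cases hi : i ∈ S
      · rw [if_pos hi, hv2 i hi]
        by_cases hip : i = p
        · rw [hip, hσp, mul_one]
        · rw [if_neg hip, mul_zero, mul_zero]
      · rw [if_neg hi, mul_one]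
    have e4 : ∑ i ∈ S, w i * ∑ j, A i j * v j = w p := by
      rw [Finset.sum_eq_single p]
      · rw [hv2 p hp, if_pos rfl, mul_one]
      · intro i hi hip
        rw [hv2 i hi, if_neg hip, mul_zero]
      · intro h'; exact absurd hp h'
    have e3 : ∑ j, (if j ∈ S then 0 else w j) * v j = 0 := by
      refine Finset.sum_eq_zero fun j _ => ?_
      by_cases hj : j ∈ S
      · rw [if_pos hj, zero_mul]
      · rw [hv j hj, mul_zero]
    rw [e2, cube_pair hw, e4, e3, add_zero] at h2
    exact lt_of_lt_of_le hpos h2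
  · have h1 := w_pos h hp
    rw [cube_pair hw, Finset.sum_eq_zero fun i hi => by
      rw [qv_zero hA hp hi, mul_zero], zero_add, Finset.sum_eq_single p] at h1
    · rwa [if_neg hp, qv_self, mul_one] at h1
    · intro j _ hj
      by_cases hjS : j ∈ S
      · rw [if_pos hjS, zero_mul]
      · rw [qv_off A S p j hj hjS, mul_zero]
    · intro h'; exact absurd (Finset.mem_univ p) h'

end Pool.Agent.Lib.MP_adb389_ag
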