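import Pool.Agent.Lib.MP_adb389_ag.Phi

/-! Duality: the ideal `(x_i ^ d_i * (A x)_i)` is the annihilator of the functional `phi A d`. -/

set_option autoImplicit false

namespace Pool.Agent.Lib.MP_adb389_ag

open MvPolynomial Finset

variable {n : ℕ} {K : Type} [Field K]

theorem split_monomial {α : Fin n →₀ ℕ} {i : Fin n} (hi : α i ≠ 0) :
    α = Finsupp.single i 1 + (α - Finsupp.single i 1) := by
  ext k
  simp only [Finsupp.add_apply, Finsupp.tsub_apply, Finsupp.single_apply]
  by_cases hk : i = k
  · subst hk
    rw [if_pos rfl]
    omega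
  · rw [if_neg hk]
    omega

theorem phi_monomial {A : Matrix (Fin n) (Fin n) K} (hA : Good A) : ∀ (N : ℕ) (d : Fin n → ℕ),
    ∑ i, d i = N → ∀ α : Fin n →₀ ℕ, α.degree ≠ N → phi A d (monomial α 1) = 0 := by
  intro N
  induction N with
  | zero =>
    intro d hd α hα
    rw [phi_zero A hd, coeff_monomial, if_neg]
    intro h
    rw [h] at hα
    simp at hα
  | succ N ih =>
    intro d hd α hα
    by_cases h0 : α = 0
    · subst h0
      unfold phi
      rw [hd]
      exact integ_one _
    · obtain ⟨i, hi⟩ := Finsupp.ne_iff.1 h0
      have hi' : α i ≠ 0 := hi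
      have hs := split_monomial hi'
      rw [hs, ← X_mul_monomial, phi_X_mul' hA]
      refine Finset.sum_eq_zero fun m _ => ?_
      by_cases hm : d m = 0
      · rw [if_pos hm]
      · rw [if_neg hm, ih (low d m) (by have := sum_low hm; omega), mul_zero]
        intro h
        apply hα
        rw [hs, map_add, Finsupp.degree_single, h]
        omega

theorem phi_hom {A : Matrix (Fin n) (Fin n) K} (hA : Good A) {d : Fin n → ℕ}
    {g : MvPolynomial (Fin n) K} {k : ℕ} (hg : g.IsHomogeneous k) (hk : k ≠ ∑ i, d i) :
    phi A d g = 0 := by
  rw [← support_sum_monomial_coeff g, map_sum]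
  refine Finset.sum_eq_zero fun α hα => ?_
  have h1 : monomial α (coeff α g) = coeff α g • (monomial α 1 : MvPolynomial (Fin n) K) := by
    rw [smul_monomial, smul_eq_mul, mul_one]
  rw [h1, map_smul, phi_monomial hA _ d rfl, smul_zero]
  intro h2
  apply hk
  have h3 := hg (mem_support_iff.1 hα)
  rw [← h2, ← h3, Finsupp.degree_eq_weight_one]
  rfl

/-- the matrix with row `i` replaced by the unit vector -/
noncomputable def unitRow (A : Matrix (Fin n) (Fin n) K) (i : Fin n) : Matrix (Fin n) (Fin n) K :=
  A.updateRow i (Pi.single i 1)

theorem unitRow_self (A : Matrix (Fin n) (Fin n) K) (i j : Fin n) :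
    unitRow A i i j = Pi.single (M := fun _ => K) i 1 j := by
  unfold unitRow
  rw [Matrix.updateRow_self]

theorem unitRow_ne (A : Matrix (Fin n) (Fin n) K) {i s : Fin n} (h : s ≠ i) (j : Fin n) :
    unitRow A i s j = A s j := by
  unfold unitRow
  rw [Matrix.updateRow_ne h]

theorem sum_unitRow (A : Matrix (Fin n) (Fin n) K) (i : Fin n) (v : Fin n → K) :
    ∑ j, unitRow A i i j * v j = v i := by
  rw [Finset.sum_eq_single i]
  · rw [unitRow_self, Pi.single_eq_same, one_mul]
  · intro j _ hj
    rw [unitRow_self, Pi.single_eq_of_ne hj, zero_mul]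
  · intro h; exact absurd (Finset.mem_univ i) h

theorem good_unitRow {A : Matrix (Fin n) (Fin n) K} (hA : Good A) (i : Fin n) :
    Good (unitRow A i) := by
  intro S v hv hv2
  by_cases hi : i ∈ S
  · have h1 : v i = 0 := by
      have := hv2 i hi
      rwa [sum_unitRow] at this
    refine hA (S.erase i) v (fun j hj => ?_) (fun s hs => ?_)
    · by_cases hji : j = i
      · rw [hji]; exact h1
      · exact hv j (fun h => hj (Finset.mem_erase.2 ⟨hji, h⟩))
    · have h2 := hv2 s (Finset.mem_of_mem_erase hs)
      rw [← h2]
      exact Finset.sum_congr rfl fun j _ => by rw [unitRow_ne A (Finset.ne_of_mem_erase hs)]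
  · refine hA S v hv (fun s hs => ?_)
    have h2 := hv2 s hs
    rw [← h2]
    have hsi : s ≠ i := fun h => hi (h ▸ hs)
    exact Finset.sum_congr rfl fun j _ => by rw [unitRow_ne A hsi]

theorem yf_unitRow_self (A : Matrix (Fin n) (Fin n) K) (i : Fin n) :
    yf (unitRow A i) i = X i := by
  unfold yf
  rw [Finset.sum_eq_single i]
  · rw [unitRow_self, Pi.single_eq_same, C_1, one_mul]
  · intro j _ hj
    rw [unitRow_self, Pi.single_eq_of_ne hj, C_0, zero_mul]
  · intro h; exact absurd (Finset.mem_univ i) h

theorem yf_unitRow_ne (A : Matrix (Fin n) (Fin n) K) {i s : Fin n} (h : s ≠ i) :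
    yf (unitRow A i) s = yf A s := by
  unfold yf
  exact Finset.sum_congr rfl fun j _ => by rw [unitRow_ne A h]

theorem phi_X_pow {A : Matrix (Fin n) (Fin n) K} (hA : Good A) (i : Fin n) :
    ∀ (k : ℕ) (d : Fin n → ℕ), k ≤ d i → ∀ g,
      phi A d (X i ^ k * g) = phi A (Function.update d i (d i - k)) g := by
  intro k
  induction k with
  | zero =>
    intro d _ g
    rw [pow_zero, one_mul, Nat.sub_zero, Function.update_eq_self]
  | succ k ih =>
    intro d hk g
    have hne : d i ≠ 0 := by omega
    rw [pow_succ', mul_assoc, phi_X_mul hA hne, ih (low d i) (by rw [low_self]; omega)]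
    congr 1
    congr 1
    funext j
    by_cases hj : j = i
    · subst hj
      rw [Function.update_self, Function.update_self, low_self]
      omega
    · rw [Function.update_of_ne hj, Function.update_of_ne hj, low_ne _ hj]

theorem sum_update_zero {d : Fin n → ℕ} {i : Fin n} (h : d i = 0) :
    ∑ j, Function.update d i 1 j = ∑ j, d j + 1 := by
  rw [Finset.sum_update_of_mem (Finset.mem_univ i), ← Finset.add_sum_erase _ _ (Finset.mem_univ i),
    h, zero_add, Finset.sdiff_singleton_eq_erase]
  omega

/-- The functional obtained by contracting with `y_i`. -/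
theorem kappa {A : Matrix (Fin n) (Fin n) K} (hA : Good A) (i : Fin n) :
    ∃ κ : K, κ ≠ 0 ∧ ∀ (N : ℕ) (d : Fin n → ℕ), ∑ j, d j = N → d i = 0 → ∀ h,
      phi A (Function.update d i 1) (yf A i * h) = κ * phi (unitRow A i) d h := by
  have hA' := good_unitRow hA i
  refine ⟨phi A (Function.update 0 i 1) (yf A i), ?_, ?_⟩
  · intro hκ
    have hne : (Function.update (0 : Fin n → ℕ) i 1) i ≠ 0 := by simp
    have h1 := hA Finset.univ (fun j => phi A (Function.update 0 i 1) (X j))
      (fun j hj => absurd (Finset.mem_univ j) hj) (fun s _ => ?_)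
    · have h2 := congrFun h1 i
      have h3 : phi A (Function.update 0 i 1) (X i * 1) = 1 := by
        rw [phi_X_mul hA hne, phi_zero]
        · simp
        · have := sum_low hne
          rw [sum_update_zero (by rfl)] at this
          simpa using this
      rw [mul_one] at h3
      simp only [Pi.zero_apply] at h2
      rw [h2] at h3
      exact zero_ne_one h3
    · have h2 := yf_mul A (phi A (Function.update 0 i 1)) s 1
      simp only [mul_one] at h2
      rw [← h2]
      by_cases hs : s = i
      · rw [hs]; exact hκ
      · have := phi_yf_mul hA (d := Function.update 0 i 1) (i := s)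
          (by rw [Function.update_of_ne hs]; rfl) 1
        rwa [mul_one] at this
  · intro N
    induction N with
    | zero =>
      intro d hd hdi h
      have hz : d = 0 := by
        funext j
        exact (Finset.sum_eq_zero_iff.1 hd) j (Finset.mem_univ j)
      subst hz
      -- both sides are functionals of h
      have key : (phi A (Function.update 0 i 1)).comp (LinearMap.mulLeft K (yf A i)) =
          phi A (Function.update 0 i 1) (yf A i) • phi (unitRow A i) 0 := by
        refine functional_ext ?_ ?_
        · rw [LinearMap.comp_apply, LinearMap.mulLeft_apply, mul_one, LinearMap.smul_apply,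
            phi_zero (unitRow A i) (d := 0) (by simp)]
          simp
        · intro j g
          rw [LinearMap.comp_apply, LinearMap.mulLeft_apply, LinearMap.smul_apply,
            phi_zero (unitRow A i) (d := 0) (by simp), coeff_zero_X_mul, smul_zero]
          have e : yf A i * (X j * g) = X j * (yf A i * g) := by ring
          rw [e, phi_X_mul' hA]
          refine Finset.sum_eq_zero fun m _ => ?_
          by_cases hm : Function.update (0 : Fin n → ℕ) i 1 m = 0
          · rw [if_pos hm]
          · rw [if_neg hm]
            have hmi : m = i := by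
              by_contra hmi
              rw [Function.update_of_ne hmi] at hm
              exact hm rfl
            subst hmi
            rw [phi_yf_mul hA (by rw [low_self, Function.update_self]), mul_zero]
      have := LinearMap.congr_fun key h
      rwa [LinearMap.comp_apply, LinearMap.mulLeft_apply, LinearMap.smul_apply, smul_eq_mul] at this
    | succ N ih =>
      intro d hd hdi h
      have hlow : ∀ m, d m ≠ 0 → low (Function.update d i 1) m = Function.update (low d m) i 1 := by
        intro m hm
        have hmi : m ≠ i := fun h => hm (h ▸ hdi)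
        funext j
        by_cases hj : j = m
        · subst hj
          rw [low_self, Function.update_of_ne hmi, Function.update_of_ne hmi, low_self]
        · rw [low_ne _ hj]
          by_cases hji : j = i
          · subst hji
            rw [Function.update_self, Function.update_self]
          · rw [Function.update_of_ne hji, Function.update_of_ne hji, low_ne _ hj]
      -- agreement on `X m` with `d m ≠ 0`
      have hT : ∀ m, d m ≠ 0 → ∀ g, phi A (Function.update d i 1) (yf A i * (X m * g)) =
          phi A (Function.update 0 i 1) (yf A i) * phi (unitRow A i) d (X m * g) := by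
        intro m hm g
        have hmi : m ≠ i := fun h => hm (h ▸ hdi)
        have e : yf A i * (X m * g) = X m * (yf A i * g) := by ring
        rw [e, phi_X_mul hA (by rw [Function.update_of_ne hmi]; exact hm), hlow m hm,
          ih (low d m) (by have := sum_low hm; omega)
            (by rw [low_ne _ (Ne.symm hmi)]; exact hdi), phi_X_mul hA' hm]
      have key : (phi A (Function.update d i 1)).comp (LinearMap.mulLeft K (yf A i)) =
          phi A (Function.update 0 i 1) (yf A i) • phi (unitRow A i) d := by
        refine functional_ext ?_ ?_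
        · rw [LinearMap.comp_apply, LinearMap.mulLeft_apply, mul_one, LinearMap.smul_apply]
          have h1 : phi (unitRow A i) d 1 = 0 :=
            phi_hom hA' (isHomogeneous_one (Fin n) K) (by omega)
          have h2 : phi A (Function.update d i 1) (yf A i) = 0 := by
            refine phi_hom (k := 1) hA ?_ ?_
            · unfold yf
              refine IsHomogeneous.sum _ _ _ fun j _ => ?_
              have := (isHomogeneous_C (Fin n) (A i j)).mul (isHomogeneous_X K j)
              simpa using this
            · rw [sum_update_zero hdi]; omega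
          rw [h1, h2, smul_zero]
        · intro j g
          rw [LinearMap.comp_apply, LinearMap.mulLeft_apply, LinearMap.smul_apply, smul_eq_mul]
          -- the difference vector
          have h3 := hA ((zs d).erase i) (fun j => phi A (Function.update d i 1) (yf A i * (X j * g)) -
            phi A (Function.update 0 i 1) (yf A i) * phi (unitRow A i) d (X j * g)) ?_ ?_
          · have := congrFun h3 j
            simp only [Pi.zero_apply] at this
            exact sub_eq_zero.1 this
          · intro j hj
            show _ - _ = (0 : K)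
            rw [sub_eq_zero]
            by_cases hji : j = i
            · subst hji
              have e : yf A j * (X j * g) = X j * (yf A j * g) := by ring
              have h4 : phi (unitRow A j) d (X j * g) = 0 := by
                have := phi_yf_mul hA' (d := d) (i := j) hdi g
                rwa [yf_unitRow_self] at this
              rw [h4, mul_zero, e, phi_X_mul hA (by rw [Function.update_self]; exact one_ne_zero)]
              have h5 : low (Function.update d j 1) j = d := by
                funext k
                by_cases hk : k = j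
                · subst hk
                  rw [low_self, Function.update_self, hdi]
                · rw [low_ne _ hk, Function.update_of_ne hk]
              rw [h5, phi_yf_mul hA hdi]
            · have hdj : d j ≠ 0 := by
                intro h
                exact hj (Finset.mem_erase.2 ⟨hji, mem_zs.2 h⟩)
              exact hT j hdj g
          · intro s hs
            have hsi : s ≠ i := Finset.ne_of_mem_erase hs
            have hds : d s = 0 := mem_zs.1 (Finset.mem_of_mem_erase hs)
            simp only [mul_sub, Finset.sum_sub_distrib]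
            have h4 : ∑ j, A s j * phi A (Function.update d i 1) (yf A i * (X j * g)) = 0 := by
              have e : ∀ j, yf A i * (X j * g) = X j * (yf A i * g) := fun j => by ring
              simp only [e]
              rw [← yf_mul]
              exact phi_yf_mul hA (by rw [Function.update_of_ne hsi]; exact hds) _
            have h5 : ∑ j, A s j * (phi A (Function.update 0 i 1) (yf A i) *
                phi (unitRow A i) d (X j * g)) = 0 := by
              have e : ∀ j, A s j * (phi A (Function.update 0 i 1) (yf A i) *
                  phi (unitRow A i) d (X j * g)) = phi A (Function.update 0 i 1) (yf A i) *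
                  (unitRow A i s j * phi (unitRow A i) d (X j * g)) := fun j => by
                rw [unitRow_ne A hsi]; ring
              rw [Finset.sum_congr rfl fun j _ => e j, ← Finset.mul_sum, ← yf_mul,
                phi_yf_mul hA' hds, mul_zero]
            rw [h4, h5, sub_zero]
      have := LinearMap.congr_fun key h
      rwa [LinearMap.comp_apply, LinearMap.mulLeft_apply, LinearMap.smul_apply, smul_eq_mul] at this

theorem phi_gen {A : Matrix (Fin n) (Fin n) K} (hA : Good A) (d : Fin n → ℕ) (i : Fin n)
    (h : MvPolynomial (Fin n) K) : phi A d (gen A d i * h) = 0 := by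
  unfold gen
  rw [mul_assoc, phi_X_pow hA i (d i) d le_rfl, Nat.sub_self]
  exact phi_yf_mul hA (by rw [Function.update_self]) h

theorem phi_idl {A : Matrix (Fin n) (Fin n) K} (hA : Good A) {d : Fin n → ℕ}
    {g : MvPolynomial (Fin n) K} (hg : g ∈ idl A d) : ∀ h, phi A d (g * h) = 0 := by
  refine Submodule.span_induction (p := fun g _ => ∀ h, phi A d (g * h) = 0) ?_ ?_ ?_ ?_ hg
  · rintro _ ⟨i, rfl⟩ h
    exact phi_gen hA d i h
  · intro h
    rw [zero_mul, map_zero]
  · intro a b _ _ ha hb h
    rw [add_mul, map_add, ha, hb, add_zero]
  · intro a b _ hb h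
    rw [smul_eq_mul, mul_comm a b, mul_assoc]
    exact hb _

theorem phi_yf_pow {A : Matrix (Fin n) (Fin n) K} (hA : Good A) (i : Fin n) :
    ∃ κ : K, κ ≠ 0 ∧ ∀ d : Fin n → ℕ, d i ≠ 0 → ∀ h,
      phi A d (X i ^ (d i - 1) * yf A i * h) =
        κ * phi (unitRow A i) (Function.update d i 0) h := by
  obtain ⟨κ, hκ, hk⟩ := kappa hA i
  refine ⟨κ, hκ, fun d hd h => ?_⟩
  rw [mul_assoc, phi_X_pow hA i (d i - 1) d (Nat.sub_le _ _)]
  have h1 := hk _ (Function.update d i 0) rfl (by rw [Function.update_self]) h
  rw [Function.update_idem] at h1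
  have h2 : d i - (d i - 1) = 1 := by omega
  rw [h2]
  exact h1

theorem X_mem_of_zero {A : Matrix (Fin n) (Fin n) K} (hA : Good A) {d : Fin n → ℕ}
    (hd : ∀ i, d i = 0) (j : Fin n) : (X j : MvPolynomial (Fin n) K) ∈ idl A d := by
  have hdet : IsUnit A.det := by
    rw [isUnit_iff_ne_zero]
    intro h0
    obtain ⟨v, hv, hv2⟩ := Matrix.exists_mulVec_eq_zero_iff.2 h0
    apply hv
    refine hA Finset.univ v (fun j hj => absurd (Finset.mem_univ j) hj) (fun i _ => ?_)
    exact congrFun hv2 i
  have hy : ∀ i, yf A i ∈ idl A d := by
    intro i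
    have : gen A d i ∈ idl A d := Ideal.subset_span ⟨i, rfl⟩
    unfold gen at this
    rwa [hd i, pow_zero, one_mul] at this
  have h1 : (X j : MvPolynomial (Fin n) K) = ∑ i, C (A⁻¹ j i) * yf A i := by
    unfold yf
    simp only [Finset.mul_sum]
    rw [Finset.sum_comm]
    have h2 : ∀ k, ∑ i, C (A⁻¹ j i) * (C (A i k) * X k) =
        C ((A⁻¹ * A) j k) * (X k : MvPolynomial (Fin n) K) := by
      intro k
      rw [Matrix.mul_apply, map_sum, Finset.sum_mul]
      refine Finset.sum_congr rfl fun i _ => ?_
      rw [C_mul]; ring
    rw [Finset.sum_congr rfl fun k _ => h2 k, Matrix.nonsing_inv_mul A hdet,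
      Finset.sum_eq_single j]
    · rw [Matrix.one_apply_eq, C_1, one_mul]
    · intro k _ hk
      rw [Matrix.one_apply_ne (Ne.symm hk), C_0, zero_mul]
    · intro h; exact absurd (Finset.mem_univ j) h
  rw [h1]
  exact Ideal.sum_mem _ fun i _ => Ideal.mul_mem_left _ _ (hy i)

theorem mem_of_coeff_zero {I : Ideal (MvPolynomial (Fin n) K)} (hI : ∀ j, X j ∈ I)
    {g : MvPolynomial (Fin n) K} (hg : coeff 0 g = 0) : g ∈ I := by
  rw [← support_sum_monomial_coeff g]
  refine Ideal.sum_mem _ fun α hα => ?_
  have h0 : α ≠ 0 := by
    rintro rfl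
    exact (mem_support_iff.1 hα) hg
  obtain ⟨i, hi⟩ := Finsupp.ne_iff.1 h0
  have hs := split_monomial (show α i ≠ 0 from hi)
  have h1 : monomial α (coeff α g) = X i * monomial (α - Finsupp.single i 1) (coeff α g) := by
    rw [X, monomial_mul, one_mul, ← hs]
  rw [h1]
  exact Ideal.mul_mem_right _ _ (hI i)

theorem X_mul_mem {A : Matrix (Fin n) (Fin n) K} {d : Fin n → ℕ} {i : Fin n} (hi : d i ≠ 0)
    {a : MvPolynomial (Fin n) K} (ha : a ∈ idl A (low d i)) : X i * a ∈ idl A d := by
  refine Submodule.span_induction (p := fun a _ => X i * a ∈ idl A d) ?_ ?_ ?_ ?_ ha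
  · rintro _ ⟨j, rfl⟩
    by_cases hj : j = i
    · subst hj
      have : X j * gen A (low d j) j = gen A d j := by
        unfold gen
        rw [low_self, ← mul_assoc, ← pow_succ']
        congr 2
        omega
      rw [this]
      exact Ideal.subset_span ⟨j, rfl⟩
    · have : gen A (low d i) j = gen A d j := by
        unfold gen
        rw [low_ne _ hj]
      rw [this]
      exact Ideal.mul_mem_left _ _ (Ideal.subset_span ⟨j, rfl⟩)
  · rw [mul_zero]
    exact Ideal.zero_mem _
  · intro a b _ _ ha hb
    rw [mul_add]
    exact Ideal.add_mem _ ha hb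
  · intro a b _ hb
    rw [smul_eq_mul]
    have : X i * (a * b) = a * (X i * b) := by ring
    rw [this]
    exact Ideal.mul_mem_left _ _ hb

theorem idl_unitRow_le (A : Matrix (Fin n) (Fin n) K) (d : Fin n → ℕ) (i : Fin n) :
    idl (unitRow A i) (Function.update d i 0) ≤ Ideal.span {X i} ⊔ idl A d := by
  unfold idl
  rw [Ideal.span_le]
  rintro _ ⟨j, rfl⟩
  by_cases hj : j = i
  · subst hj
    have : gen (unitRow A j) (Function.update d j 0) j = X j := by
      unfold gen
      rw [Function.update_self, pow_zero, one_mul, yf_unitRow_self]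
    rw [this]
    exact Ideal.mem_sup_left (Ideal.subset_span rfl)
  · have : gen (unitRow A i) (Function.update d i 0) j = gen A d j := by
      unfold gen
      rw [Function.update_of_ne hj, yf_unitRow_ne A hj]
    rw [this]
    exact Ideal.mem_sup_right (Ideal.subset_span ⟨j, rfl⟩)

/-- Duality. -/
theorem mem_idl_of_phi : ∀ (N : ℕ) (A : Matrix (Fin n) (Fin n) K), Good A → ∀ d : Fin n → ℕ,
    ∑ i, d i = N → ∀ g : MvPolynomial (Fin n) K, (∀ h, phi A d (g * h) = 0) → g ∈ idl A d := by
  intro N
  induction N using Nat.strong_induction_on with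
  | _ N ih =>
    intro A hA d hd g hg
    by_cases hz : ∀ i, d i = 0
    · refine mem_of_coeff_zero (X_mem_of_zero hA hz) ?_
      have := hg 1
      rwa [mul_one, phi_zero A (Finset.sum_eq_zero fun i _ => hz i)] at this
    · push Not at hz
      obtain ⟨i, hi⟩ := hz
      have hA' := good_unitRow hA i
      have hsum : ∑ j, Function.update d i 0 j < N := by
        have h1 : ∑ j, Function.update d i 0 j + d i = ∑ j, d j := by
          rw [Finset.sum_update_of_mem (Finset.mem_univ i), zero_add,
            Finset.sdiff_singleton_eq_erase, ← Finset.add_sum_erase _ d (Finset.mem_univ i)]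
          omega
        omega
      obtain ⟨κ, hκ, hk⟩ := phi_yf_pow hA i
      have h1 : g ∈ idl (unitRow A i) (Function.update d i 0) := by
        refine ih _ hsum _ hA' _ rfl g (fun h => ?_)
        have h2 := hk d hi (g * h)
        have h3 : phi A d (X i ^ (d i - 1) * yf A i * (g * h)) = 0 := by
          have e : X i ^ (d i - 1) * yf A i * (g * h) =
            g * (X i ^ (d i - 1) * yf A i * h) := by ring
          rw [e]
          exact hg _
        rw [h3] at h2
        exact (mul_eq_zero.1 h2.symm).resolve_left hκ
      obtain ⟨a, ha, r, hr, har⟩ := Submodule.mem_sup.1 (idl_unitRow_le A d i h1)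
      obtain ⟨b, hb⟩ := Ideal.mem_span_singleton.1 ha
      have h2 : b ∈ idl A (low d i) := by
        refine ih _ (by have := sum_low hi; omega) A hA (low d i) rfl b (fun h => ?_)
        rw [← phi_X_mul hA hi, ← mul_assoc, ← hb]
        have e : a = g - r := by rw [← har]; ring
        rw [e, sub_mul, map_sub, hg, phi_idl hA hr, sub_zero]
      rw [← har, hb]
      exact Ideal.add_mem _ (X_mul_mem hi h2) hr

theorem mem_idl_iff {A : Matrix (Fin n) (Fin n) K} (hA : Good A) {d : Fin n → ℕ}
    {g : MvPolynomial (Fin n) K} : g ∈ idl A d ↔ ∀ h, phi A d (g * h) = 0 :=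
  ⟨fun h => phi_idl hA h, mem_idl_of_phi _ A hA d rfl g⟩

theorem idl_le_low {A : Matrix (Fin n) (Fin n) K} {d : Fin n → ℕ} {i : Fin n} (hi : d i ≠ 0) :
    idl A d ≤ idl A (low d i) := by
  unfold idl
  rw [Ideal.span_le]
  rintro _ ⟨j, rfl⟩
  by_cases hj : j = i
  · subst hj
    have : gen A d j = X j * gen A (low d j) j := by
      unfold gen
      rw [low_self, ← mul_assoc, ← pow_succ']
      congr 2
      omega
    rw [this]
    exact Ideal.mul_mem_left _ _ (Ideal.subset_span ⟨j, rfl⟩)
  · have : gen A d j = gen A (low d i) j := by
      unfold gen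
      rw [low_ne _ hj]
    rw [this]
    exact Ideal.subset_span ⟨j, rfl⟩

/-- The socle is in the top degree. -/
theorem mem_of_low {A : Matrix (Fin n) (Fin n) K} (hA : Good A) {d : Fin n → ℕ}
    {f : MvPolynomial (Fin n) K} {k : ℕ} (hf : f.IsHomogeneous k) (hk : k ≠ ∑ i, d i)
    (h : ∀ m, d m ≠ 0 → f ∈ idl A (low d m)) : f ∈ idl A d := by
  rw [mem_idl_iff hA]
  have key : (phi A d).comp (LinearMap.mulLeft K f) = 0 := by
    refine functional_ext ?_ ?_
    · rw [LinearMap.comp_apply, LinearMap.mulLeft_apply, mul_one, LinearMap.zero_apply]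
      exact phi_hom hA hf hk
    · intro j g
      rw [LinearMap.comp_apply, LinearMap.mulLeft_apply, LinearMap.zero_apply]
      have e : f * (X j * g) = X j * (f * g) := by ring
      rw [e, phi_X_mul' hA]
      refine Finset.sum_eq_zero fun m _ => ?_
      by_cases hm : d m = 0
      · rw [if_pos hm]
      · rw [if_neg hm, (mem_idl_iff hA).1 (h m hm) g, mul_zero]
  intro g
  have := LinearMap.congr_fun key g
  rwa [LinearMap.comp_apply, LinearMap.mulLeft_apply, LinearMap.zero_apply] at this

end Pool.Agent.Lib.MP_adb389_ag
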