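import Pool.Agent.Lib.MP_adb389_ag.Lef

/-! Invariance of the weak Lefschetz property under rank one changes of the matrix. -/

set_option autoImplicit false

namespace Pool.Agent.Lib.MP_adb389_ag

open MvPolynomial Finset

variable {n : ℕ} {K : Type} [Field K]

theorem sur_succ {I : Ideal (MvPolynomial (Fin n) K)} {L : MvPolynomial (Fin n) K} {k : ℕ}
    (h : Sur I L k 1) : Sur I L (k + 1) 1 := by
  intro p hp
  rw [← support_sum_monomial_coeff p]
  refine Finset.sum_induction (fun α => monomial α (coeff α p))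
    (fun q => ∃ f : MvPolynomial (Fin n) K, f.IsHomogeneous (k + 1) ∧ q - L * f ∈ I) ?_ ?_ ?_
  · rintro a b ⟨f, hf, hfa⟩ ⟨g, hg, hgb⟩
    refine ⟨f + g, hf.add hg, ?_⟩
    have e : a + b - L * (f + g) = (a - L * f) + (b - L * g) := by ring
    rw [e]
    exact Ideal.add_mem _ hfa hgb
  · exact ⟨0, isHomogeneous_zero _ _ _, by simp⟩
  · intro α hα
    have hdeg : α.degree = k + 1 + 1 := by
      have h2 := hp (mem_support_iff.1 hα)
      rw [← h2, Finsupp.degree_eq_weight_one]
      rfl
    obtain ⟨j, hj⟩ : ∃ j, α j ≠ 0 := by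
      by_contra hcon
      push Not at hcon
      have : α = 0 := Finsupp.ext hcon
      rw [this] at hdeg
      simp at hdeg
    have e1 : (monomial α (coeff α p) : MvPolynomial (Fin n) K) =
        X j * monomial (α - Finsupp.single j 1) (coeff α p) := by
      rw [X, monomial_mul, one_mul, ← split_monomial hj]
    have hdeg2 : (α - Finsupp.single j 1).degree = k + 1 := by
      have h2 := congrArg Finsupp.degree (split_monomial hj)
      rw [map_add, Finsupp.degree_single, hdeg] at h2
      omega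
    obtain ⟨f, hf, hfm⟩ := h (monomial (α - Finsupp.single j 1) (coeff α p))
      (isHomogeneous_monomial _ hdeg2)
    refine ⟨X j * f, ?_, ?_⟩
    · have := (isHomogeneous_X K j).mul hf
      rwa [add_comm] at this
    · rw [e1]
      have e2 : X j * monomial (α - Finsupp.single j 1) (coeff α p) - L * (X j * f) =
          X j * (monomial (α - Finsupp.single j 1) (coeff α p) - L * f) := by ring
      rw [e2]
      exact Ideal.mul_mem_left _ _ hfm

theorem sur_mono {I : Ideal (MvPolynomial (Fin n) K)} {L : MvPolynomial (Fin n) K} {k k' : ℕ}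
    (hk : k' ≤ k) (h : Sur I L k' 1) : Sur I L k 1 := by
  induction k, hk using Nat.le_induction with
  | base => exact h
  | succ m _ ih => exact sur_succ ih

theorem sur_upper_of_wlp {A : Matrix (Fin n) (Fin n) K} (hA : Good A) {d : Fin n → ℕ}
    {L : MvPolynomial (Fin n) K} (hL : L.IsHomogeneous 1)
    (h : ∀ k : ℕ, Inj (idl A d) L k ∨ Sur (idl A d) L k 1) (k : ℕ)
    (hk : ∑ i, d i ≤ 2 * k + 1) : Sur (idl A d) L k 1 := by
  rcases h k with h1 | h1
  · by_cases h2 : k + 1 ≤ ∑ i, d i
    · exact sur_mono (k' := ∑ i, d i - k - 1) (by omega)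
        (sur_of_inj hA hL (k' := k) (by omega) h1)
    · intro p hp
      refine ⟨0, isHomogeneous_zero _ _ _, ?_⟩
      rw [mul_zero, sub_zero]
      exact mem_of_top hA hp (by omega)
  · exact h1

theorem wlp_rank_one {A B : Matrix (Fin n) (Fin n) K} (hA : Good A) (hB : Good B)
    (u c : Fin n → K) (h : ∀ i j, B i j = A i j + u i * c j) (d : Fin n → ℕ)
    (hw : ∀ k : ℕ, Inj (idl A d) (lin c) k ∨ Sur (idl A d) (lin c) k 1) (k : ℕ) :
    Inj (idl B d) (lin c) k ∨ Sur (idl B d) (lin c) k 1 := by
  refine maxRank_of_upper hB (fun k hk => ?_) k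
  refine sur_transfer (J := idl A d) (lin_hom' c)
    (idl_rank_one B A (fun i => - u i) c (fun i j => by rw [h]; ring) d) (fun p hp => ?_)
  obtain ⟨f, _, hf⟩ := sur_upper_of_wlp hA (lin_hom' c) hw k hk p hp
  exact ⟨f, hf⟩

/-- Rank one perturbations of diagonal matrices. -/
theorem wlp_diag_rank_one (hM : StmtMono) [CharZero K] {A B : Matrix (Fin n) (Fin n) K}
    (hA : Good A) (u c : Fin n → K) (hc : ∀ i, c i ≠ 0)
    (h : ∀ i j, A i j = B i j + u i * c j) (d : Fin n → ℕ) (hB : idl B d = mono K d) (k : ℕ) :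
    Inj (idl A d) (lin c) k ∨ Sur (idl A d) (lin c) k 1 := by
  refine maxRank_of_upper hA (fun k hk => ?_) k
  refine sur_transfer (J := idl B d) (lin_hom' c)
    (idl_rank_one A B (fun i => - u i) c (fun i j => by rw [h]; ring) d) (fun p hp => ?_)
  obtain ⟨f, hf⟩ := (hM n K c d hc).2.2 (k + 1) p hp (by omega)
  exact ⟨f, by rw [hB]; exact hf⟩

end Pool.Agent.Lib.MP_adb389_ag
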