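import Mathlib

/-! Row dominant matrices have column weights (a fact on nonsingular M-matrices). -/

set_option autoImplicit false

namespace Pool.Agent.Lib.MP_adb389_ag

open Finset

variable {n : ℕ}

theorem mmat_nonneg {M : Matrix (Fin n) (Fin n) ℝ} {x : Fin n → ℝ} (hx : ∀ i, 0 < x i)
    (hoff : ∀ i j, i ≠ j → M i j ≤ 0) (hM : ∀ i, 0 < ∑ j, M i j * x j) {v : Fin n → ℝ}
    (hv : ∀ i, 0 ≤ ∑ j, M i j * v j) (j : Fin n) : 0 ≤ v j := by
  have hne : (Finset.univ : Finset (Fin n)).Nonempty := ⟨j, Finset.mem_univ j⟩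
  obtain ⟨p, _, hp⟩ := Finset.exists_min_image Finset.univ (fun i => v i / x i) hne
  have hp' : ∀ i, v p / x p * x i ≤ v i := by
    intro i
    have := hp i (Finset.mem_univ i)
    rwa [le_div_iff₀ (hx i)] at this
  by_contra hcon
  push Not at hcon
  have hneg : v p / x p < 0 := by
    have h1 := hp j (Finset.mem_univ j)
    exact lt_of_le_of_lt h1 (div_neg_of_neg_of_pos hcon (hx j))
  have h2 : ∑ i, M p i * v i ≤ v p / x p * ∑ i, M p i * x i := by
    rw [Finset.mul_sum]
    refine Finset.sum_le_sum fun i _ => ?_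
    by_cases hi : p = i
    · subst hi
      have := (hx p).ne'
      refine le_of_eq ?_
      field_simp
    · have h3 := mul_le_mul_of_nonpos_left (hp' i) (hoff p i hi)
      linarith
  have h4 := mul_neg_of_neg_of_pos hneg (hM p)
  linarith [hv p]

theorem exists_col_weights {M : Matrix (Fin n) (Fin n) ℝ} {x : Fin n → ℝ} (hx : ∀ i, 0 < x i)
    (hoff : ∀ i j, i ≠ j → M i j ≤ 0) (hM : ∀ i, 0 < ∑ j, M i j * x j) :
    ∃ z : Fin n → ℝ, (∀ i, 0 < z i) ∧ ∀ j, 0 < ∑ i, z i * M i j := by
  have hinj : ∀ v : Fin n → ℝ, (∀ i, ∑ j, M i j * v j = 0) → v = 0 := by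
    intro v hv
    funext j
    refine le_antisymm ?_ (mmat_nonneg hx hoff hM (fun i => (hv i).ge) j)
    have := mmat_nonneg hx hoff hM (v := fun i => - v i) (fun i => by
      have e : ∑ j, M i j * - v j = - ∑ j, M i j * v j := by
        rw [← Finset.sum_neg_distrib]
        exact Finset.sum_congr rfl fun j _ => by ring
      rw [e, hv i, neg_zero]) j
    show v j ≤ 0
    linarith
  have hdet : M.det ≠ 0 := by
    intro h0
    obtain ⟨v, hv, hv2⟩ := Matrix.exists_mulVec_eq_zero_iff.2 h0
    exact hv (hinj v fun i => congrFun hv2 i)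
  have hu : IsUnit M.det := isUnit_iff_ne_zero.2 hdet
  have hcol : ∀ i k, ∑ j, M i j * M⁻¹ j k = if i = k then 1 else 0 := by
    intro i k
    have := congrFun (congrFun (Matrix.mul_nonsing_inv M hu) i) k
    rwa [Matrix.mul_apply, Matrix.one_apply] at this
  have hrow : ∀ i k, ∑ j, M⁻¹ i j * M j k = if i = k then 1 else 0 := by
    intro i k
    have := congrFun (congrFun (Matrix.nonsing_inv_mul M hu) i) k
    rwa [Matrix.mul_apply, Matrix.one_apply] at this
  have hnn : ∀ j k, 0 ≤ M⁻¹ j k := by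
    intro j k
    refine mmat_nonneg hx hoff hM (v := fun j => M⁻¹ j k) (fun i => ?_) j
    rw [hcol]
    split_ifs <;> norm_num
  refine ⟨fun k => ∑ j, M⁻¹ j k, fun k => ?_, fun j => ?_⟩
  · refine lt_of_le_of_ne (Finset.sum_nonneg fun j _ => hnn j k) (fun h0 => ?_)
    have h1 := (Finset.sum_eq_zero_iff_of_nonneg fun j _ => hnn j k).1 h0.symm
    have h2 := hcol k k
    rw [if_pos rfl, Finset.sum_eq_zero fun j _ => by rw [h1 j (Finset.mem_univ j), mul_zero]] at h2
    exact zero_ne_one h2
  · have e : ∑ i, (∑ k, M⁻¹ k i) * M i j = ∑ k, ∑ i, M⁻¹ k i * M i j := by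
      simp only [Finset.sum_mul]
      rw [Finset.sum_comm]
    rw [e]
    simp only [hrow]
    rw [Finset.sum_ite_eq', if_pos (Finset.mem_univ j)]
    exact one_pos

/-- Weighted row dominance implies weighted column dominance. -/
theorem col_of_row {A : Matrix (Fin n) (Fin n) ℝ} {x : Fin n → ℝ} (hx : ∀ i, 0 < x i)
    (h : ∀ i, ∑ j ∈ Finset.univ.erase i, |A i j| * x j < |A i i| * x i) :
    ∃ z : Fin n → ℝ, (∀ i, 0 < z i) ∧
      ∀ j, ∑ i ∈ Finset.univ.erase j, z i * |A i j| < z j * |A j j| := by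
  obtain ⟨z, hz, hz2⟩ := exists_col_weights (M := Matrix.of fun i j =>
    if i = j then |A i j| else -|A i j|) hx (fun i j hij => by
      rw [Matrix.of_apply, if_neg hij]
      exact neg_nonpos.2 (abs_nonneg _)) (fun i => by
      rw [← Finset.add_sum_erase _ _ (Finset.mem_univ i)]
      have e : ∑ j ∈ Finset.univ.erase i, (Matrix.of fun i j =>
          if i = j then |A i j| else -|A i j|) i j * x j =
          - ∑ j ∈ Finset.univ.erase i, |A i j| * x j := by
        rw [← Finset.sum_neg_distrib]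
        refine Finset.sum_congr rfl fun j hj => ?_
        rw [Matrix.of_apply, if_neg (Finset.ne_of_mem_erase hj).symm]
        ring
      rw [e, Matrix.of_apply, if_pos rfl]
      linarith [h i])
  refine ⟨z, hz, fun j => ?_⟩
  have h1 := hz2 j
  rw [← Finset.add_sum_erase _ _ (Finset.mem_univ j)] at h1
  have e : ∑ i ∈ Finset.univ.erase j, z i * (Matrix.of fun i j =>
      if i = j then |A i j| else -|A i j|) i j =
      - ∑ i ∈ Finset.univ.erase j, z i * |A i j| := by
    rw [← Finset.sum_neg_distrib]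
    refine Finset.sum_congr rfl fun i hi => ?_
    rw [Matrix.of_apply, if_neg (Finset.ne_of_mem_erase hi)]
    ring
  rw [e, Matrix.of_apply, if_pos rfl] at h1
  linarith

end Pool.Agent.Lib.MP_adb389_ag
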