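import Pool.Agent.Lib.MP_adb389_ag.Twist
import Pool.Agent.Lib.MP_adb389_ag.RowDom
import Pool.Agent.Lib.MP_adb389_ag.Inv

/-! Descent from the real numbers to subfields. -/

set_option autoImplicit false

namespace Pool.Agent.Lib.MP_adb389_ag

open MvPolynomial Finset

variable {n : ℕ} {K : Type} [Field K]

theorem good_map {F : Type} [Field F] (σ : K →+* F) {A : Matrix (Fin n) (Fin n) K}
    (hA : Good (A.map σ)) : Good A := by
  intro S v hv hv2
  have h := hA S (fun j => σ (v j)) (fun j hj => by rw [hv j hj, map_zero]) (fun i hi => by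
    have := congrArg σ (hv2 i hi)
    rw [map_sum, map_zero] at this
    rw [← this]
    exact Finset.sum_congr rfl fun j _ => by rw [Matrix.map_apply, map_mul])
  funext j
  have h1 := congrFun h j
  simp only [Pi.zero_apply] at h1
  exact (map_eq_zero σ).1 h1

theorem qv_map {F : Type} [Field F] (σ : K →+* F) {A : Matrix (Fin n) (Fin n) K}
    (hA : Good (A.map σ)) {S : Finset (Fin n)} {m : Fin n} (hm : m ∉ S) (j : Fin n) :
    qv (A.map σ) S m j = σ (qv A S m j) := by
  have h := hA S (fun j => qv (A.map σ) S m j - σ (qv A S m j)) (fun j hj => by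
    by_cases hjm : j = m
    · subst hjm
      rw [qv_self, qv_self, map_one, sub_self]
    · rw [qv_off _ S m j hjm hj, qv_off _ S m j hjm hj, map_zero, sub_self]) (fun i hi => by
    have h1 := qv_zero hA hm hi
    have h2 := congrArg σ (qv_zero (good_map σ hA) hm hi)
    rw [map_sum, map_zero] at h2
    simp only [mul_sub, Finset.sum_sub_distrib]
    rw [h1, zero_sub, neg_eq_zero, ← h2]
    exact Finset.sum_congr rfl fun j _ => by rw [Matrix.map_apply, map_mul])
  have h1 := congrFun h j
  simp only [Pi.zero_apply] at h1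
  exact sub_eq_zero.1 h1

theorem phi_map {F : Type} [Field F] (σ : K →+* F) {A : Matrix (Fin n) (Fin n) K}
    (hA : Good (A.map σ)) : ∀ (N : ℕ) (d : Fin n → ℕ), ∑ i, d i = N →
      ∀ g : MvPolynomial (Fin n) K, phi (A.map σ) d (map σ g) = σ (phi A d g) := by
  have hA0 := good_map σ hA
  intro N
  induction N with
  | zero =>
    intro d hd g
    rw [phi_zero _ hd, phi_zero _ hd, coeff_map]
  | succ N ih =>
    intro d hd g
    induction g using MvPolynomial.induction_on with
    | C a =>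
      rw [map_C, phi_hom hA (isHomogeneous_C (Fin n) (σ a)) (by omega),
        phi_hom hA0 (isHomogeneous_C (Fin n) a) (by omega), map_zero]
    | add p q hp hq => simp only [map_add, hp, hq]
    | mul_X p j _ =>
      rw [map_mul, map_X, mul_comm, phi_X_mul' hA, mul_comm p, phi_X_mul' hA0, map_sum]
      refine Finset.sum_congr rfl fun m _ => ?_
      by_cases hm : d m = 0
      · rw [if_pos hm, if_pos hm, map_zero]
      · rw [if_neg hm, if_neg hm, qv_map σ hA (fun h => hm (mem_zs.1 h)),
          ih (low d m) (by have := sum_low hm; omega), map_mul]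

theorem mem_of_map {F : Type} [Field F] (σ : K →+* F) {A : Matrix (Fin n) (Fin n) K}
    (hA : Good (A.map σ)) {d : Fin n → ℕ} {f : MvPolynomial (Fin n) K}
    (hf : map σ f ∈ idl (A.map σ) d) : f ∈ idl A d := by
  rw [mem_idl_iff (good_map σ hA)]
  intro h
  have h1 := phi_idl hA hf (map σ h)
  rw [← map_mul, phi_map σ hA _ d rfl] at h1
  exact (map_eq_zero σ).1 h1

theorem map_mem {F : Type} [Field F] (σ : K →+* F) {A : Matrix (Fin n) (Fin n) K}
    {d : Fin n → ℕ} {f : MvPolynomial (Fin n) K} (hf : f ∈ idl A d) :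
    map σ f ∈ idl (A.map σ) d := by
  have hle : idl A d ≤ (idl (A.map σ) d).comap (map σ) := by
    unfold idl
    rw [Ideal.span_le]
    rintro _ ⟨i, rfl⟩
    show map σ (gen A d i) ∈ idl (A.map σ) d
    have e : map σ (gen A d i) = gen (A.map σ) d i := by
      unfold gen yf
      rw [map_mul, map_pow, map_X, map_sum]
      congr 1
      exact Finset.sum_congr rfl fun j _ => by rw [map_mul, map_C, map_X, Matrix.map_apply]
    rw [e]
    exact Ideal.subset_span ⟨i, rfl⟩
  exact hle hf

theorem map_lin {F : Type} [Field F] (σ : K →+* F) (c : Fin n → K) :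
    map σ (lin c) = lin fun j => σ (c j) := by
  unfold lin
  rw [map_sum]
  exact Finset.sum_congr rfl fun j _ => by rw [map_mul, map_C, map_X]

theorem inj_of_map {F : Type} [Field F] (σ : K →+* F) {A : Matrix (Fin n) (Fin n) K}
    (hA : Good (A.map σ)) {d : Fin n → ℕ} {c : Fin n → K} {s k : ℕ}
    (h : Inj (idl (A.map σ) d) (lin (fun j => σ (c j)) ^ s) k) : Inj (idl A d) (lin c ^ s) k := by
  intro f hf hm
  refine mem_of_map σ hA (h _ (hf.map σ) ?_)
  have h1 := map_mem σ hm
  rwa [map_mul, map_pow, map_lin] at h1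

/-- The strong Lefschetz property descends. -/
theorem slp_descend {F : Type} [Field F] (σ : K →+* F) {A : Matrix (Fin n) (Fin n) K}
    (hA : Good (A.map σ)) {d : Fin n → ℕ} {c : Fin n → K}
    (h : ∀ k : ℕ, 2 * k ≤ ∑ i, d i →
      Inj (idl (A.map σ) d) (lin (fun j => σ (c j)) ^ (∑ i, d i - 2 * k)) k) (k s : ℕ) :
    Inj (idl A d) (lin c ^ s) k ∨ Sur (idl A d) (lin c ^ s) k s :=
  maxRank_of_HL (good_map σ hA) (lin_hom' c) (fun k hk => inj_of_map σ hA (h k hk)) k s

/-- The weak Lefschetz property descends. -/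
theorem wlp_descend {F : Type} [Field F] (σ : K →+* F) {A : Matrix (Fin n) (Fin n) K}
    (hA : Good (A.map σ)) {d : Fin n → ℕ} {c : Fin n → K}
    (h : ∀ k : ℕ, Inj (idl (A.map σ) d) (lin fun j => σ (c j)) k ∨
      Sur (idl (A.map σ) d) (lin fun j => σ (c j)) k 1) (k : ℕ) :
    Inj (idl A d) (lin c) k ∨ Sur (idl A d) (lin c) k 1 := by
  have hinj : ∀ k : ℕ, 2 * k + 1 ≤ ∑ i, d i → Inj (idl A d) (lin c ^ 1) k := by
    intro k hk
    refine inj_of_map σ hA ?_
    rw [pow_one]
    exact inj_of_sur hA (k := ∑ i, d i - k - 1) (s := 1) (by omega)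
      (sur_upper_of_wlp hA (lin_hom' _) h _ (by omega))
  by_cases h1 : 2 * k + 1 ≤ ∑ i, d i
  · left
    have := hinj k h1
    rwa [pow_one] at this
  · right
    by_cases h2 : k + 1 ≤ ∑ i, d i
    · have := sur_of_inj (good_map σ hA) (g := lin c ^ 1) (by rw [pow_one]; exact lin_hom' c)
        (k := k) (s := 1) (k' := ∑ i, d i - k - 1) (by omega) (hinj _ (by omega))
      rwa [pow_one] at this
    · intro p hp
      refine ⟨0, isHomogeneous_zero _ _ _, ?_⟩
      rw [mul_zero, sub_zero]
      exact mem_of_top (good_map σ hA) hp (by omega)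

/-- Rational weights. -/
theorem exists_rat_weights {A : Matrix (Fin n) (Fin n) ℝ} {z : Fin n → ℝ} (hz : ∀ i, 0 < z i)
    (h : ∀ j, ∑ i ∈ Finset.univ.erase j, z i * |A i j| < z j * |A j j|) :
    ∃ q : Fin n → ℚ, (∀ i, 0 < (q i : ℝ)) ∧
      ∀ j, ∑ i ∈ Finset.univ.erase j, (q i : ℝ) * |A i j| < (q j : ℝ) * |A j j| := by
  have hopen : IsOpen {z : Fin n → ℝ | (∀ i, 0 < z i) ∧
      ∀ j, ∑ i ∈ Finset.univ.erase j, z i * |A i j| < z j * |A j j|} := by
    have e : {z : Fin n → ℝ | (∀ i, 0 < z i) ∧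
        ∀ j, ∑ i ∈ Finset.univ.erase j, z i * |A i j| < z j * |A j j|} =
        (⋂ i, {z : Fin n → ℝ | 0 < z i}) ∩ ⋂ j, {z : Fin n → ℝ |
          ∑ i ∈ Finset.univ.erase j, z i * |A i j| < z j * |A j j|} := by
      ext z
      simp
    rw [e]
    refine IsOpen.inter (isOpen_iInter_of_finite fun i => ?_)
      (isOpen_iInter_of_finite fun j => ?_)
    · exact isOpen_lt continuous_const (continuous_apply i)
    · exact isOpen_lt (by fun_prop) (by fun_prop)
  have hd : DenseRange (Pi.map fun (_ : Fin n) (q : ℚ) => (q : ℝ)) :=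
    DenseRange.piMap fun _ => Rat.denseRange_cast
  obtain ⟨q, hq⟩ := hd.exists_mem_open hopen ⟨z, hz, h⟩
  exact ⟨q, hq.1, hq.2⟩

end Pool.Agent.Lib.MP_adb389_ag
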