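import Pool.Agent.Lib.MP_adb389_ag.Dual

/-! Statements of the independent modules of MP_adb389_ag (Theorem H: strong Lefschetz property for
real H-matrices). Every module `X.lean` imports this file and proves `theorem tX : StmtX`. -/

set_option autoImplicit false

namespace Pool.Agent.Lib.MP_adb389_ag

open MvPolynomial Finset

/-- The monomial ideal `(x_i ^ (d_i + 1))`. -/
noncomputable def mono {n : ℕ} (K : Type) [Field K] (d : Fin n → ℕ) :
    Ideal (MvPolynomial (Fin n) K) :=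
  Ideal.span (Set.range fun i => X i ^ (d i + 1))

/-- The linear form `∑ c_i x_i`. -/
noncomputable def lin {n : ℕ} {K : Type} [Field K] (c : Fin n → K) : MvPolynomial (Fin n) K :=
  ∑ i, C (c i) * X i

/-- The lowering operator `F = ∑ c_i⁻¹ (d_i ∂_i - x_i ∂_i ^ 2)`. -/
noncomputable def lowOp {n : ℕ} {K : Type} [Field K] (c : Fin n → K) (d : Fin n → ℕ)
    (f : MvPolynomial (Fin n) K) : MvPolynomial (Fin n) K :=
  ∑ i, C (c i)⁻¹ * (C (d i : K) * pderiv i f - X i * pderiv i (pderiv i f))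

/-- The exponent vector `d`. -/
noncomputable def dF {n : ℕ} (d : Fin n → ℕ) : Fin n →₀ ℕ := Finsupp.equivFunOnFinite.symm d

/-- MODULE Path. A continuous path of nondegenerate symmetric matrices on `[0,1]` that starts with a
positive definite one ends with a positive definite one.
PROOF. Let `m(t)` be the minimum of `uᵀ H(t) u` on the unit sphere (compact). It is continuous on
`[0,1]`, because `|uᵀ (H(t) - H(s)) u| ≤ ∑ |H(t)_ij - H(s)_ij|` for unit vectors. `m(0) > 0`. If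
`m(1) ≤ 0`, the intermediate value theorem gives `t` with `m(t) = 0`; a unit vector `u` at which the
minimum is attained satisfies `H(t) u = 0` (`H(t)` is positive semidefinite and `uᵀ H(t) u = 0`),
against nondegeneracy. (Empty index type: trivial.) The file
`Pool/Agent/GallaiRamsey/LogDet.lean` has a lemma `sphere_min` that may be copied. -/
def StmtPath : Prop := ∀ (m : ℕ) (H : ℝ → Matrix (Fin m) (Fin m) ℝ),
  (∀ i j, ContinuousOn (fun t => H t i j) (Set.Icc 0 1)) →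
  (∀ t ∈ Set.Icc (0 : ℝ) 1, ∀ i j, H t i j = H t j i) →
  (∀ t ∈ Set.Icc (0 : ℝ) 1, ∀ u : Fin m → ℝ, (∀ i, ∑ j, H t i j * u j = 0) → u = 0) →
  (∀ u : Fin m → ℝ, u ≠ 0 → 0 < ∑ i, ∑ j, H 0 i j * (u i * u j)) →
  ∀ u : Fin m → ℝ, u ≠ 0 → 0 < ∑ i, ∑ j, H 1 i j * (u i * u j)

/-- MODULE PathKer. The version on the kernels of a continuous family of surjective matrices.
`M(t)` surjective means that its transpose is injective (`hsurj`). Nondegeneracy (`hnd`): if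
`u ∈ ker M(t)` and `G(t) u` is of the form `M(t)ᵀ l` then `u = 0`.
PROOF (from `StmtPath`). `N(t) = M(t) M(t)ᵀ` is invertible (`N l = 0` gives `|Mᵀ l|² = 0`, `l = 0`),
`P(t) = 1 - Mᵀ N⁻¹ M` is symmetric, `P P = P`, `M P = 0`, `P u = u` on `ker M`, and continuous on
`[0,1]` (`N⁻¹ = (det N)⁻¹ • adjugate N`). Put `H(t) = P G P + (1 - P)`: symmetric and continuous; if
`H u = 0` then applying `P` gives `P G P u = 0`, hence `(1 - P) u = 0`, `u = P u ∈ ker M`, and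
`P G u = 0` says `G u = Mᵀ (N⁻¹ M G u)`, so `u = 0` by `hnd`. `uᵀ H(0) u = (P u)ᵀ G(0) (P u) +
|(1 - P) u|² > 0` for `u ≠ 0`. By `StmtPath` `H(1)` is positive definite, and `uᵀ H(1) u =
uᵀ G(1) u` for `u ∈ ker M(1)`. -/
def StmtPathKer : Prop := ∀ (m r : ℕ) (G : ℝ → Matrix (Fin m) (Fin m) ℝ)
    (M : ℝ → Matrix (Fin r) (Fin m) ℝ),
  (∀ i j, ContinuousOn (fun t => G t i j) (Set.Icc 0 1)) →
  (∀ i j, ContinuousOn (fun t => M t i j) (Set.Icc 0 1)) →
  (∀ t ∈ Set.Icc (0 : ℝ) 1, ∀ i j, G t i j = G t j i) →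
  (∀ t ∈ Set.Icc (0 : ℝ) 1, ∀ l : Fin r → ℝ, (∀ i, ∑ k, M t k i * l k = 0) → l = 0) →
  (∀ t ∈ Set.Icc (0 : ℝ) 1, ∀ u : Fin m → ℝ, (∀ k, ∑ i, M t k i * u i = 0) →
    (∃ l : Fin r → ℝ, ∀ i, ∑ j, G t i j * u j = ∑ k, M t k i * l k) → u = 0) →
  (∀ u : Fin m → ℝ, u ≠ 0 → (∀ k, ∑ i, M 0 k i * u i = 0) →
    0 < ∑ i, ∑ j, G 0 i j * (u i * u j)) →
  ∀ u : Fin m → ℝ, u ≠ 0 → (∀ k, ∑ i, M 1 k i * u i = 0) →
    0 < ∑ i, ∑ j, G 1 i j * (u i * u j)

/-- MODULE Mono. The `sl_2` calculus of the monomial complete intersection `J = (x_i^(d_i+1))`, with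
`l = ∑ c_i x_i`, all `c_i ≠ 0`, `D = ∑ d_i`, `K` of characteristic zero.
PROOF. (1) `F (l f) = l (F f) + (D - 2k) f` for `f` homogeneous of degree `k` (derivations, Euler's
identity `∑ x_i ∂_i f = k f`); hence `F (l^j f) = l^j F f + c_j l^(j-1) f` with
`c_j = ∑_(i<j) (D - 2(k+i)) = j (D - 2k - j + 1)`, and `F^j (l f) = l F^j f + C_j F^(j-1) f` for `f`
homogeneous of degree `k+j-1`, `C_j = ∑_(i<j) (D - 2(k+i))` (`F` lowers the degree by one).
(2) `F J ⊆ J`: on `x_i^(d_i+1) g` the coefficient of `x_i^(d_i) g` is `d_i (d_i+1) - (d_i+1) d_i = 0`,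
the operators `∂_j`, `j ≠ i`, commute with `x_i`.
(3) First two claims by induction on `k`: let `f` be homogeneous of degree `k`, `m = D - 2k ≥ 0`,
`l^(m+1) f ∈ J`. Then `l^(m+2) F f = F (l^(m+2) f) - c l^(m+1) f ∈ J` and `F f` has degree `k-1`, so
`F f ∈ J` by the first claim for `k-1` (`F f = 0` if `k = 0`). If even `l^m f ∈ J` then, since
`F (l^j f) = l^j F f + c_j l^(j-1) f` and `c_j ≠ 0` for `1 ≤ j ≤ m`, `l^j f ∈ J` gives
`l^(j-1) f ∈ J`; so `f ∈ J`.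
(4) Third claim: let `2k > D`. For all `j` and all `h` homogeneous of degree `k+j` one has
`F^j h ∈ J + (l)`: downward induction on `j`; if `k+j > D` then `h ∈ J` (pigeonhole) and `F^j h ∈ J`;
and if it holds for `j` then for `h` of degree `k+j-1`: `C_j F^(j-1) h = F^j (l h) - l F^j h` and
`C_j ≠ 0` (all summands negative). `j = 0` is the claim. -/
def StmtMono : Prop := ∀ (n : ℕ) (K : Type) [Field K] [CharZero K] (c : Fin n → K)
    (d : Fin n → ℕ), (∀ i, c i ≠ 0) →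
  (∀ (k : ℕ) (f : MvPolynomial (Fin n) K), f.IsHomogeneous k → 2 * k ≤ ∑ i, d i →
    lin c ^ (∑ i, d i - 2 * k) * f ∈ mono K d → f ∈ mono K d) ∧
  (∀ (k : ℕ) (f : MvPolynomial (Fin n) K), f.IsHomogeneous k → 2 * k ≤ ∑ i, d i →
    lin c ^ (∑ i, d i - 2 * k + 1) * f ∈ mono K d → lowOp c d f ∈ mono K d) ∧
  (∀ (k : ℕ) (g : MvPolynomial (Fin n) K), g.IsHomogeneous k → ∑ i, d i < 2 * k →
    ∃ h, g - lin c * h ∈ mono K d)

/-- MODULE MonoHR. Hodge-Riemann relations of the monomial complete intersection, given that the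
lowering operator kills `f` (module Mono provides this for primitive `f`).
PROOF. Let `m = D - 2k`, `f = ∑ f_a x^a` (`|a| = k`), only `a ≤ d` matters (terms with some
`a_i > d_i` lie in `J = mono ℝ d`, do not contribute to the coefficient of `x^d`, and `F J ⊆ J`, so one
may assume that `f` is supported on `a ≤ d`). Put `P_a = f_a a! / c^a` for `a ≤ d`, `P_a = 0`
otherwise. `F f ∈ J` says: for every `a ≤ d`, `|a| = k-1`:
`∑_i c_i⁻¹ (a_i+1) (d_i-a_i) f_(a+e_i) = 0`, i.e. `∑_i (d_i-a_i) P_(a+e_i) = 0`. (*)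
For `u ≤ d` let `T_u = ∑_(a ≥ u, |a| = k) (∏ C(d_i-u_i, a_i-u_i)) P_a`. Then
`(k-|u|) T_u = ∑_i (d_i-u_i) T_(u+e_i)` (because `(d-u) C(d-u-1,a-u-1) = (a-u) C(d-u,a-u)`), so
`T_u = 0` for `|u| = k-1` by (*) and then for all `|u| < k` by downward induction. For `|b| = k`,
`b ≤ d`: `∑_a (∏ C(d_i-b_i, a_i)) P_a = ∑_(u ≤ b) (-1)^|u| (∏ C(b_i,u_i)) T_u = (-1)^k P_b`
(inclusion-exclusion `C(d-b,a) = ∑_u (-1)^u C(b,u) C(d-u,a-u)`). Finally the coefficient of `x^d` in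
`l^m f^2` is `∑_(a,b) f_a f_b m! ∏ c_i^(d_i-a_i-b_i)/(d_i-a_i-b_i)!` (terms with `a+b ≤ d`) `=
m! (c^d/d!) ∑_b P_b (d!/(b!(d-b)!)) ∑_a (∏ C(d_i-b_i,a_i)) P_a · (1/...)`, precisely
`f_a f_b c^(d-a-b)/(d-a-b)! = c^d P_a P_b /(a! b! (d-a-b)!) = (c^d/d!) P_a P_b ∏ C(d_i,b_i) ∏ C(d_i-b_i,a_i)`,
so it equals `(-1)^k m! (c^d/d!) ∑_b (∏ C(d_i,b_i)) P_b^2`. -/
def StmtMonoHR : Prop := ∀ (n : ℕ) (c : Fin n → ℝ) (d : Fin n → ℕ) (k : ℕ)
    (f : MvPolynomial (Fin n) ℝ), (∀ i, 0 < c i) → f.IsHomogeneous k → 2 * k ≤ ∑ i, d i →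
  lowOp c d f ∈ mono ℝ d →
  0 ≤ (-1) ^ k * coeff (dF d) (lin c ^ (∑ i, d i - 2 * k) * (f * f)) ∧
    (coeff (dF d) (lin c ^ (∑ i, d i - 2 * k) * (f * f)) = 0 → f ∈ mono ℝ d)

end Pool.Agent.Lib.MP_adb389_ag
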