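import Pool.Agent.Lib.MP_adb389_ag.Box
import Pool.Agent.Lib.MP_adb389_ag.Spec

/-! Duality: surjectivity and injectivity of multiplication maps, over any field. -/

set_option autoImplicit false

namespace Pool.Agent.Lib.MP_adb389_ag

open MvPolynomial Finset

variable {n : ℕ} {K : Type} [Field K]

/-- Injectivity of `g : B_k → B_(k+s)`. -/
def Inj (I : Ideal (MvPolynomial (Fin n) K)) (g : MvPolynomial (Fin n) K) (k : ℕ) : Prop :=
  ∀ f : MvPolynomial (Fin n) K, f.IsHomogeneous k → g * f ∈ I → f ∈ I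

/-- Surjectivity of `g : B_k → B_(k+s)`. -/
def Sur (I : Ideal (MvPolynomial (Fin n) K)) (g : MvPolynomial (Fin n) K) (k s : ℕ) : Prop :=
  ∀ h : MvPolynomial (Fin n) K, h.IsHomogeneous (k + s) →
    ∃ f : MvPolynomial (Fin n) K, f.IsHomogeneous k ∧ h - g * f ∈ I

theorem lin_hom' (c : Fin n → K) : (lin c).IsHomogeneous 1 := by
  unfold lin
  refine IsHomogeneous.sum _ _ _ fun j _ => ?_
  have := (isHomogeneous_C (Fin n) (c j)).mul (isHomogeneous_X K j)
  simpa using this

/-- membership in the ideal is tested on the complementary degree -/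
theorem mem_of_pair {A : Matrix (Fin n) (Fin n) K} (hA : Good A) {d : Fin n → ℕ} {k s : ℕ}
    {g : MvPolynomial (Fin n) K} (hg : g.IsHomogeneous s) (hs : s + k = ∑ i, d i)
    (h : ∀ p : MvPolynomial (Fin n) K, p.IsHomogeneous k → phi A d (g * p) = 0) :
    g ∈ idl A d := by
  rw [mem_idl_iff hA]
  intro p
  rw [← sum_homogeneousComponent p, Finset.mul_sum, map_sum]
  refine Finset.sum_eq_zero fun j _ => ?_
  by_cases hj : j = k
  · subst hj
    exact h _ (homogeneousComponent_isHomogeneous j p)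
  · exact phi_hom hA (hg.mul (homogeneousComponent_isHomogeneous j p)) (by omega)

theorem mem_of_top {A : Matrix (Fin n) (Fin n) K} (hA : Good A) {d : Fin n → ℕ} {s : ℕ}
    {g : MvPolynomial (Fin n) K} (hg : g.IsHomogeneous s) (hs : ∑ i, d i < s) :
    g ∈ idl A d := by
  rw [mem_idl_iff hA]
  intro p
  rw [← sum_homogeneousComponent p, Finset.mul_sum, map_sum]
  refine Finset.sum_eq_zero fun j _ => ?_
  exact phi_hom hA (hg.mul (homogeneousComponent_isHomogeneous j p)) (by omega)

theorem inj_of_sur {A : Matrix (Fin n) (Fin n) K} (hA : Good A) {d : Fin n → ℕ} {k k' s : ℕ}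
    {g : MvPolynomial (Fin n) K} (hs : k + s + k' = ∑ i, d i)
    (h : Sur (idl A d) g k s) : Inj (idl A d) g k' := by
  intro f hf hgf
  refine mem_of_pair hA hf (k := k + s) (by omega) (fun p hp => ?_)
  obtain ⟨q, _, hq⟩ := h p hp
  have e : f * p = (p - g * q) * f + (g * f) * q := by ring
  rw [e, map_add, phi_idl hA hq, phi_idl hA hgf, add_zero]

theorem exists_rep {m r : ℕ} (Q : Fin m → Fin r → K)
    (h : ∀ v : Fin r → K, (∀ i, ∑ j, Q i j * v j = 0) → v = 0) (t : Fin r → K) :
    ∃ u : Fin m → K, ∀ j, ∑ i, u i * Q i j = t j := by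
  obtain ⟨T, hT⟩ : ∃ T : (Fin r → K) →ₗ[K] (Fin m → K), ∀ v i, T v i = ∑ j, Q i j * v j := by
    refine ⟨(Matrix.of Q).mulVecLin, fun v i => ?_⟩
    simp [Matrix.mulVec, dotProduct]
  have hker : LinearMap.ker T = ⊥ := by
    rw [LinearMap.ker_eq_bot']
    intro v hv
    refine h v fun i => ?_
    rw [← hT, hv]
    rfl
  obtain ⟨T', hT'⟩ := LinearMap.exists_leftInverse_of_injective T hker
  obtain ⟨τ, hτ⟩ : ∃ τ : (Fin r → K) →ₗ[K] K, ∀ v, τ v = ∑ j, t j * v j := by
    refine ⟨∑ j, t j • LinearMap.proj j, fun v => ?_⟩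
    simp
  refine ⟨fun i => τ (T' (Pi.single i 1)), fun j => ?_⟩
  have h1 : T (Pi.single j 1) = ∑ i, Q i j • (Pi.single i 1 : Fin m → K) := by
    funext i
    rw [hT]
    simp [Finset.sum_apply, Pi.single_apply]
  have h2 : T' (T (Pi.single j 1)) = Pi.single j 1 := by
    have := LinearMap.congr_fun hT' (Pi.single j 1)
    simpa using this
  have h3 : τ (T' (T (Pi.single j 1))) = t j := by
    rw [h2, hτ]
    simp [Pi.single_apply]
  rw [h1] at h3
  simp only [map_sum, map_smul, smul_eq_mul] at h3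
  rw [← h3]
  exact Finset.sum_congr rfl fun i _ => mul_comm _ _

theorem sur_of_inj {A : Matrix (Fin n) (Fin n) K} (hA : Good A) {d : Fin n → ℕ} {k k' s : ℕ}
    {g : MvPolynomial (Fin n) K} (hg : g.IsHomogeneous s) (hs : k + s + k' = ∑ i, d i)
    (h : Inj (idl A d) g k') : Sur (idl A d) g k s := by
  obtain ⟨m, b, hb, hB⟩ := exists_basis (K := K) _ d rfl k
  obtain ⟨r, b', hb', hB'⟩ := exists_basis (K := K) _ d rfl k'
  have hsm : ∀ {e q : ℕ} {a : Fin q → MvPolynomial (Fin n) K} (_ : ∀ i, (a i).IsHomogeneous e)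
      (u : Fin q → K), (∑ i, u i • a i).IsHomogeneous e := fun ha u =>
    IsHomogeneous.sum _ _ _ fun j _ => (homogeneousSubmodule (Fin n) K _).smul_mem _ (ha j)
  intro p hp
  have hQ : ∀ v : Fin r → K, (∀ i, ∑ j, phi A d (g * b i * b' j) * v j = 0) → v = 0 := by
    intro v hv
    refine (hB' A hA).2 v (h _ (hsm hb' v) ?_)
    refine mem_of_pair hA (hg.mul (hsm hb' v)) (k := k) (by omega) (fun f hf => ?_)
    obtain ⟨u, hu⟩ := (hB A hA).1 f hf
    have e : g * (∑ i, v i • b' i) * f = (f - ∑ i, u i • b i) * (g * ∑ i, v i • b' i) +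
        ∑ i, u i • (∑ j, v j • (g * b i * b' j)) := by
      have e1 : ∑ i, u i • (∑ j, v j • (g * b i * b' j)) =
          (∑ i, u i • b i) * (g * ∑ i, v i • b' i) := by
        rw [Finset.sum_mul]
        refine Finset.sum_congr rfl fun i _ => ?_
        have e2 : ∑ j, v j • (g * b i * b' j) = g * b i * ∑ j, v j • b' j := by
          rw [Finset.mul_sum]
          exact Finset.sum_congr rfl fun j _ => (mul_smul_comm _ _ _).symm
        rw [e2, smul_mul_assoc]
        congr 1
        ring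
      rw [e1]; ring
    rw [e, map_add, phi_idl hA hu, zero_add, map_sum]
    refine Finset.sum_eq_zero fun i _ => ?_
    rw [map_smul, map_sum]
    have e3 : ∑ j, phi A d (v j • (g * b i * b' j)) = 0 := by
      refine Eq.trans (Finset.sum_congr rfl fun j _ => ?_) (hv i)
      rw [map_smul, smul_eq_mul, mul_comm]
    rw [e3, smul_zero]
  obtain ⟨u, hu⟩ := exists_rep (fun i j => phi A d (g * b i * b' j)) hQ
    (fun j => phi A d (p * b' j))
  refine ⟨∑ i, u i • b i, hsm hb u, ?_⟩
  have hhom : (p - g * ∑ i, u i • b i).IsHomogeneous (k + s) := by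
    refine hp.sub ?_
    have := hg.mul (hsm hb u)
    rwa [add_comm] at this
  refine mem_of_pair hA hhom (k := k') (by omega) (fun f hf => ?_)
  obtain ⟨v, hv⟩ := (hB' A hA).1 f hf
  have key : ∀ j, phi A d ((p - g * ∑ i, u i • b i) * b' j) = 0 := by
    intro j
    have e : (p - g * ∑ i, u i • b i) * b' j = p * b' j - ∑ i, u i • (g * b i * b' j) := by
      have e1 : ∑ i, u i • (g * b i * b' j) = (g * ∑ i, u i • b i) * b' j := by
        rw [Finset.mul_sum, Finset.sum_mul]
        refine Finset.sum_congr rfl fun i _ => ?_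
        rw [mul_smul_comm, smul_mul_assoc]
      rw [e1]; ring
    rw [e, map_sub, map_sum, ← hu j, sub_eq_zero]
    refine Finset.sum_congr rfl fun i _ => ?_
    rw [map_smul, smul_eq_mul]
  have e : (p - g * ∑ i, u i • b i) * f = (f - ∑ j, v j • b' j) * (p - g * ∑ i, u i • b i) +
      ∑ j, v j • ((p - g * ∑ i, u i • b i) * b' j) := by
    have e1 : ∑ j, v j • ((p - g * ∑ i, u i • b i) * b' j) =
        (p - g * ∑ i, u i • b i) * ∑ j, v j • b' j := by
      generalize p - g * ∑ i, u i • b i = P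
      rw [Finset.mul_sum]
      exact Finset.sum_congr rfl fun j _ => (mul_smul_comm _ _ _).symm
    rw [e1]; ring
  rw [e, map_add, phi_idl hA hv, zero_add, map_sum]
  refine Finset.sum_eq_zero fun j _ => ?_
  rw [map_smul, key j, smul_zero]

/-- From the hard Lefschetz property to the maximal rank of all powers. -/
theorem maxRank_of_HL {A : Matrix (Fin n) (Fin n) K} (hA : Good A) {d : Fin n → ℕ}
    {L : MvPolynomial (Fin n) K} (hL : L.IsHomogeneous 1)
    (h : ∀ k : ℕ, 2 * k ≤ ∑ i, d i → Inj (idl A d) (L ^ (∑ i, d i - 2 * k)) k) (k s : ℕ) :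
    Inj (idl A d) (L ^ s) k ∨ Sur (idl A d) (L ^ s) k s := by
  have hinj : ∀ k : ℕ, 2 * k + s ≤ ∑ i, d i → Inj (idl A d) (L ^ s) k := by
    intro k hk f hf hm
    refine h k (by omega) f hf ?_
    have e : ∑ i, d i - 2 * k = (∑ i, d i - 2 * k - s) + s := by omega
    rw [e, pow_add, mul_assoc]
    exact Ideal.mul_mem_left _ _ hm
  have hLs : (L ^ s).IsHomogeneous s := by
    have := hL.pow s
    rwa [one_mul] at this
  by_cases h1 : 2 * k + s ≤ ∑ i, d i
  · exact Or.inl (hinj k h1)
  · right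
    by_cases h2 : k + s ≤ ∑ i, d i
    · exact sur_of_inj hA hLs (k' := ∑ i, d i - (k + s)) (by omega) (hinj _ (by omega))
    · intro p hp
      refine ⟨0, isHomogeneous_zero _ _ _, ?_⟩
      rw [mul_zero, sub_zero]
      exact mem_of_top hA hp (by omega)

/-- Surjectivity in the upper half only depends on the ideal modulo the linear form. -/
theorem sur_transfer {A : Matrix (Fin n) (Fin n) K} {d : Fin n → ℕ}
    {J : Ideal (MvPolynomial (Fin n) K)} {L : MvPolynomial (Fin n) K} (hL : L.IsHomogeneous 1)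
    (hJ : J ≤ idl A d ⊔ Ideal.span {L}) {k : ℕ}
    (h : ∀ p : MvPolynomial (Fin n) K, p.IsHomogeneous (k + 1) → ∃ f, p - L * f ∈ J) :
    Sur (idl A d) L k 1 := by
  intro p hp
  obtain ⟨f, hf⟩ := h p hp
  obtain ⟨a, ha, r, hr, har⟩ := Submodule.mem_sup.1 (hJ hf)
  obtain ⟨q, hq⟩ := Ideal.mem_span_singleton.1 hr
  refine ⟨homogeneousComponent k (f + q), homogeneousComponent_isHomogeneous _ _, ?_⟩
  have e : a = p - L * (f + q) := by
    have : a + L * q = p - L * f := by rw [← hq]; exact har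
    linear_combination this
  have h1 := hc_mem ha (1 + k)
  rw [e, map_sub, hc_mul hL, homogeneousComponent_eq_self (by rwa [add_comm])] at h1
  exact h1

/-- The weak Lefschetz property from surjectivity in the upper half. -/
theorem maxRank_of_upper {A : Matrix (Fin n) (Fin n) K} (hA : Good A) {d : Fin n → ℕ}
    {L : MvPolynomial (Fin n) K}
    (h : ∀ k : ℕ, ∑ i, d i ≤ 2 * k + 1 → Sur (idl A d) L k 1) (k : ℕ) :
    Inj (idl A d) L k ∨ Sur (idl A d) L k 1 := by
  by_cases h1 : ∑ i, d i ≤ 2 * k + 1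
  · exact Or.inr (h k h1)
  · left
    exact inj_of_sur hA (k := ∑ i, d i - k - 1) (by omega) (h _ (by omega))

/-- Adding a rank one matrix with the coefficients of the linear form. -/
theorem idl_rank_one (A B : Matrix (Fin n) (Fin n) K) (u c : Fin n → K)
    (h : ∀ i j, B i j = A i j + u i * c j) (d : Fin n → ℕ) :
    idl B d ≤ idl A d ⊔ Ideal.span {lin c} := by
  have hy : ∀ i, yf B i = yf A i + C (u i) * lin c := by
    intro i
    unfold yf lin
    rw [Finset.mul_sum, ← Finset.sum_add_distrib]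
    refine Finset.sum_congr rfl fun j _ => ?_
    rw [h, C_add, C_mul]; ring
  unfold idl
  rw [Ideal.span_le]
  rintro _ ⟨i, rfl⟩
  have e : gen B d i = gen A d i + X i ^ d i * C (u i) * lin c := by
    unfold gen
    rw [hy]; ring
  show gen B d i ∈ _
  rw [e]
  refine Ideal.add_mem _ (Ideal.mem_sup_left (Ideal.subset_span ⟨i, rfl⟩))
    (Ideal.mem_sup_right (Ideal.mul_mem_left _ _ (Ideal.mem_span_singleton_self _)))

end Pool.Agent.Lib.MP_adb389_ag
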