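import Pool.Agent.Lib.MP_adb389_ag.Cont

/-! Hodge-Riemann relations and the hard Lefschetz property for weighted column dominant
matrices. -/

set_option autoImplicit false

namespace Pool.Agent.Lib.MP_adb389_ag

open MvPolynomial Finset

variable {n : ℕ}

section pairing

variable {K : Type} [Field K]

/-- membership in the ideal is tested on a basis of the complementary degree -/
theorem mem_of_basis {A : Matrix (Fin n) (Fin n) K} (hA : Good A) {d : Fin n → ℕ} {k m s : ℕ}
    {b : Fin m → MvPolynomial (Fin n) K}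
    (hspan : ∀ f : MvPolynomial (Fin n) K, f.IsHomogeneous k →
      ∃ u : Fin m → K, f - ∑ i, u i • b i ∈ idl A d)
    {g : MvPolynomial (Fin n) K} (hg : g.IsHomogeneous s) (hs : s + k = ∑ i, d i)
    (h : ∀ i, phi A d (g * b i) = 0) : g ∈ idl A d := by
  rw [mem_idl_iff hA]
  intro p
  rw [← sum_homogeneousComponent p, Finset.mul_sum, map_sum]
  refine Finset.sum_eq_zero fun j _ => ?_
  by_cases hj : j = k
  · subst hj
    obtain ⟨u, hu⟩ := hspan _ (homogeneousComponent_isHomogeneous j p)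
    have e : g * homogeneousComponent j p = (homogeneousComponent j p - ∑ i, u i • b i) * g +
        ∑ i, u i • (g * b i) := by
      have : ∑ i, u i • (g * b i) = g * ∑ i, u i • b i := by
        rw [Finset.mul_sum]
        exact Finset.sum_congr rfl fun i _ => (mul_smul_comm _ _ _).symm
      rw [this]; ring
    rw [e, map_add, phi_idl hA hu, zero_add, map_sum]
    exact Finset.sum_eq_zero fun i _ => by rw [map_smul, h i, smul_zero]
  · exact phi_hom hA (hg.mul (homogeneousComponent_isHomogeneous j p)) (by omega)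

end pairing

theorem sum_smul_hom {K : Type} [Field K] {k m : ℕ} {b : Fin m → MvPolynomial (Fin n) K}
    (hb : ∀ i, (b i).IsHomogeneous k) (u : Fin m → K) : (∑ i, u i • b i).IsHomogeneous k :=
  IsHomogeneous.sum _ _ _ fun j _ => (homogeneousSubmodule (Fin n) K k).smul_mem _ (hb j)

/-- the diagonal matrix: ideal -/
theorem idl_diag {K : Type} [Field K] {A : Matrix (Fin n) (Fin n) K} (h0 : ∀ i j, i ≠ j → A i j = 0)
    (h1 : ∀ i, A i i ≠ 0) (d : Fin n → ℕ) : idl A d = mono K d := by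
  have hy : ∀ i, yf A i = C (A i i) * X i := by
    intro i
    unfold yf
    rw [Finset.sum_eq_single i]
    · intro j _ hj
      rw [h0 i j (Ne.symm hj), C_0, zero_mul]
    · intro h; exact absurd (Finset.mem_univ i) h
  have hg : ∀ i, gen A d i = C (A i i) * X i ^ (d i + 1) := by
    intro i
    unfold gen
    rw [hy, pow_succ]; ring
  apply le_antisymm
  · unfold idl
    rw [Ideal.span_le]
    rintro _ ⟨i, rfl⟩
    rw [hg]
    exact Ideal.mul_mem_left _ _ (Ideal.subset_span ⟨i, rfl⟩)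
  · unfold mono
    rw [Ideal.span_le]
    rintro _ ⟨i, rfl⟩
    have e : (X i ^ (d i + 1) : MvPolynomial (Fin n) K) = C (A i i)⁻¹ * gen A d i := by
      rw [hg, ← mul_assoc, ← C_mul, inv_mul_cancel₀ (h1 i), C_1, one_mul]
    show X i ^ (d i + 1) ∈ idl A d
    rw [e]
    exact Ideal.mul_mem_left _ _ (Ideal.subset_span ⟨i, rfl⟩)

/-- the diagonal matrix: functional -/
theorem phi_diag {A : Matrix (Fin n) (Fin n) ℝ} (hA : Good A) (h0 : ∀ i j, i ≠ j → A i j = 0)
    (h1 : ∀ i, A i i ≠ 0) : ∀ (N : ℕ) (d : Fin n → ℕ), ∑ i, d i = N →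
      phi A d = lcoeff ℝ (dF d) := by
  have hy : ∀ i, yf A i = C (A i i) * X i := by
    intro i
    unfold yf
    rw [Finset.sum_eq_single i]
    · intro j _ hj
      rw [h0 i j (Ne.symm hj), C_0, zero_mul]
    · intro h; exact absurd (Finset.mem_univ i) h
  intro N
  induction N with
  | zero =>
    intro d hd
    have hz : d = 0 := by
      funext j
      exact (Finset.sum_eq_zero_iff.1 hd) j (Finset.mem_univ j)
    refine LinearMap.ext fun g => ?_
    rw [phi_zero A hd, lcoeff_apply, hz]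
    have e : dF (0 : Fin n → ℕ) = 0 := by
      ext i
      simp [dF]
    rw [e]
  | succ N ih =>
    intro d hd
    refine functional_ext ?_ (fun j g => ?_)
    · rw [phi_hom hA (isHomogeneous_one (Fin n) ℝ) (by omega), lcoeff_apply, coeff_one, if_neg]
      intro h
      have : d = 0 := by
        funext j
        have := DFunLike.congr_fun h j
        simpa [dF] using this.symm
      rw [this] at hd
      simp at hd
    · rw [lcoeff_apply, coeff_X_mul']
      by_cases hj : d j = 0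
      · have h2 : j ∉ (dF d).support := by
          rw [Finsupp.notMem_support_iff]
          exact hj
        rw [if_neg h2]
        have h3 := phi_yf_mul hA hj g
        rw [hy, mul_assoc, ← smul_eq_C_mul, map_smul, smul_eq_mul] at h3
        exact (mul_eq_zero.1 h3).resolve_left (h1 j)
      · have h2 : j ∈ (dF d).support := by
          rw [Finsupp.mem_support_iff]
          exact hj
        rw [if_pos h2, phi_X_mul hA hj, ih (low d j) (by have := sum_low hj; omega), lcoeff_apply]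
        congr 1
        ext i
        by_cases hi : i = j
        · subst hi
          simp [dF, low_self]
        · simp [dF, low_ne d hi, Finsupp.single_apply, Ne.symm hi]

/-- base case of the path -/
theorem HR_diag (hM : StmtMono) (hR : StmtMonoHR) {A : Matrix (Fin n) (Fin n) ℝ}
    {c : Fin n → ℝ} (h : Amp A c) (h0 : ∀ i j, i ≠ j → A i j = 0) (hpos : ∀ i, 0 < A i i)
    (hc : ∀ i, 0 < c i) (d : Fin n → ℕ) (k : ℕ) : HR A c d k := by
  have hA := h.1
  intro f hf hk hp
  rw [idl_diag h0 (fun i => (hpos i).ne') d] at hp ⊢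
  rw [phi_diag hA h0 (fun i => (hpos i).ne') _ d rfl, lcoeff_apply]
  have h4 := (hM n ℝ c d (fun i => (hc i).ne')).2.1 k f hf hk hp
  exact hR n c d k f hc hf hk h4

/-- the step along the path -/
theorem HR_path (hP : StmtPathKer) {B : ℝ → Matrix (Fin n) (Fin n) ℝ} {c : ℝ → Fin n → ℝ}
    (h : AmpPath B c) (d : Fin n → ℕ) (k : ℕ) (hk : 2 * (k + 1) ≤ ∑ i, d i)
    (hL : ∀ t ∈ Set.Icc (0 : ℝ) 1, HL (B t) (c t) d (k + 1))
    (hL' : ∀ t ∈ Set.Icc (0 : ℝ) 1, HL (B t) (c t) d k)
    (hbase : HR (B 0) (c 0) d (k + 1)) :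
    HR (B 1) (c 1) d (k + 1) := by
  obtain ⟨m, b, hb, hB⟩ := exists_basis (K := ℝ) _ d rfl (k + 1)
  obtain ⟨r, b', hb', hB'⟩ := exists_basis (K := ℝ) _ d rfl k
  obtain ⟨D, hD⟩ : ∃ D, D = ∑ i, d i := ⟨_, rfl⟩
  rw [← hD] at hk
  obtain ⟨s, hs⟩ : ∃ s, s = D - 2 * (k + 1) := ⟨_, rfl⟩
  -- notation
  obtain ⟨ℓ, hℓ⟩ : ∃ ℓ : ℝ → MvPolynomial (Fin n) ℝ, ∀ t, ℓ t = lin (c t) :=
    ⟨fun t => lin (c t), fun _ => rfl⟩
  have hgood : ∀ t ∈ Set.Icc (0 : ℝ) 1, Good (B t) := fun t ht =>
    (h.amp t ht).1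
  have hℓh : ∀ t p, (ℓ t ^ p).IsHomogeneous p := fun t p => by rw [hℓ]; exact lin_pow_hom _ _
  have hLk : ∀ t ∈ Set.Icc (0 : ℝ) 1, ∀ f : MvPolynomial (Fin n) ℝ, f.IsHomogeneous (k + 1) →
      ℓ t ^ s * f ∈ idl (B t) d → f ∈ idl (B t) d := by
    intro t ht f hf hmem
    refine hL t ht f hf (by rw [← hD]; exact hk) ?_
    rw [← hD, ← hs, ← hℓ]
    exact hmem
  have hLk' : ∀ t ∈ Set.Icc (0 : ℝ) 1, ∀ f : MvPolynomial (Fin n) ℝ, f.IsHomogeneous k →
      ℓ t ^ (s + 2) * f ∈ idl (B t) d → f ∈ idl (B t) d := by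
    intro t ht f hf hmem
    refine hL' t ht f hf (by rw [← hD]; omega) ?_
    rw [← hD, ← hℓ]
    have : D - 2 * k = s + 2 := by omega
    rw [this]
    exact hmem
  obtain ⟨G, hG⟩ : ∃ G : ℝ → Matrix (Fin m) (Fin m) ℝ, ∀ t i j, G t i j =
      (-1) ^ (k + 1) * phi (B t) d (ℓ t ^ s * (b i * b j)) :=
    ⟨fun t => Matrix.of fun i j => (-1) ^ (k + 1) * phi (B t) d (ℓ t ^ s * (b i * b j)),
      fun _ _ _ => rfl⟩
  obtain ⟨M, hMd⟩ : ∃ M : ℝ → Matrix (Fin r) (Fin m) ℝ, ∀ t i j, M t i j =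
      phi (B t) d (ℓ t ^ (s + 1) * (b' i * b j)) :=
    ⟨fun t => Matrix.of fun i j => phi (B t) d (ℓ t ^ (s + 1) * (b' i * b j)),
      fun _ _ _ => rfl⟩
  -- bilinear expansions
  have hMsum : ∀ t j (l : Fin r → ℝ), ∑ i, M t i j * l i =
      phi (B t) d (ℓ t ^ (s + 1) * (∑ i, l i • b' i) * b j) := by
    intro t j l
    have e : ℓ t ^ (s + 1) * (∑ i, l i • b' i) * b j =
        ∑ i, l i • (ℓ t ^ (s + 1) * (b' i * b j)) := by
      rw [Finset.mul_sum, Finset.sum_mul]
      refine Finset.sum_congr rfl fun i _ => ?_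
      rw [mul_smul_comm, smul_mul_assoc, mul_assoc]
    rw [e, map_sum]
    refine Finset.sum_congr rfl fun i _ => ?_
    rw [map_smul, hMd, smul_eq_mul, mul_comm]
  have hMsum2 : ∀ t i (u : Fin m → ℝ), ∑ j, M t i j * u j =
      phi (B t) d (ℓ t ^ (s + 1) * (∑ j, u j • b j) * b' i) := by
    intro t i u
    have e : ℓ t ^ (s + 1) * (∑ j, u j • b j) * b' i =
        ∑ j, u j • (ℓ t ^ (s + 1) * (b' i * b j)) := by
      rw [Finset.mul_sum, Finset.sum_mul]
      refine Finset.sum_congr rfl fun j _ => ?_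
      rw [mul_smul_comm, smul_mul_assoc]
      congr 1
      ring
    rw [e, map_sum]
    refine Finset.sum_congr rfl fun j _ => ?_
    rw [map_smul, hMd, smul_eq_mul, mul_comm]
  have hGsum : ∀ t i (u : Fin m → ℝ), ∑ j, G t i j * u j =
      (-1) ^ (k + 1) * phi (B t) d (ℓ t ^ s * (∑ j, u j • b j) * b i) := by
    intro t i u
    have e : ℓ t ^ s * (∑ j, u j • b j) * b i =
        ∑ j, u j • (ℓ t ^ s * (b i * b j)) := by
      rw [Finset.mul_sum, Finset.sum_mul]
      refine Finset.sum_congr rfl fun j _ => ?_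
      rw [mul_smul_comm, smul_mul_assoc]
      congr 1
      ring
    rw [e, map_sum, Finset.mul_sum]
    refine Finset.sum_congr rfl fun j _ => ?_
    rw [map_smul, hG, smul_eq_mul]
    ring
  have hGq : ∀ t (u : Fin m → ℝ), ∑ i, ∑ j, G t i j * (u i * u j) =
      (-1) ^ (k + 1) * phi (B t) d (ℓ t ^ s * ((∑ j, u j • b j) * (∑ j, u j • b j))) := by
    intro t u
    have e1 : ∀ i, ∑ j, G t i j * (u i * u j) = u i * ∑ j, G t i j * u j := by
      intro i
      rw [Finset.mul_sum]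
      exact Finset.sum_congr rfl fun j _ => by ring
    rw [Finset.sum_congr rfl fun i _ => e1 i]
    simp only [hGsum]
    have e2 : ℓ t ^ s * ((∑ j, u j • b j) * (∑ j, u j • b j)) =
        ∑ i, u i • (ℓ t ^ s * (∑ j, u j • b j) * b i) := by
      rw [← mul_assoc]
      generalize ℓ t ^ s * ∑ j, u j • b j = P
      rw [Finset.mul_sum]
      exact Finset.sum_congr rfl fun i _ => mul_smul_comm _ _ _
    have e3 : phi (B t) d (∑ i, u i • (ℓ t ^ s * (∑ j, u j • b j) * b i)) =
        ∑ i, u i * phi (B t) d (ℓ t ^ s * (∑ j, u j • b j) * b i) := by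
      refine (map_sum (phi (B t) d) _ _).trans ?_
      refine Finset.sum_congr rfl fun i _ => ?_
      rw [map_smul, smul_eq_mul]
    rw [e2, e3]
    refine Eq.trans (Finset.sum_congr rfl fun i _ => ?_) (Finset.mul_sum _ _ _).symm
    ring
  -- primitive elements
  have hprim : ∀ t ∈ Set.Icc (0 : ℝ) 1, ∀ u : Fin m → ℝ, (∀ i, ∑ j, M t i j * u j = 0) →
      ℓ t ^ (s + 1) * (∑ j, u j • b j) ∈ idl (B t) d := by
    intro t ht u hu
    refine mem_of_basis (hgood t ht) (hB' _ (hgood t ht)).1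
      (s := s + 1 + (k + 1)) ((hℓh t _).mul (sum_smul_hom hb u)) (by omega) (fun i => ?_)
    rw [← hMsum2]
    exact hu i
  have hmain := hP m r G M ?_ ?_ ?_ ?_ ?_ ?_
  · -- conclusion
    intro f hf hk2 hp
    have h1 : (1 : ℝ) ∈ Set.Icc (0 : ℝ) 1 := by norm_num
    rw [← hD, ← hs, ← hℓ] at hp
    rw [← hD, ← hs, ← hℓ]
    obtain ⟨u, hu⟩ := (hB _ (hgood 1 h1)).1 f hf
    set fu := ∑ j, u j • b j with hfu
    have hval : phi (B 1) d (ℓ 1 ^ s * (f * f)) =
        phi (B 1) d (ℓ 1 ^ s * (fu * fu)) := by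
      have e : ℓ 1 ^ s * (f * f) = (f - fu) * (ℓ 1 ^ s * (f + fu)) + ℓ 1 ^ s * (fu * fu) := by
        ring
      rw [e, map_add, phi_idl (hgood 1 h1) hu, zero_add]
    have hpu : ∀ i, ∑ j, M 1 i j * u j = 0 := by
      intro i
      rw [hMsum2, ← hfu]
      have e : ℓ 1 ^ (s + 1) * fu * b' i =
          (ℓ 1 ^ (s + 1) * f) * b' i - (f - fu) * (ℓ 1 ^ (s + 1) * b' i) := by ring
      rw [e, map_sub, phi_idl (hgood 1 h1) hp, phi_idl (hgood 1 h1) hu, sub_zero]
    by_cases hu0 : u = 0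
    · have hfu0 : fu = 0 := by
        rw [hfu, hu0]
        simp
      rw [hval, hfu0, mul_zero, mul_zero, map_zero, mul_zero]
      refine ⟨le_refl _, fun _ => ?_⟩
      rw [hfu0, sub_zero] at hu
      exact hu
    · have hpos := hmain u hu0 hpu
      rw [hGq, ← hfu, ← hval] at hpos
      refine ⟨hpos.le, fun h0 => ?_⟩
      rw [h0, mul_zero] at hpos
      exact absurd hpos (lt_irrefl _)
  · -- continuity of G
    intro i j
    have e : (fun t => G t i j) = fun t => (-1) ^ (k + 1) *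
        phi (B t) d (lin (c t) ^ s * (b i * b j)) := by
      funext t
      rw [hG, hℓ]
    rw [e]
    exact continuousOn_const.mul (Cts.lin_pow_mul h s (b i * b j) d)
  · intro i j
    have e : (fun t => M t i j) = fun t =>
        phi (B t) d (lin (c t) ^ (s + 1) * (b' i * b j)) := by
      funext t
      rw [hMd, hℓ]
    rw [e]
    exact Cts.lin_pow_mul h (s + 1) (b' i * b j) d
  · intro t _ i j
    rw [hG, hG, mul_comm (b i)]
  · -- surjectivity
    intro t ht l hl
    have hf := sum_smul_hom hb' l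
    have h1 : ℓ t ^ (s + 1) * (∑ i, l i • b' i) ∈ idl (B t) d := by
      refine mem_of_basis (hgood t ht) (hB _ (hgood t ht)).1 (s := s + 1 + k)
        ((hℓh t _).mul hf) (by omega) (fun i => ?_)
      rw [← hMsum]
      exact hl i
    refine (hB' _ (hgood t ht)).2 l (hLk' t ht _ hf ?_)
    have e : ℓ t ^ (s + 2) * (∑ i, l i • b' i) = ℓ t * (ℓ t ^ (s + 1) * (∑ i, l i • b' i)) := by
      ring
    rw [e]
    exact Ideal.mul_mem_left _ _ h1
  · -- nondegeneracy
    rintro t ht u hu ⟨l, hl⟩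
    have hfu := sum_smul_hom hb u
    have hfl := sum_smul_hom hb' l
    have hpu := hprim t ht u hu
    have h1 : ℓ t ^ s * (((-1) ^ (k + 1) : ℝ) • (∑ j, u j • b j) - ℓ t * ∑ i, l i • b' i) ∈
        idl (B t) d := by
      refine mem_of_basis (hgood t ht) (hB _ (hgood t ht)).1 (s := s + (k + 1))
        ((hℓh t _).mul (IsHomogeneous.sub ?_ ?_)) (by omega) (fun i => ?_)
      · exact (homogeneousSubmodule (Fin n) ℝ (k + 1)).smul_mem _ hfu
      · have := (hℓh t 1).mul hfl
        rw [pow_one, add_comm] at this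
        exact this
      · have h2 := hl i
        rw [hGsum, hMsum] at h2
        have e : ℓ t ^ s * (((-1) ^ (k + 1) : ℝ) • (∑ j, u j • b j) -
            ℓ t * ∑ i, l i • b' i) * b i =
            ((-1) ^ (k + 1) : ℝ) • (ℓ t ^ s * (∑ j, u j • b j) * b i) -
              ℓ t ^ (s + 1) * (∑ i, l i • b' i) * b i := by
          rw [mul_sub, sub_mul, mul_smul_comm, smul_mul_assoc]
          congr 1
          ring
        rw [e, map_sub, map_smul, smul_eq_mul, h2, sub_self]
    have h2 := hLk t ht _ (IsHomogeneous.sub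
      ((homogeneousSubmodule (Fin n) ℝ (k + 1)).smul_mem _ hfu)
      (by
        have := (hℓh t 1).mul hfl
        rw [pow_one, add_comm] at this
        exact this)) h1
    have h3 : ∑ i, l i • b' i ∈ idl (B t) d := by
      refine hLk' t ht _ hfl ?_
      have e : ℓ t ^ (s + 2) * (∑ i, l i • b' i) =
          ((-1) ^ (k + 1) : ℝ) • (ℓ t ^ (s + 1) * (∑ j, u j • b j)) - ℓ t ^ (s + 1) *
            (((-1) ^ (k + 1) : ℝ) • (∑ j, u j • b j) - ℓ t * ∑ i, l i • b' i) := by
        rw [mul_sub, mul_smul_comm]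
        ring
      rw [e]
      refine Ideal.sub_mem _ ?_ (Ideal.mul_mem_left _ _ h2)
      rw [smul_eq_C_mul]
      exact Ideal.mul_mem_left _ _ hpu
    refine (hB _ (hgood t ht)).2 u ?_
    have e : ∑ j, u j • b j = C ((-1) ^ (k + 1) : ℝ) *
        ((((-1) ^ (k + 1) : ℝ) • (∑ j, u j • b j) - ℓ t * ∑ i, l i • b' i) +
          ℓ t * ∑ i, l i • b' i) := by
      rw [sub_add_cancel, smul_eq_C_mul, ← mul_assoc, ← C_mul, ← mul_pow]
      norm_num
    rw [e]
    exact Ideal.mul_mem_left _ _ (Ideal.add_mem _ h2 (Ideal.mul_mem_left _ _ h3))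
  · -- base
    intro u hu hpu
    have h0 : (0 : ℝ) ∈ Set.Icc (0 : ℝ) 1 := by norm_num
    have hfu := sum_smul_hom hb u
    have hp := hprim 0 h0 u hpu
    rw [hℓ] at hp
    have h1 := hbase _ hfu (by rw [← hD]; exact hk) (by rw [← hD, ← hs]; exact hp)
    rw [← hD, ← hs] at h1
    rw [hGq, hℓ]
    refine lt_of_le_of_ne h1.1 (fun heq => hu ?_)
    refine (hB _ (hgood 0 h0)).2 u (h1.2 ?_)
    exact (mul_eq_zero.1 heq.symm).resolve_left (pow_ne_zero _ (by norm_num))

/-- degree zero -/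
theorem HR_zero {A : Matrix (Fin n) (Fin n) ℝ} {c : Fin n → ℝ} (h : Amp A c) (d : Fin n → ℕ) :
    HR A c d 0 := by
  intro f hf _ _
  have hfc : f = C (coeff 0 f) := by
    have h1 := homogeneousComponent_eq_self hf
    rw [homogeneousComponent_zero] at h1
    exact h1.symm
  obtain ⟨a, ha⟩ : ∃ a, a = coeff 0 f := ⟨_, rfl⟩
  rw [← ha] at hfc
  have hpos := phi_top_pos h _ d rfl
  have e : phi A d (lin c ^ (∑ i, d i - 2 * 0) * (f * f)) =
      a ^ 2 * phi A d (lin c ^ (∑ i, d i)) := by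
    rw [mul_zero, Nat.sub_zero, hfc]
    have : lin c ^ (∑ i, d i) * (C a * C a) = (a ^ 2) • lin c ^ (∑ i, d i) := by
      rw [smul_eq_C_mul, pow_two, C_mul]; ring
    rw [this, map_smul, smul_eq_mul]
  rw [e, pow_zero, one_mul]
  refine ⟨mul_nonneg (sq_nonneg _) hpos.le, fun h0 => ?_⟩
  have h1 := (mul_eq_zero.1 h0).resolve_right hpos.ne'
  have h2 : a = 0 := by simpa using h1
  rw [hfc, h2, C_0]
  exact Ideal.zero_mem _

end Pool.Agent.Lib.MP_adb389_ag
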