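import Pool.Agent.Lib.MP_adb389_ag.Spec

/-!
# The `sl_2` calculus of the monomial complete intersection
-/

set_option autoImplicit false

namespace Pool.Agent.Lib.MP_adb389_ag

open MvPolynomial Finset

section

variable {n : ℕ} {K : Type} [Field K] (c : Fin n → K) (d : Fin n → ℕ)

theorem Mono_add (f g : MvPolynomial (Fin n) K) :
    lowOp c d (f + g) = lowOp c d f + lowOp c d g := by
  unfold lowOp
  rw [← Finset.sum_add_distrib]
  refine Finset.sum_congr rfl fun i _ => ?_
  rw [map_add, map_add]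
  ring

theorem Mono_C_mul (a : K) (f : MvPolynomial (Fin n) K) :
    lowOp c d (C a * f) = C a * lowOp c d f := by
  unfold lowOp
  rw [Finset.mul_sum]
  refine Finset.sum_congr rfl fun i _ => ?_
  rw [pderiv_C_mul, pderiv_C_mul]
  ring

theorem Mono_zero : lowOp c d (0 : MvPolynomial (Fin n) K) = 0 := by
  have h := Mono_C_mul c d 0 0
  rw [C_0, zero_mul, zero_mul] at h
  exact h

theorem Mono_pderiv_lin (i : Fin n) : pderiv i (lin c) = C (c i) := by
  unfold lin
  rw [map_sum, Finset.sum_eq_single i]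
  · rw [pderiv_C_mul, pderiv_X_self, mul_one]
  · intro j _ hj
    rw [pderiv_C_mul, pderiv_X_of_ne hj, mul_zero]
  · intro h
    exact absurd (Finset.mem_univ i) h

theorem Mono_lin_hom : (lin c).IsHomogeneous 1 := by
  unfold lin
  refine MvPolynomial.IsHomogeneous.sum _ _ _ fun i _ => ?_
  have h := (isHomogeneous_C (Fin n) (c i)).mul (isHomogeneous_X K i)
  rwa [zero_add] at h

theorem Mono_pow_hom {k : ℕ} {f : MvPolynomial (Fin n) K} (hf : f.IsHomogeneous k) (j : ℕ) :
    (lin c ^ j * f).IsHomogeneous (k + j) := by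
  have h := ((Mono_lin_hom c).pow j).mul hf
  rwa [one_mul, add_comm j k] at h

/-- The commutator formula. -/
theorem Mono_comm (hc : ∀ i, c i ≠ 0) {k : ℕ} {f : MvPolynomial (Fin n) K}
    (hf : f.IsHomogeneous k) : lowOp c d (lin c * f) = lin c * lowOp c d f +
      C (((∑ i, d i : ℕ) : K) - 2 * k) * f := by
  have h1 : ∀ i, C (c i)⁻¹ * (C (d i : K) * pderiv i (lin c * f) -
      X i * pderiv i (pderiv i (lin c * f))) =
      lin c * (C (c i)⁻¹ * (C (d i : K) * pderiv i f - X i * pderiv i (pderiv i f))) +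
        (C (d i : K) * f - 2 * (X i * pderiv i f)) := by
    intro i
    have h2 : pderiv i (lin c * f) = C (c i) * f + lin c * pderiv i f := by
      rw [Derivation.leibniz, Mono_pderiv_lin, smul_eq_mul, smul_eq_mul]
      ring
    have h3 : pderiv i (pderiv i (lin c * f)) = 2 * (C (c i) * pderiv i f) +
        lin c * pderiv i (pderiv i f) := by
      rw [h2, map_add, pderiv_C_mul, Derivation.leibniz, Mono_pderiv_lin, smul_eq_mul,
        smul_eq_mul]
      ring
    have h4 : (C (c i)⁻¹ : MvPolynomial (Fin n) K) * C (c i) = 1 := by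
      rw [← C_mul, inv_mul_cancel₀ (hc i), C_1]
    rw [h3, h2]
    linear_combination (C (d i : K) * f - 2 * (X i * pderiv i f)) * h4
  unfold lowOp
  rw [Finset.sum_congr rfl fun i _ => h1 i, Finset.sum_add_distrib, ← Finset.mul_sum]
  congr 1
  rw [Finset.sum_sub_distrib, ← Finset.sum_mul, ← Finset.mul_sum, hf.sum_X_mul_pderiv,
    nsmul_eq_mul, Nat.cast_sum, map_sub, map_sum, map_mul, map_ofNat, sub_mul]
  congr 1
  rw [← MvPolynomial.C_eq_coe_nat]
  ring

theorem Mono_low_hom {k : ℕ} {f : MvPolynomial (Fin n) K} (hf : f.IsHomogeneous (k + 1)) :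
    (lowOp c d f).IsHomogeneous k := by
  unfold lowOp
  refine MvPolynomial.IsHomogeneous.sum _ _ _ fun i _ => ?_
  have h1 : (pderiv i f).IsHomogeneous k := hf.pderiv
  have hC : ∀ (a : K) {g : MvPolynomial (Fin n) K}, g.IsHomogeneous k →
      (C a * g).IsHomogeneous k := by
    intro a g hg
    have h := (isHomogeneous_C (Fin n) a).mul hg
    rwa [zero_add] at h
  refine hC _ ((hC _ h1).sub ?_)
  rcases k with _ | k
  · have h2 : pderiv i (pderiv i f) = 0 := by
      rw [← totalDegree_zero_iff_isHomogeneous, totalDegree_eq_zero_iff_eq_C] at h1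
      rw [h1, pderiv_C]
    rw [h2, mul_zero]
    exact isHomogeneous_zero _ _ _
  · have h2 : (pderiv i (pderiv i f)).IsHomogeneous k := h1.pderiv
    have h := (isHomogeneous_X K i).mul h2
    rwa [add_comm 1 k] at h

theorem Mono_low_zero {f : MvPolynomial (Fin n) K} (hf : f.IsHomogeneous 0) :
    lowOp c d f = 0 := by
  rw [← totalDegree_zero_iff_isHomogeneous, totalDegree_eq_zero_iff_eq_C] at hf
  rw [hf]
  unfold lowOp
  refine Finset.sum_eq_zero fun i _ => ?_
  rw [pderiv_C, map_zero, mul_zero, mul_zero, sub_zero, mul_zero]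

/-- `F` applied to `l ^ (j + 1) f`. -/
theorem Mono_low_pow (hc : ∀ i, c i ≠ 0) {k : ℕ} {f : MvPolynomial (Fin n) K}
    (hf : f.IsHomogeneous k) (j : ℕ) : lowOp c d (lin c ^ (j + 1) * f) =
      lin c ^ (j + 1) * lowOp c d f +
        C (((j : K) + 1) * (((∑ i, d i : ℕ) : K) - 2 * k - j)) * (lin c ^ j * f) := by
  induction j with
  | zero =>
    rw [zero_add, pow_one, pow_zero, one_mul, Mono_comm c d hc hf]
    congr 3
    push_cast
    ring
  | succ j ih =>
    have h1 : lin c ^ (j + 1 + 1) * f = lin c * (lin c ^ (j + 1) * f) := by ring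
    rw [h1, Mono_comm c d hc (Mono_pow_hom c hf (j + 1)), ih]
    have h2 : (C ((((j + 1 : ℕ) : K) + 1) * (((∑ i, d i : ℕ) : K) - 2 * k - ((j + 1 : ℕ) : K))) :
        MvPolynomial (Fin n) K) =
        C (((j : K) + 1) * (((∑ i, d i : ℕ) : K) - 2 * k - j)) +
          C (((∑ i, d i : ℕ) : K) - 2 * ((k + (j + 1) : ℕ) : K)) := by
      rw [← C_add]
      congr 1
      push_cast
      ring
    rw [h2]
    ring

theorem Mono_iter_hom (j : ℕ) : ∀ {e : ℕ} {h : MvPolynomial (Fin n) K},
    h.IsHomogeneous (e + j) → ((lowOp c d)^[j] h).IsHomogeneous e := by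
  induction j with
  | zero =>
    intro e h hh
    exact hh
  | succ j ih =>
    intro e h hh
    rw [Function.iterate_succ_apply']
    refine Mono_low_hom c d (ih ?_)
    rwa [add_assoc, add_comm 1 j]

/-- `F ^ (j + 1)` applied to `l h`. -/
theorem Mono_iter (hc : ∀ i, c i ≠ 0) (j : ℕ) : ∀ {e : ℕ} {h : MvPolynomial (Fin n) K},
    h.IsHomogeneous (e + j) → (lowOp c d)^[j + 1] (lin c * h) =
      lin c * (lowOp c d)^[j + 1] h +
        C (((j : K) + 1) * (((∑ i, d i : ℕ) : K) - 2 * e - j)) * (lowOp c d)^[j] h := by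
  induction j with
  | zero =>
    intro e h hh
    rw [zero_add, Function.iterate_one, Function.iterate_zero, id_eq, Mono_comm c d hc hh]
    congr 3
    push_cast
    ring
  | succ j ih =>
    intro e h hh
    have h1 : h.IsHomogeneous (e + 1 + j) := by
      rwa [add_assoc, add_comm 1 j]
    rw [Function.iterate_succ_apply', ih h1, Mono_add, Mono_C_mul,
      ← Function.iterate_succ_apply' (lowOp c d) j h]
    have h2 := Mono_iter_hom c d (j + 1) hh
    rw [Mono_comm c d hc h2, ← Function.iterate_succ_apply' (lowOp c d) (j + 1) h]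
    have h3 : (C ((((j + 1 : ℕ) : K) + 1) * (((∑ i, d i : ℕ) : K) - 2 * e - ((j + 1 : ℕ) : K))) :
        MvPolynomial (Fin n) K) = C (((∑ i, d i : ℕ) : K) - 2 * (e : K)) +
        C (((j : K) + 1) * (((∑ i, d i : ℕ) : K) - 2 * ((e + 1 : ℕ) : K) - j)) := by
      rw [← C_add]
      congr 1
      push_cast
      ring
    rw [h3]
    ring

theorem Mono_low_gen (i : Fin n) (g : MvPolynomial (Fin n) K) :
    lowOp c d (X i ^ (d i + 1) * g) ∈ mono K d := by
  have hi : (X i ^ (d i + 1) : MvPolynomial (Fin n) K) ∈ mono K d :=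
    Ideal.subset_span ⟨i, rfl⟩
  unfold lowOp
  refine (mono K d).sum_mem fun j _ => (mono K d).mul_mem_left _ ?_
  by_cases hj : j = i
  · subst hj
    have hx : ∀ e : ℕ, pderiv j (X j ^ (e + 1) : MvPolynomial (Fin n) K) =
        C ((e : K) + 1) * X j ^ e := by
      intro e
      rw [Derivation.leibniz_pow, pderiv_X_self, smul_eq_mul, mul_one, nsmul_eq_mul,
        Nat.add_sub_cancel]
      congr 1
      rw [← MvPolynomial.C_eq_coe_nat]
      push_cast
      rfl
    have h1 : pderiv j (X j ^ (d j + 1) * g) = C ((d j : K) + 1) * (X j ^ d j * g) +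
        X j ^ (d j + 1) * pderiv j g := by
      rw [Derivation.leibniz, hx, smul_eq_mul, smul_eq_mul]
      ring
    have h2 : X j * pderiv j (X j ^ d j * g) = C (d j : K) * (X j ^ d j * g) +
        X j ^ (d j + 1) * pderiv j g := by
      cases hd : d j with
      | zero =>
        rw [pow_zero, one_mul, Nat.cast_zero, C_0, zero_mul, zero_add, zero_add, pow_one]
      | succ e =>
        rw [Derivation.leibniz, hx, smul_eq_mul, smul_eq_mul]
        push_cast
        ring
    have h3 : X j * pderiv j (pderiv j (X j ^ (d j + 1) * g)) =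
        C ((d j : K) + 1) * (C (d j : K) * (X j ^ d j * g) + X j ^ (d j + 1) * pderiv j g) +
        X j * (C ((d j : K) + 1) * (X j ^ d j * pderiv j g) +
          X j ^ (d j + 1) * pderiv j (pderiv j g)) := by
      have h4 : pderiv j (X j ^ (d j + 1) * pderiv j g) =
          C ((d j : K) + 1) * (X j ^ d j * pderiv j g) +
          X j ^ (d j + 1) * pderiv j (pderiv j g) := by
        rw [Derivation.leibniz, hx, smul_eq_mul, smul_eq_mul]
        ring
      rw [h1, map_add, pderiv_C_mul, h4, ← h2]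
      ring
    have h5 : C (d j : K) * pderiv j (X j ^ (d j + 1) * g) -
        X j * pderiv j (pderiv j (X j ^ (d j + 1) * g)) =
        (C (d j : K) * pderiv j g - 2 * C ((d j : K) + 1) * pderiv j g -
          X j * pderiv j (pderiv j g)) * X j ^ (d j + 1) := by
      rw [h3, h1]
      ring
    rw [h5]
    exact (mono K d).mul_mem_left _ hi
  · have h1 : ∀ g : MvPolynomial (Fin n) K, pderiv j (X i ^ (d i + 1) * g) =
        X i ^ (d i + 1) * pderiv j g := by
      intro g
      rw [Derivation.leibniz, Derivation.leibniz_pow, pderiv_X_of_ne (Ne.symm hj), smul_zero,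
        smul_zero, smul_zero, add_zero, smul_eq_mul]
    have h2 : C (d j : K) * pderiv j (X i ^ (d i + 1) * g) -
        X j * pderiv j (pderiv j (X i ^ (d i + 1) * g)) =
        (C (d j : K) * pderiv j g - X j * pderiv j (pderiv j g)) * X i ^ (d i + 1) := by
      rw [h1, h1]
      ring
    rw [h2]
    exact (mono K d).mul_mem_left _ hi

/-- The ideal is stable. -/
theorem Mono_low_mem {f : MvPolynomial (Fin n) K} (hf : f ∈ mono K d) :
    lowOp c d f ∈ mono K d := by
  have h1 : ∀ g : MvPolynomial (Fin n) K, lowOp c d (g * f) ∈ mono K d := by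
    refine Submodule.span_induction (p := fun f _ => ∀ g : MvPolynomial (Fin n) K,
      lowOp c d (g * f) ∈ mono K d) ?_ ?_ ?_ ?_ hf
    · rintro _ ⟨i, rfl⟩ g
      show lowOp c d (g * X i ^ (d i + 1)) ∈ mono K d
      rw [mul_comm]
      exact Mono_low_gen c d i g
    · intro g
      rw [mul_zero, Mono_zero]
      exact (mono K d).zero_mem
    · intro a b _ _ ha hb g
      rw [mul_add, Mono_add]
      exact (mono K d).add_mem (ha g) (hb g)
    · intro a b _ hb g
      rw [smul_eq_mul, ← mul_assoc]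
      exact hb (g * a)
  have h2 := h1 1
  rwa [one_mul] at h2

theorem Mono_iter_mem (j : ℕ) {f : MvPolynomial (Fin n) K} (hf : f ∈ mono K d) :
    (lowOp c d)^[j] f ∈ mono K d := by
  induction j with
  | zero => exact hf
  | succ j ih =>
    rw [Function.iterate_succ_apply']
    exact Mono_low_mem c d ih

theorem Mono_C_cancel {a : K} (ha : a ≠ 0) {f : MvPolynomial (Fin n) K}
    (h : C a * f ∈ mono K d) : f ∈ mono K d := by
  have h1 := (mono K d).mul_mem_left (C a⁻¹) h
  rwa [← mul_assoc, ← C_mul, inv_mul_cancel₀ ha, C_1, one_mul] at h1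

/-- Polynomials of large degree are in the ideal. -/
theorem Mono_large {e : ℕ} (he : ∑ i, d i < e) {h : MvPolynomial (Fin n) K}
    (hh : h.IsHomogeneous e) : h ∈ mono K d := by
  rw [← support_sum_monomial_coeff h]
  refine (mono K d).sum_mem fun α hα => ?_
  have h1 : α.degree = e := by
    rw [Finsupp.degree_eq_weight_one]
    exact hh (mem_support_iff.1 hα)
  obtain ⟨i, hi⟩ : ∃ i, d i < α i := by
    by_contra hn
    push Not at hn
    have h2 : α.degree = ∑ i, α i := by
      rw [Finsupp.degree_apply]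
      exact Finset.sum_subset (Finset.subset_univ _) fun i _ hi => Finsupp.notMem_support_iff.1 hi
    have h3 : ∑ i, α i ≤ ∑ i, d i := Finset.sum_le_sum fun i _ => hn i
    omega
  have h4 : α = (α - Finsupp.single i (d i + 1)) + Finsupp.single i (d i + 1) := by
    ext j
    simp only [Finsupp.add_apply, Finsupp.tsub_apply, Finsupp.single_apply]
    by_cases hj : i = j
    · subst hj
      rw [if_pos rfl]
      omega
    · rw [if_neg hj]
      omega
  have h5 : (monomial α (coeff α h) : MvPolynomial (Fin n) K) =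
      monomial (α - Finsupp.single i (d i + 1)) (coeff α h) * X i ^ (d i + 1) := by
    rw [X_pow_eq_monomial, monomial_mul, mul_one, ← h4]
  rw [h5]
  exact (mono K d).mul_mem_left _ (Ideal.subset_span ⟨i, rfl⟩)

end

section

variable {n : ℕ} {K : Type} [Field K] [CharZero K] (c : Fin n → K) (d : Fin n → ℕ)

/-- Going down with the powers of `l`. -/
theorem Mono_down (hc : ∀ i, c i ≠ 0) {k : ℕ} {f : MvPolynomial (Fin n) K}
    (hf : f.IsHomogeneous k) (hk : 2 * k ≤ ∑ i, d i) (hF : lowOp c d f ∈ mono K d) :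
    ∀ j ≤ ∑ i, d i - 2 * k, lin c ^ j * f ∈ mono K d → f ∈ mono K d := by
  intro j
  induction j with
  | zero =>
    intro _ h
    rwa [pow_zero, one_mul] at h
  | succ j ih =>
    intro hj h
    refine ih (by omega) ?_
    have h1 := Mono_low_mem c d h
    rw [Mono_low_pow c d hc hf] at h1
    have h2 := ((mono K d).add_mem_iff_right ((mono K d).mul_mem_left (lin c ^ (j + 1)) hF)).1 h1
    refine Mono_C_cancel d ?_ h2
    have h3 : ((j : K) + 1) * (((∑ i, d i : ℕ) : K) - 2 * k - j) =
        (((j + 1) * (∑ i, d i - 2 * k - j) : ℕ) : K) := by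
      rw [Nat.cast_mul, Nat.cast_sub (by omega), Nat.cast_sub hk]
      push_cast
      ring
    rw [h3, Nat.cast_ne_zero]
    exact Nat.mul_ne_zero (by omega) (by omega)

theorem Mono_first (hc : ∀ i, c i ≠ 0) (k : ℕ) :
    (∀ f : MvPolynomial (Fin n) K, f.IsHomogeneous k → 2 * k ≤ ∑ i, d i →
      lin c ^ (∑ i, d i - 2 * k) * f ∈ mono K d → f ∈ mono K d) ∧
    ∀ f : MvPolynomial (Fin n) K, f.IsHomogeneous k → 2 * k ≤ ∑ i, d i →
      lin c ^ (∑ i, d i - 2 * k + 1) * f ∈ mono K d → lowOp c d f ∈ mono K d := by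
  have key : ∀ k, (∀ f : MvPolynomial (Fin n) K, f.IsHomogeneous k → 2 * k ≤ ∑ i, d i →
      lin c ^ (∑ i, d i - 2 * k + 1) * f ∈ mono K d → lowOp c d f ∈ mono K d) →
      ∀ f : MvPolynomial (Fin n) K, f.IsHomogeneous k → 2 * k ≤ ∑ i, d i →
      lin c ^ (∑ i, d i - 2 * k) * f ∈ mono K d → f ∈ mono K d := by
    intro k hB f hf hk h
    refine Mono_down c d hc hf hk (hB f hf hk ?_) _ le_rfl h
    rw [pow_succ', mul_assoc]
    exact (mono K d).mul_mem_left _ h
  induction k with
  | zero =>
    have hB : ∀ f : MvPolynomial (Fin n) K, f.IsHomogeneous 0 → 2 * 0 ≤ ∑ i, d i →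
        lin c ^ (∑ i, d i - 2 * 0 + 1) * f ∈ mono K d → lowOp c d f ∈ mono K d := by
      intro f hf _ _
      rw [Mono_low_zero c d hf]
      exact (mono K d).zero_mem
    exact ⟨key 0 hB, hB⟩
  | succ k ih =>
    have hB : ∀ f : MvPolynomial (Fin n) K, f.IsHomogeneous (k + 1) →
        2 * (k + 1) ≤ ∑ i, d i →
        lin c ^ (∑ i, d i - 2 * (k + 1) + 1) * f ∈ mono K d → lowOp c d f ∈ mono K d := by
      intro f hf hk h
      refine ih.1 (lowOp c d f) (Mono_low_hom c d hf) (by omega) ?_
      have e : ∑ i, d i - 2 * k = ∑ i, d i - 2 * (k + 1) + 1 + 1 := by omega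
      have h1 : lin c ^ (∑ i, d i - 2 * (k + 1) + 1 + 1) * f ∈ mono K d := by
        rw [pow_succ', mul_assoc]
        exact (mono K d).mul_mem_left _ h
      have h2 := Mono_low_mem c d h1
      rw [Mono_low_pow c d hc hf] at h2
      rw [e]
      exact ((mono K d).add_mem_iff_left ((mono K d).mul_mem_left _ h)).1 h2
    exact ⟨key (k + 1) hB, hB⟩

/-- Surjectivity of the multiplication by `l` in large degrees. -/
theorem Mono_surj (hc : ∀ i, c i ≠ 0) {k : ℕ} (hk : ∑ i, d i < 2 * k) (r : ℕ) :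
    ∀ j, ∑ i, d i < k + j + r → ∀ h : MvPolynomial (Fin n) K, h.IsHomogeneous (k + j) →
      ∃ g, (lowOp c d)^[j] h - lin c * g ∈ mono K d := by
  induction r with
  | zero =>
    intro j hj h hh
    refine ⟨0, ?_⟩
    rw [mul_zero, sub_zero]
    exact Mono_iter_mem c d j (Mono_large d hj hh)
  | succ r ih =>
    intro j hj h hh
    have h1 : (lin c * h).IsHomogeneous (k + (j + 1)) := by
      have := (Mono_lin_hom c).mul hh
      rwa [add_comm 1 (k + j), add_assoc] at this
    obtain ⟨g, hg⟩ := ih (j + 1) (by omega) (lin c * h) h1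
    rw [Mono_iter c d hc j hh] at hg
    have ha : ((j : K) + 1) * (((∑ i, d i : ℕ) : K) - 2 * k - j) ≠ 0 := by
      have h3 : ((j : K) + 1) * (((∑ i, d i : ℕ) : K) - 2 * k - j) =
          - (((j + 1) * (2 * k + j - ∑ i, d i) : ℕ) : K) := by
        rw [Nat.cast_mul, Nat.cast_sub (by omega)]
        push_cast
        ring
      rw [h3, neg_ne_zero, Nat.cast_ne_zero]
      exact Nat.mul_ne_zero (by omega) (by omega)
    set a := ((j : K) + 1) * (((∑ i, d i : ℕ) : K) - 2 * k - j) with hadef
    refine ⟨C a⁻¹ * (g - (lowOp c d)^[j + 1] h), Mono_C_cancel d ha ?_⟩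
    have h4 : (C a : MvPolynomial (Fin n) K) * C a⁻¹ = 1 := by
      rw [← C_mul, mul_inv_cancel₀ ha, C_1]
    have h5 : C a * ((lowOp c d)^[j] h - lin c * (C a⁻¹ * (g - (lowOp c d)^[j + 1] h))) =
        lin c * (lowOp c d)^[j + 1] h + C a * (lowOp c d)^[j] h - lin c * g := by
      linear_combination - lin c * (g - (lowOp c d)^[j + 1] h) * h4
    rw [h5]
    exact hg

end

theorem tMono : StmtMono := by
  intro n K _ _ c d hc
  refine ⟨fun k => (Mono_first c d hc k).1, fun k => (Mono_first c d hc k).2,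
    fun k g hg hk => ?_⟩
  obtain ⟨h, hh⟩ := Mono_surj c d hc hk (∑ i, d i + 1) 0 (by omega) g hg
  exact ⟨h, hh⟩

end Pool.Agent.Lib.MP_adb389_ag
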