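import Pool.Agent.Lib.MP_adb389_ag.Spec

/-!
Module MonoHR: Hodge-Riemann relations of the monomial complete intersection.

`phi P` is the functional `x^a ↦ P a`, `A N = (1 + x)^N`, `wt a = a! / c^a`. If `P` is homogeneous of
degree `k` and `∑_i (d_i - a_i) P (a + e_i) = 0` then `phi ((1+x)^N x^u) = 0` for `N + u = d`, `|u| ≠ k`
(Euler operator), hence `phi ((1+x)^N x^u) = (-1)^|w| P (u + w)` for `N + u + w = d`, `|u| + |w| = k`
(induction on `|w|`, Pascal). For `P a = wt a * coeff a f` the coefficients of `l^m f` are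
`m! phi ((1+x)^e) / wt e`.
-/

set_option autoImplicit false

namespace Pool.Agent.Lib.MP_adb389_ag

open MvPolynomial Finset

section

variable {n : ℕ}

/-! ### The functional and the powers of `1 + x` -/

/-- The functional `x^a ↦ P a`. -/
noncomputable def MonoHR_phi (P : (Fin n →₀ ℕ) → ℝ) : MvPolynomial (Fin n) ℝ →ₗ[ℝ] ℝ :=
  (MvPolynomial.basisMonomials (Fin n) ℝ).constr ℝ P

theorem MonoHR_phi_monomial (P : (Fin n →₀ ℕ) → ℝ) (a : Fin n →₀ ℕ) (z : ℝ) :
    MonoHR_phi P (monomial a z) = z * P a := by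
  have h : (monomial a z : MvPolynomial (Fin n) ℝ) =
      z • MvPolynomial.basisMonomials (Fin n) ℝ a := by
    rw [MvPolynomial.coe_basisMonomials, smul_monomial, smul_eq_mul, mul_one]
  rw [h, map_smul, MonoHR_phi, Module.Basis.constr_basis, smul_eq_mul]

theorem MonoHR_phi_C (P : (Fin n →₀ ℕ) → ℝ) (z : ℝ) (g : MvPolynomial (Fin n) ℝ) :
    MonoHR_phi P (C z * g) = z * MonoHR_phi P g := by
  rw [C_mul', map_smul, smul_eq_mul]

/-- `(1+x)^N`. -/
noncomputable def MonoHR_A (N : Fin n →₀ ℕ) : MvPolynomial (Fin n) ℝ :=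
  N.prod fun i m => (1 + X i) ^ m

theorem MonoHR_A_zero : MonoHR_A (0 : Fin n →₀ ℕ) = 1 := Finsupp.prod_zero_index

theorem MonoHR_A_add (M N : Fin n →₀ ℕ) : MonoHR_A (M + N) = MonoHR_A M * MonoHR_A N :=
  Finsupp.prod_add_index' (fun _ => pow_zero _) (fun _ _ _ => pow_add _ _ _)

theorem MonoHR_A_single (i : Fin n) (m : ℕ) :
    MonoHR_A (Finsupp.single i m) = (1 + X i) ^ m :=
  Finsupp.prod_single_index (pow_zero _)

theorem MonoHR_A_succ (N : Fin n →₀ ℕ) (i : Fin n) :
    MonoHR_A (N + Finsupp.single i 1) = MonoHR_A N * (1 + X i) := by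
  rw [MonoHR_A_add, MonoHR_A_single, pow_one]

/-- Logarithmic derivative. -/
theorem MonoHR_LD (N : Fin n →₀ ℕ) (i : Fin n) :
    (1 + X i) * pderiv i (MonoHR_A N) = C (N i : ℝ) * MonoHR_A N := by
  classical
  induction N using Finsupp.induction_linear with
  | zero => rw [MonoHR_A_zero, pderiv_one]; simp
  | add M N hM hN =>
    rw [MonoHR_A_add, pderiv_mul, Finsupp.add_apply, Nat.cast_add, map_add]
    linear_combination MonoHR_A N * hM + MonoHR_A M * hN
  | single j m =>
    rw [MonoHR_A_single]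
    by_cases hij : j = i
    · subst hij
      rw [Finsupp.single_eq_same, pderiv_pow, map_add, pderiv_one, pderiv_X_self, zero_add, mul_one]
      cases m with
      | zero => simp
      | succ m =>
        rw [Nat.add_sub_cancel, pow_succ, Nat.cast_succ, Nat.cast_succ, map_add, map_one,
          map_natCast]
        ring
    · rw [Finsupp.single_eq_of_ne (Ne.symm hij), pderiv_pow, map_add, pderiv_one,
        pderiv_X_of_ne hij]
      simp

theorem MonoHR_one_add_X_ne (i : Fin n) : (1 + X i : MvPolynomial (Fin n) ℝ) ≠ 0 := by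
  intro h
  have h1 := congrArg (constantCoeff (R := ℝ) (σ := Fin n)) h
  rw [map_add, map_one, constantCoeff_X, add_zero, map_zero] at h1
  exact one_ne_zero h1

theorem MonoHR_pderiv_A (N : Fin n →₀ ℕ) (i : Fin n) :
    pderiv i (MonoHR_A N) = C (N i : ℝ) * MonoHR_A (N - Finsupp.single i 1) := by
  apply mul_left_cancel₀ (MonoHR_one_add_X_ne i)
  rw [MonoHR_LD]
  by_cases h : N i = 0
  · rw [h]
    simp
  · have h1 : N - Finsupp.single i 1 + Finsupp.single i 1 = N :=
      Finsupp.sub_add_single_one_cancel h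
    have h2 := MonoHR_A_succ (N - Finsupp.single i 1 : Fin n →₀ ℕ) i
    rw [h1] at h2
    rw [h2]
    ring

/-- Euler operator. -/
theorem MonoHR_euler {P : (Fin n →₀ ℕ) → ℝ} {k : ℕ} (hP : ∀ a, ∑ i, a i ≠ k → P a = 0)
    (g : MvPolynomial (Fin n) ℝ) :
    MonoHR_phi P (∑ i, X i * pderiv i g) = k * MonoHR_phi P g := by
  induction g using MvPolynomial.induction_on' with
  | add p q hp hq =>
    simp only [map_add, mul_add, Finset.sum_add_distrib] at hp hq ⊢
    rw [hp, hq]
  | monomial a z =>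
    simp only [X_mul_pderiv_monomial]
    rw [← Finset.sum_smul, map_nsmul, MonoHR_phi_monomial, nsmul_eq_mul]
    by_cases h : ∑ i, a i = k
    · rw [h]
    · rw [hP a h]
      ring

/-- The condition on `P`: `x^a ↦ ∑ (d_i - a_i) P (a + e_i)` vanishes. -/
theorem MonoHR_low {P : (Fin n →₀ ℕ) → ℝ} {d : Fin n → ℕ}
    (hP : ∀ a : Fin n →₀ ℕ, ∑ i, ((d i : ℝ) - a i) * P (a + Finsupp.single i 1) = 0)
    (g : MvPolynomial (Fin n) ℝ) :
    MonoHR_phi P (∑ i, (C (d i : ℝ) * (X i * g) - X i * (X i * pderiv i g))) = 0 := by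
  induction g using MvPolynomial.induction_on' with
  | add p q hp hq =>
    have h : (∑ i, (C (d i : ℝ) * (X i * (p + q)) - X i * (X i * pderiv i (p + q)))) =
        (∑ i, (C (d i : ℝ) * (X i * p) - X i * (X i * pderiv i p))) +
          ∑ i, (C (d i : ℝ) * (X i * q) - X i * (X i * pderiv i q)) := by
      rw [← Finset.sum_add_distrib]
      refine Finset.sum_congr rfl fun i _ => ?_
      rw [map_add]
      ring
    rw [h, map_add, hp, hq, add_zero]
  | monomial a z =>
    have h : ∀ i : Fin n, MonoHR_phi P (C (d i : ℝ) * (X i * monomial a z) -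
        X i * (X i * pderiv i (monomial a z))) =
        z * (((d i : ℝ) - a i) * P (a + Finsupp.single i 1)) := by
      intro i
      have h1 : (X i * monomial a z : MvPolynomial (Fin n) ℝ) =
          monomial (a + Finsupp.single i 1 : Fin n →₀ ℕ) z := by
        rw [X, monomial_mul, one_mul, add_comm]
      rw [X_mul_pderiv_monomial, mul_smul_comm, h1, map_sub, MonoHR_phi_C, map_nsmul,
        MonoHR_phi_monomial, nsmul_eq_mul]
      ring
    rw [map_sum, Finset.sum_congr rfl fun i _ => h i, ← Finset.mul_sum, hP a, mul_zero]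

/-- `(1+x)^N x^u`. -/
noncomputable def MonoHR_W (N u : Fin n →₀ ℕ) : MvPolynomial (Fin n) ℝ :=
  MonoHR_A N * monomial u 1

theorem MonoHR_W_succ (N u : Fin n →₀ ℕ) (i : Fin n) :
    MonoHR_W (N + Finsupp.single i 1 : Fin n →₀ ℕ) u = MonoHR_W N u + MonoHR_W N (u + Finsupp.single i 1) := by
  have h1 : (monomial (u + Finsupp.single i 1 : Fin n →₀ ℕ) 1 : MvPolynomial (Fin n) ℝ) =
      monomial u 1 * X i := by
    rw [X, monomial_mul, one_mul]
  unfold MonoHR_W
  rw [MonoHR_A_succ, h1]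
  ring

theorem MonoHR_W_deriv (N u : Fin n →₀ ℕ) (i : Fin n) :
    X i * (1 + X i) * pderiv i (MonoHR_W N u) =
      (C (u i : ℝ) * (1 + X i) + C (N i : ℝ) * X i) * MonoHR_W N u := by
  have h1 := MonoHR_LD N i
  have h2 : (X i * pderiv i (monomial u 1) : MvPolynomial (Fin n) ℝ) =
      C (u i : ℝ) * monomial u 1 := by
    rw [X_mul_pderiv_monomial, nsmul_eq_mul, map_natCast]
  unfold MonoHR_W
  rw [pderiv_mul]
  linear_combination (X i * monomial u 1) * h1 + ((1 + X i) * MonoHR_A N) * h2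

/-- The main vanishing. -/
theorem MonoHR_T {P : (Fin n →₀ ℕ) → ℝ} {k : ℕ} {d : Fin n → ℕ}
    (hk : ∀ a, ∑ i, a i ≠ k → P a = 0)
    (hP : ∀ a : Fin n →₀ ℕ, ∑ i, ((d i : ℝ) - a i) * P (a + Finsupp.single i 1) = 0)
    (N u : Fin n →₀ ℕ) (hN : ∀ i, N i + u i = d i) (hu : ∑ i, u i ≠ k) :
    MonoHR_phi P (MonoHR_W N u) = 0 := by
  have h1 := MonoHR_euler hk (MonoHR_W N u)
  have h2 := MonoHR_low hP (MonoHR_W N u)
  have h3 : (∑ i, X i * pderiv i (MonoHR_W N u)) - C ((∑ i, u i : ℕ) : ℝ) * MonoHR_W N u =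
      ∑ i, (C (d i : ℝ) * (X i * MonoHR_W N u) - X i * (X i * pderiv i (MonoHR_W N u))) := by
    have h4 : C ((∑ i, u i : ℕ) : ℝ) * MonoHR_W N u = ∑ i, C (u i : ℝ) * MonoHR_W N u := by
      rw [Nat.cast_sum, map_sum, Finset.sum_mul]
    rw [h4, ← Finset.sum_sub_distrib]
    refine Finset.sum_congr rfl fun i _ => ?_
    have h5 := MonoHR_W_deriv N u i
    rw [← hN i, Nat.cast_add, map_add]
    linear_combination h5
  rw [← h3, map_sub, MonoHR_phi_C, h1, ← sub_mul] at h2
  rcases mul_eq_zero.1 h2 with h6 | h6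
  · exfalso
    refine hu ?_
    have h7 : (k : ℝ) = ((∑ i, u i : ℕ) : ℝ) := sub_eq_zero.1 h6
    exact_mod_cast h7.symm
  · exact h6

/-- Monomials of large degree. -/
theorem MonoHR_top {P : (Fin n →₀ ℕ) → ℝ} {k : ℕ} (hk : ∀ a, ∑ i, a i ≠ k → P a = 0)
    (u : Fin n →₀ ℕ) (hu : ∑ i, u i = k) (g : MvPolynomial (Fin n) ℝ) :
    MonoHR_phi P (g * monomial u 1) = coeff 0 g * P u := by
  induction g using MvPolynomial.induction_on' with
  | add p q hp hq => rw [add_mul, map_add, hp, hq, coeff_add, add_mul]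
  | monomial a z =>
    rw [monomial_mul, mul_one, MonoHR_phi_monomial, coeff_monomial]
    by_cases ha : a = 0
    · rw [if_pos ha, ha, zero_add]
    · rw [if_neg ha, zero_mul]
      have h1 : ∑ i, a i ≠ 0 := by
        intro h0
        refine ha (Finsupp.ext fun i => ?_)
        exact Finset.sum_eq_zero_iff.1 h0 i (Finset.mem_univ i)
      rw [hk, mul_zero]
      have h2 : ∑ i, (a + u) i = ∑ i, a i + ∑ i, u i := by
        simp only [Finsupp.add_apply, Finset.sum_add_distrib]
      rw [h2]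
      omega

theorem MonoHR_A_coeff (N : Fin n →₀ ℕ) : coeff 0 (MonoHR_A N) = 1 := by
  induction N using Finsupp.induction_linear with
  | zero => rw [MonoHR_A_zero, coeff_zero_one]
  | add M N hM hN =>
    rw [MonoHR_A_add]
    have h := map_mul (constantCoeff (R := ℝ) (σ := Fin n)) (MonoHR_A M) (MonoHR_A N)
    have h' : coeff 0 (MonoHR_A M * MonoHR_A N) =
        coeff 0 (MonoHR_A M) * coeff 0 (MonoHR_A N) := h
    rw [h', hM, hN, one_mul]
  | single j m =>
    rw [MonoHR_A_single]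
    have h : constantCoeff ((1 + X j : MvPolynomial (Fin n) ℝ) ^ m) = 1 := by
      rw [map_pow, map_add, map_one, constantCoeff_X, add_zero, one_pow]
    exact h

theorem MonoHR_sum_succ (u : Fin n →₀ ℕ) (i : Fin n) :
    ∑ j, (u + Finsupp.single i 1 : Fin n →₀ ℕ) j = ∑ j, u j + 1 := by
  classical
  simp only [Finsupp.add_apply, Finset.sum_add_distrib, Finsupp.single_apply, Finset.sum_ite_eq,
    Finset.mem_univ, if_true]

theorem MonoHR_split {w : Fin n →₀ ℕ} {s : ℕ} (hw : ∑ i, w i = s + 1) :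
    ∃ (i : Fin n) (w' : Fin n →₀ ℕ), w = w' + Finsupp.single i 1 ∧ ∑ j, w' j = s := by
  have h1 : ∃ i, w i ≠ 0 := by
    by_contra hcon
    push Not at hcon
    have h2 : ∑ i, w i = 0 := Finset.sum_eq_zero fun i _ => hcon i
    omega
  obtain ⟨i, hi⟩ := h1
  have h3 := (Finsupp.sub_add_single_one_cancel hi).symm
  refine ⟨i, w - Finsupp.single i 1, h3, ?_⟩
  rw [h3, MonoHR_sum_succ] at hw
  omega

/-- The functional on `(1+x)^N x^u` for `N + u + w = d`. -/
theorem MonoHR_S {P : (Fin n →₀ ℕ) → ℝ} {k : ℕ} {d : Fin n → ℕ}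
    (hk : ∀ a, ∑ i, a i ≠ k → P a = 0)
    (hP : ∀ a : Fin n →₀ ℕ, ∑ i, ((d i : ℝ) - a i) * P (a + Finsupp.single i 1) = 0)
    (s : ℕ) : ∀ w N u : Fin n →₀ ℕ, (∀ i, N i + u i + w i = d i) → ∑ i, w i = s →
      (∑ i, u i + s < k → MonoHR_phi P (MonoHR_W N u) = 0) ∧
      (∑ i, u i + s = k → MonoHR_phi P (MonoHR_W N u) = (-1) ^ s * P (u + w)) := by
  induction s with
  | zero =>
    intro w N u hd hw
    have hw0 : w = 0 := Finsupp.ext fun i => Finset.sum_eq_zero_iff.1 hw i (Finset.mem_univ i)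
    subst hw0
    refine ⟨fun h => MonoHR_T hk hP N u (fun i => by simpa using hd i) (by omega), fun h => ?_⟩
    have h1 := MonoHR_top hk u (by simpa using h) (MonoHR_A N)
    rw [MonoHR_A_coeff, one_mul] at h1
    rw [pow_zero, one_mul, add_zero]
    exact h1
  | succ s ih =>
    intro w N u hd hw
    obtain ⟨i, w', rfl, hw'⟩ := MonoHR_split hw
    have h1 := ih w' (N + Finsupp.single i 1 : Fin n →₀ ℕ) u (fun j => by
      rw [← hd j, Finsupp.add_apply, Finsupp.add_apply]
      ring) hw'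
    have h2 := ih w' N (u + Finsupp.single i 1) (fun j => by
      rw [← hd j, Finsupp.add_apply, Finsupp.add_apply]
      ring) hw'
    rw [MonoHR_sum_succ] at h2
    rw [MonoHR_W_succ, map_add] at h1
    refine ⟨fun h => ?_, fun h => ?_⟩
    · have h3 := h1.1 (by omega)
      rw [h2.1 (by omega), add_zero] at h3
      exact h3
    · have h3 := h1.1 (by omega)
      rw [h2.2 (by omega), add_assoc u, add_comm (Finsupp.single i 1) w'] at h3
      rw [pow_succ]
      linear_combination h3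

/-- Top degree part of `(1+x)^N x^u`. -/
theorem MonoHR_base {P : (Fin n →₀ ℕ) → ℝ} {k : ℕ} (hk : ∀ a, ∑ i, a i ≠ k → P a = 0)
    (s : ℕ) : ∀ N u : Fin n →₀ ℕ, ∑ i, N i = s →
      (∑ i, u i + s < k → MonoHR_phi P (MonoHR_W N u) = 0) ∧
      (∑ i, u i + s = k → MonoHR_phi P (MonoHR_W N u) = P (u + N)) := by
  induction s with
  | zero =>
    intro N u hN
    have hN0 : N = 0 := Finsupp.ext fun i => Finset.sum_eq_zero_iff.1 hN i (Finset.mem_univ i)
    subst hN0
    have h1 : MonoHR_phi P (MonoHR_W 0 u) = P u := by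
      unfold MonoHR_W
      rw [MonoHR_A_zero, one_mul, MonoHR_phi_monomial, one_mul]
    rw [h1]
    refine ⟨fun h => hk u (by omega), fun h => by rw [add_zero]⟩
  | succ s ih =>
    intro N u hN
    obtain ⟨i, N', rfl, hN'⟩ := MonoHR_split hN
    have h1 := ih N' u hN'
    have h2 := ih N' (u + Finsupp.single i 1) hN'
    rw [MonoHR_sum_succ] at h2
    rw [MonoHR_W_succ, map_add]
    refine ⟨fun h => ?_, fun h => ?_⟩
    · rw [h1.1 (by omega), h2.1 (by omega), add_zero]
    · rw [h1.1 (by omega), h2.2 (by omega), zero_add, add_assoc u,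
        add_comm (Finsupp.single i 1) N']

/-! ### The coefficients of `l^m f` -/

/-- `a! / c^a`. -/
noncomputable def MonoHR_wt (c : Fin n → ℝ) (a : Fin n →₀ ℕ) : ℝ :=
  ∏ i, ((a i).factorial : ℝ) / c i ^ a i

theorem MonoHR_wt_pos {c : Fin n → ℝ} (hc : ∀ i, 0 < c i) (a : Fin n →₀ ℕ) :
    0 < MonoHR_wt c a := by
  refine Finset.prod_pos fun i _ => div_pos ?_ (pow_pos (hc i) _)
  exact_mod_cast Nat.factorial_pos _

theorem MonoHR_wt_succ {c : Fin n → ℝ} (hc : ∀ i, 0 < c i) (a : Fin n →₀ ℕ) (i : Fin n) :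
    MonoHR_wt c (a + Finsupp.single i 1) = MonoHR_wt c a * (((a i : ℝ) + 1) / c i) := by
  classical
  unfold MonoHR_wt
  rw [← Finset.mul_prod_erase Finset.univ _ (Finset.mem_univ i),
    ← Finset.mul_prod_erase Finset.univ (fun j => ((a j).factorial : ℝ) / c j ^ a j)
      (Finset.mem_univ i)]
  have h1 : ∏ j ∈ Finset.univ.erase i, (((a + Finsupp.single i 1 : Fin n →₀ ℕ) j).factorial : ℝ) /
      c j ^ ((a + Finsupp.single i 1 : Fin n →₀ ℕ) j) =
      ∏ j ∈ Finset.univ.erase i, ((a j).factorial : ℝ) / c j ^ a j := by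
    refine Finset.prod_congr rfl fun j hj => ?_
    rw [Finsupp.add_apply, Finsupp.single_eq_of_ne (Finset.ne_of_mem_erase hj), add_zero]
  rw [h1, Finsupp.add_apply, Finsupp.single_eq_same, Nat.factorial_succ, pow_succ]
  have h2 := (hc i).ne'
  push_cast
  field_simp

/-- Multiplication by the linear form. -/
theorem MonoHR_lin {c : Fin n → ℝ} (hc : ∀ i, 0 < c i) (e : Fin n →₀ ℕ)
    (g : MvPolynomial (Fin n) ℝ) :
    MonoHR_wt c e * coeff e (lin c * g) =
      ∑ i, (e i : ℝ) * (MonoHR_wt c (e - Finsupp.single i 1) *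
        coeff (e - Finsupp.single i 1 : Fin n →₀ ℕ) g) := by
  unfold lin
  rw [Finset.sum_mul, coeff_sum, Finset.mul_sum]
  refine Finset.sum_congr rfl fun i _ => ?_
  rw [mul_assoc, coeff_C_mul, coeff_X_mul']
  by_cases h : e i = 0
  · rw [if_neg (by rw [Finsupp.mem_support_iff, not_not]; exact h), h]
    simp
  · rw [if_pos (Finsupp.mem_support_iff.2 h)]
    have h1 := MonoHR_wt_succ hc (e - Finsupp.single i 1 : Fin n →₀ ℕ) i
    rw [Finsupp.sub_add_single_one_cancel h] at h1
    have h2 : (((e - Finsupp.single i 1 : Fin n →₀ ℕ) i : ℕ) : ℝ) + 1 = e i := by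
      rw [Finsupp.tsub_apply, Finsupp.single_eq_same]
      have : 1 ≤ e i := Nat.one_le_iff_ne_zero.2 h
      push_cast [Nat.cast_sub this]
      ring
    rw [h2] at h1
    rw [h1]
    have h3 := (hc i).ne'
    field_simp

/-- The coefficients of `l^m f`. -/
theorem MonoHR_pow {c : Fin n → ℝ} (hc : ∀ i, 0 < c i) {k : ℕ} {f : MvPolynomial (Fin n) ℝ}
    (hf : ∀ a : Fin n →₀ ℕ, ∑ i, a i ≠ k → coeff a f = 0) (m : ℕ) :
    ∀ e : Fin n →₀ ℕ, ∑ i, e i = k + m →
      MonoHR_wt c e * coeff e (lin c ^ m * f) =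
        m.factorial * MonoHR_phi (fun a => MonoHR_wt c a * coeff a f) (MonoHR_A e) := by
  have hk : ∀ a : Fin n →₀ ℕ, ∑ i, a i ≠ k → (fun a => MonoHR_wt c a * coeff a f) a = 0 := by
    intro a ha
    show MonoHR_wt c a * coeff a f = 0
    rw [hf a ha, mul_zero]
  induction m with
  | zero =>
    intro e he
    have h1 := (MonoHR_base hk k e 0 (by simpa using he)).2 (by simp)
    unfold MonoHR_W at h1
    rw [monomial_zero', C_1, mul_one, zero_add] at h1
    rw [h1, pow_zero, one_mul, Nat.factorial_zero, Nat.cast_one, one_mul]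
  | succ m ih =>
    intro e he
    rw [pow_succ', mul_assoc, MonoHR_lin hc]
    have h1 : ∀ i : Fin n, (e i : ℝ) * (MonoHR_wt c (e - Finsupp.single i 1) *
        coeff (e - Finsupp.single i 1) (lin c ^ m * f)) =
        m.factorial * MonoHR_phi (fun a => MonoHR_wt c a * coeff a f)
          (pderiv i (MonoHR_A e)) := by
      intro i
      rw [MonoHR_pderiv_A, MonoHR_phi_C]
      by_cases h : e i = 0
      · rw [h]
        simp
      · rw [ih]
        · ring
        · have h2 := MonoHR_sum_succ (e - Finsupp.single i 1 : Fin n →₀ ℕ) i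
          rw [Finsupp.sub_add_single_one_cancel h] at h2
          omega
    rw [Finset.sum_congr rfl fun i _ => h1 i, ← Finset.mul_sum, ← map_sum]
    have h3 : ∑ i, pderiv i (MonoHR_A e) = C ((∑ i, e i : ℕ) : ℝ) * MonoHR_A e -
        ∑ i, X i * pderiv i (MonoHR_A e) := by
      have h4 : C ((∑ i, e i : ℕ) : ℝ) * MonoHR_A e = ∑ i, C (e i : ℝ) * MonoHR_A e := by
        rw [Nat.cast_sum, map_sum, Finset.sum_mul]
      rw [h4, ← Finset.sum_sub_distrib]
      refine Finset.sum_congr rfl fun i _ => ?_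
      have h5 := MonoHR_LD e i
      linear_combination h5
    rw [h3, map_sub, MonoHR_phi_C, MonoHR_euler hk, he, Nat.factorial_succ]
    push_cast
    ring

/-! ### The monomial ideal -/

theorem MonoHR_mem {d : Fin n → ℕ} {f : MvPolynomial (Fin n) ℝ} :
    f ∈ mono ℝ d ↔ ∀ a : Fin n →₀ ℕ, (∀ i, a i ≤ d i) → coeff a f = 0 := by
  have h1 : mono ℝ d = Ideal.span ((fun s => monomial s (1 : ℝ)) ''
      (Set.range fun i : Fin n => Finsupp.single i (d i + 1))) := by
    unfold mono
    rw [← Set.range_comp]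
    congr 2
    funext i
    exact X_pow_eq_monomial
  rw [h1, mem_ideal_span_monomial_image]
  constructor
  · intro h a ha
    by_contra hne
    obtain ⟨s, ⟨i, rfl⟩, hs⟩ := h a (mem_support_iff.2 hne)
    have h2 := hs i
    rw [Finsupp.single_eq_same] at h2
    have h3 := ha i
    omega
  · intro h a ha
    rw [mem_support_iff] at ha
    by_contra hcon
    push Not at hcon
    refine ha (h a fun i => ?_)
    have h2 := hcon (Finsupp.single i (d i + 1)) ⟨i, rfl⟩
    by_contra h3
    refine h2 ?_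
    rw [Finsupp.single_le_iff]
    omega

theorem MonoHR_coeff_low {c : Fin n → ℝ} {d : Fin n → ℕ} (f : MvPolynomial (Fin n) ℝ)
    (a : Fin n →₀ ℕ) : coeff a (lowOp c d f) = ∑ i, (c i)⁻¹ * (((d i : ℝ) - a i) *
      (((a i : ℝ) + 1) * coeff (a + Finsupp.single i 1 : Fin n →₀ ℕ) f)) := by
  unfold lowOp
  rw [coeff_sum]
  refine Finset.sum_congr rfl fun i _ => ?_
  rw [coeff_C_mul, coeff_sub, coeff_C_mul, coeff_pderiv, coeff_X_mul']
  by_cases h : a i = 0
  · rw [if_neg (by rw [Finsupp.mem_support_iff, not_not]; exact h), h]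
    push_cast
    ring
  · rw [if_pos (Finsupp.mem_support_iff.2 h), coeff_pderiv,
      Finsupp.sub_add_single_one_cancel h, coeff_pderiv]
    have h2 : (((a - Finsupp.single i 1 : Fin n →₀ ℕ) i : ℕ) : ℝ) + 1 = a i := by
      rw [Finsupp.tsub_apply, Finsupp.single_eq_same]
      have : 1 ≤ a i := Nat.one_le_iff_ne_zero.2 h
      push_cast [Nat.cast_sub this]
      ring
    rw [h2]
    ring

/-- The part of `f` supported on `a ≤ d`. -/
theorem MonoHR_trunc (d : Fin n → ℕ) (f : MvPolynomial (Fin n) ℝ) :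
    ∃ f' : MvPolynomial (Fin n) ℝ, ∀ a : Fin n →₀ ℕ,
      ((∀ i, a i ≤ d i) → coeff a f' = coeff a f) ∧
      (¬ (∀ i, a i ≤ d i) → coeff a f' = 0) := by
  classical
  refine ⟨∑ b ∈ f.support.filter (fun b => ∀ i, b i ≤ d i), monomial b (coeff b f),
    fun a => ⟨fun ha => ?_, fun ha => ?_⟩⟩
  · rw [coeff_sum]
    simp only [coeff_monomial]
    rw [Finset.sum_ite_eq']
    by_cases h : coeff a f = 0
    · rw [h, ite_self]
    · rw [if_pos (Finset.mem_filter.2 ⟨mem_support_iff.2 h, ha⟩)]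
  · rw [coeff_sum]
    refine Finset.sum_eq_zero fun b hb => ?_
    rw [coeff_monomial, if_neg]
    rintro rfl
    exact ha (Finset.mem_filter.1 hb).2

end

/-- Hodge-Riemann relations of the monomial complete intersection. -/
theorem tMonoHR : StmtMonoHR := by
  intro n c d k f hc hf hkd hlow
  obtain ⟨f', hf'⟩ := MonoHR_trunc d f
  have hdF : ∀ i, dF d i = d i := fun i => rfl
  have hhom : ∀ a : Fin n →₀ ℕ, ∑ i, a i ≠ k → coeff a f = 0 := by
    intro a ha
    refine hf.coeff_eq_zero ?_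
    rwa [Finsupp.degree_eq_sum]
  have hhom' : ∀ a : Fin n →₀ ℕ, ∑ i, a i ≠ k → coeff a f' = 0 := by
    intro a ha
    by_cases h : ∀ i, a i ≤ d i
    · rw [(hf' a).1 h, hhom a ha]
    · exact (hf' a).2 h
  have hdiff : f - f' ∈ mono ℝ d := by
    rw [MonoHR_mem]
    intro a ha
    rw [coeff_sub, (hf' a).1 ha, sub_self]
  have hsq : coeff (dF d) (lin c ^ (∑ i, d i - 2 * k) * (f * f)) =
      coeff (dF d) (lin c ^ (∑ i, d i - 2 * k) * (f' * f')) := by
    have h1 : lin c ^ (∑ i, d i - 2 * k) * (f * f) - lin c ^ (∑ i, d i - 2 * k) * (f' * f') ∈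
        mono ℝ d := by
      have h2 := (mono ℝ d).mul_mem_left (lin c ^ (∑ i, d i - 2 * k) * (f + f')) hdiff
      have h3 : lin c ^ (∑ i, d i - 2 * k) * (f + f') * (f - f') =
          lin c ^ (∑ i, d i - 2 * k) * (f * f) - lin c ^ (∑ i, d i - 2 * k) * (f' * f') := by
        ring
      rwa [h3] at h2
    have h4 := MonoHR_mem.1 h1 (dF d) (fun i => le_rfl)
    rw [coeff_sub, sub_eq_zero] at h4
    exact h4
  have hP : ∀ a : Fin n →₀ ℕ, ∑ i, ((d i : ℝ) - a i) *
      (fun a => MonoHR_wt c a * coeff a f') (a + Finsupp.single i 1) = 0 := by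
    intro a
    by_cases ha : ∀ i, a i ≤ d i
    · have h1 := MonoHR_mem.1 hlow a ha
      rw [MonoHR_coeff_low] at h1
      have h2 : ∀ i, ((d i : ℝ) - a i) *
          (fun a => MonoHR_wt c a * coeff a f') (a + Finsupp.single i 1) =
          MonoHR_wt c a * ((c i)⁻¹ * (((d i : ℝ) - a i) *
            (((a i : ℝ) + 1) * coeff (a + Finsupp.single i 1 : Fin n →₀ ℕ) f))) := by
        intro i
        show ((d i : ℝ) - a i) * (MonoHR_wt c (a + Finsupp.single i 1) *
          coeff (a + Finsupp.single i 1 : Fin n →₀ ℕ) f') = _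
        by_cases h3 : a i = d i
        · rw [h3]
          ring
        · have h4 : ∀ j, (a + Finsupp.single i 1 : Fin n →₀ ℕ) j ≤ d j := by
            classical
            intro j
            rw [Finsupp.add_apply, Finsupp.single_apply]
            have h5 := ha j
            by_cases hij : i = j
            · subst hij
              rw [if_pos rfl]
              omega
            · rw [if_neg hij]
              omega
          rw [(hf' _).1 h4, MonoHR_wt_succ hc]
          ring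
      rw [Finset.sum_congr rfl fun i _ => h2 i, ← Finset.mul_sum, h1, mul_zero]
    · refine Finset.sum_eq_zero fun i _ => ?_
      show ((d i : ℝ) - a i) * (MonoHR_wt c (a + Finsupp.single i 1) *
        coeff (a + Finsupp.single i 1 : Fin n →₀ ℕ) f') = 0
      rw [(hf' _).2, mul_zero, mul_zero]
      intro h
      refine ha fun j => ?_
      have h5 := h j
      rw [Finsupp.add_apply] at h5
      omega
  have hk : ∀ a : Fin n →₀ ℕ, ∑ i, a i ≠ k → (fun a => MonoHR_wt c a * coeff a f') a = 0 := by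
    intro a ha
    show MonoHR_wt c a * coeff a f' = 0
    rw [hhom' a ha, mul_zero]
  have hterm : ∀ p ∈ Finset.HasAntidiagonal.antidiagonal (dF d), (-1) ^ k * (coeff p.1 f' *
      coeff p.2 (lin c ^ (∑ i, d i - 2 * k) * f')) =
      ((∑ i, d i - 2 * k).factorial : ℝ) * (MonoHR_wt c p.1 / MonoHR_wt c p.2) *
        coeff p.1 f' ^ 2 := by
    rintro ⟨b, e⟩ hp
    rw [Finset.HasAntidiagonal.mem_antidiagonal] at hp
    have hbe : ∀ i, b i + e i = d i := fun i => by
      rw [← hdF i, ← hp]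
      rfl
    dsimp only
    by_cases hb : ∑ i, b i = k
    · have h1 : ∑ i, b i + ∑ i, e i = ∑ i, d i := by
        rw [← Finset.sum_add_distrib]
        exact Finset.sum_congr rfl fun i _ => hbe i
      have h2 := MonoHR_pow hc hhom' (∑ i, d i - 2 * k) e (by omega)
      have h3 := (MonoHR_S hk hP k b e 0 (fun i => by
        rw [← hbe i]
        simp [add_comm]) hb).2 (by simp)
      unfold MonoHR_W at h3
      rw [monomial_zero', C_1, mul_one, zero_add] at h3
      rw [h3] at h2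
      have hw := (MonoHR_wt_pos hc e).ne'
      have h4 : coeff e (lin c ^ (∑ i, d i - 2 * k) * f') =
          ((∑ i, d i - 2 * k).factorial : ℝ) * ((-1) ^ k * (MonoHR_wt c b * coeff b f')) /
            MonoHR_wt c e := by
        rw [eq_div_iff hw, mul_comm]
        exact h2
      have h5 : ((-1 : ℝ) ^ k) * (-1) ^ k = 1 := by
        rw [← mul_pow, neg_one_mul, neg_neg, one_pow]
      rw [h4]
      field_simp
      linear_combination (MonoHR_wt c b * coeff b f' ^ 2) * h5
    · rw [hhom' b hb]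
      ring
  have hmain : (-1) ^ k * coeff (dF d) (lin c ^ (∑ i, d i - 2 * k) * (f' * f')) =
      ∑ p ∈ Finset.HasAntidiagonal.antidiagonal (dF d), ((∑ i, d i - 2 * k).factorial : ℝ) *
        (MonoHR_wt c p.1 / MonoHR_wt c p.2) * coeff p.1 f' ^ 2 := by
    have h1 : lin c ^ (∑ i, d i - 2 * k) * (f' * f') =
        f' * (lin c ^ (∑ i, d i - 2 * k) * f') := by ring
    rw [h1, coeff_mul, Finset.mul_sum]
    exact Finset.sum_congr rfl hterm
  have hfac : (0 : ℝ) < ((∑ i, d i - 2 * k).factorial : ℝ) := by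
    exact_mod_cast Nat.factorial_pos _
  have hnn : ∀ p ∈ Finset.HasAntidiagonal.antidiagonal (dF d), 0 ≤ ((∑ i, d i - 2 * k).factorial : ℝ) *
      (MonoHR_wt c p.1 / MonoHR_wt c p.2) * coeff p.1 f' ^ 2 := by
    intro p _
    exact mul_nonneg (mul_nonneg hfac.le
      (div_nonneg (MonoHR_wt_pos hc _).le (MonoHR_wt_pos hc _).le)) (sq_nonneg _)
  rw [hsq, hmain]
  refine ⟨Finset.sum_nonneg hnn, fun h0 => ?_⟩
  rw [h0, mul_zero] at hmain
  have h1 := (Finset.sum_eq_zero_iff_of_nonneg hnn).1 hmain.symm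
  rw [MonoHR_mem]
  intro a ha
  rw [← (hf' a).1 ha]
  have h2 : a ≤ dF d := fun i => ha i
  have h3 := h1 (a, dF d - a) (Finset.HasAntidiagonal.mem_antidiagonal.2 (add_tsub_cancel_of_le h2))
  have h4 : (0 : ℝ) < ((∑ i, d i - 2 * k).factorial : ℝ) *
      (MonoHR_wt c a / MonoHR_wt c (dF d - a)) :=
    mul_pos hfac (div_pos (MonoHR_wt_pos hc _) (MonoHR_wt_pos hc _))
  rcases mul_eq_zero.1 h3 with h5 | h5
  · exact absurd h5 h4.ne'
  · exact pow_eq_zero_iff (two_ne_zero) |>.1 h5

end Pool.Agent.Lib.MP_adb389_ag
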