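import Pool.Agent.Lib.MP_adb389_ag.Spec

/-!
# A continuous path of nondegenerate symmetric matrices starting at a positive definite one
-/

set_option autoImplicit false

namespace Pool.Agent.Lib.MP_adb389_ag

open Finset

/-- The quadratic form of a matrix. -/
def Path_q {m : ℕ} (H : Matrix (Fin m) (Fin m) ℝ) (u : Fin m → ℝ) : ℝ :=
  ∑ i, ∑ j, H i j * (u i * u j)

theorem Path_expand {m : ℕ} (H : Matrix (Fin m) (Fin m) ℝ) (hs : ∀ i j, H i j = H j i)
    (u w : Fin m → ℝ) (e : ℝ) : Path_q H (fun i => u i - e * w i) =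
      Path_q H u - 2 * e * (∑ i, (∑ j, H i j * u j) * w i) + e ^ 2 * Path_q H w := by
  have h1 : ∑ i, ∑ j, H i j * (u i * w j) = ∑ i, (∑ j, H i j * u j) * w i := by
    rw [Finset.sum_comm]
    refine Finset.sum_congr rfl fun i _ => ?_
    rw [Finset.sum_mul]
    refine Finset.sum_congr rfl fun j _ => ?_
    rw [hs j i]
    ring
  have h2 : ∑ i, ∑ j, H i j * (w i * u j) = ∑ i, (∑ j, H i j * u j) * w i := by
    refine Finset.sum_congr rfl fun i _ => ?_
    rw [Finset.sum_mul]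
    refine Finset.sum_congr rfl fun j _ => ?_
    ring
  have h3 : Path_q H (fun i => u i - e * w i) = Path_q H u - e * (∑ i, ∑ j, H i j * (u i * w j)) -
      e * (∑ i, ∑ j, H i j * (w i * u j)) + e ^ 2 * Path_q H w := by
    unfold Path_q
    simp only [Finset.mul_sum, ← Finset.sum_sub_distrib, ← Finset.sum_add_distrib]
    refine Finset.sum_congr rfl fun i _ => Finset.sum_congr rfl fun j _ => ?_
    ring
  rw [h3, h1, h2]
  ring

theorem Path_kernel {m : ℕ} (H : Matrix (Fin m) (Fin m) ℝ) (hs : ∀ i j, H i j = H j i)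
    (hp : ∀ u, 0 ≤ Path_q H u) (u : Fin m → ℝ) (hu : Path_q H u ≤ 0) (i : Fin m) :
    ∑ j, H i j * u j = 0 := by
  have ha : ∑ i, (∑ j, H i j * u j) * (∑ j, H i j * u j) ≤ 0 := by
    by_contra hn
    push Not at hn
    set a := ∑ i, (∑ j, H i j * u j) * (∑ j, H i j * u j) with ha
    set c := Path_q H (fun i => ∑ j, H i j * u j) with hc
    have hc0 : 0 ≤ c := hp _
    have h1 := hp (fun i => u i - (a / (c + 1)) * (∑ j, H i j * u j))
    rw [Path_expand H hs u (fun i => ∑ j, H i j * u j) (a / (c + 1))] at h1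
    have h2 : 0 < a / (c + 1) := by positivity
    have h3 : a / (c + 1) * (c + 1) = a := by field_simp
    set e := a / (c + 1) with he
    have h4 : 0 < e * a := mul_pos h2 hn
    have h5 : e ^ 2 * c = e * a - e ^ 2 := by
      have : e ^ 2 * c = e * (e * (c + 1)) - e ^ 2 := by ring
      rw [this, h3]
    have h6 : 0 < e ^ 2 := by positivity
    nlinarith
  have h1 := (Finset.sum_eq_zero_iff_of_nonneg (s := Finset.univ)
    (f := fun i => (∑ j, H i j * u j) * (∑ j, H i j * u j))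
    (fun i _ => mul_self_nonneg _)).1 (le_antisymm ha
      (Finset.sum_nonneg fun i _ => mul_self_nonneg _)) i (Finset.mem_univ i)
  exact mul_self_eq_zero.1 h1

/-- Nonnegativity on the unit sphere. -/
theorem Path_sphere {m : ℕ} (H : Matrix (Fin m) (Fin m) ℝ)
    (hp : ∀ u : Fin m → ℝ, ∑ i, u i ^ 2 = 1 → 0 ≤ Path_q H u) (u : Fin m → ℝ) :
    0 ≤ Path_q H u := by
  by_cases hu : ∑ i, u i ^ 2 = 0
  · have h1 : ∀ i, u i = 0 := by
      intro i
      have := (Finset.sum_eq_zero_iff_of_nonneg (fun i _ => sq_nonneg (u i))).1 hu i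
        (Finset.mem_univ i)
      exact pow_eq_zero_iff (two_ne_zero) |>.1 this
    have h2 : Path_q H u = 0 := by
      unfold Path_q
      refine Finset.sum_eq_zero fun i _ => Finset.sum_eq_zero fun j _ => ?_
      rw [h1 i]
      ring
    exact h2.ge
  · have h0 : 0 < ∑ i, u i ^ 2 :=
      lt_of_le_of_ne (Finset.sum_nonneg fun i _ => sq_nonneg _) (Ne.symm hu)
    set n := ∑ i, u i ^ 2 with hn
    have hs : 0 < Real.sqrt n := Real.sqrt_pos.2 h0
    have h1 := hp (fun i => (Real.sqrt n)⁻¹ * u i) (by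
      have : ∀ i, ((Real.sqrt n)⁻¹ * u i) ^ 2 = n⁻¹ * u i ^ 2 := by
        intro i
        rw [mul_pow, inv_pow, Real.sq_sqrt h0.le]
      simp only [this]
      rw [← Finset.mul_sum, ← hn, inv_mul_cancel₀ h0.ne'])
    have h2 : Path_q H (fun i => (Real.sqrt n)⁻¹ * u i) = n⁻¹ * Path_q H u := by
      unfold Path_q
      rw [Finset.mul_sum]
      refine Finset.sum_congr rfl fun i _ => ?_
      rw [Finset.mul_sum]
      refine Finset.sum_congr rfl fun j _ => ?_
      have h3 : (Real.sqrt n)⁻¹ * (Real.sqrt n)⁻¹ = n⁻¹ := by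
        rw [← mul_inv, Real.mul_self_sqrt h0.le]
      rw [← h3]
      ring
    rw [h2] at h1
    by_contra hn'
    push Not at hn'
    have := mul_neg_of_pos_of_neg (inv_pos.2 h0) hn'
    linarith

theorem Path_compact (m : ℕ) : IsCompact {u : Fin m → ℝ | ∑ i, u i ^ 2 = 1} := by
  have hcn : Continuous (fun u : Fin m → ℝ => ∑ i, u i ^ 2) := by fun_prop
  have hc : IsCompact {u : Fin m → ℝ | ∀ x, u x ∈ Set.Icc (-1 : ℝ) 1} := by
    have := isCompact_univ_pi (fun _ : Fin m => (isCompact_Icc : IsCompact (Set.Icc (-1 : ℝ) 1)))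
    convert this using 1
    ext u
    simp only [Set.mem_pi, Set.mem_univ, forall_true_left]
    rfl
  refine hc.of_isClosed_subset (isClosed_eq hcn continuous_const) ?_
  intro u hu x
  have h1 : u x ^ 2 ≤ ∑ i, u i ^ 2 :=
    Finset.single_le_sum (f := fun y => u y ^ 2) (fun y _ => sq_nonneg _) (Finset.mem_univ x)
  have hu' : ∑ i, u i ^ 2 = 1 := hu
  rw [hu'] at h1
  exact abs_le.1 ((sq_le_one_iff_abs_le_one _).1 h1)

theorem tPath : StmtPath := by
  intro m H hc hs hnd h0 u hu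
  by_contra hneg
  push Not at hneg
  -- continuity of the quadratic form
  have hq : ContinuousOn (fun p : ℝ × (Fin m → ℝ) => Path_q (H p.1) p.2)
      (Set.Icc 0 1 ×ˢ {u : Fin m → ℝ | ∑ i, u i ^ 2 = 1}) := by
    unfold Path_q
    refine continuousOn_finset_sum _ fun i _ => continuousOn_finset_sum _ fun j _ => ?_
    refine ContinuousOn.mul ?_ (by fun_prop)
    exact (hc i j).comp continuousOn_fst fun p hp => hp.1
  have hK : IsCompact ((Set.Icc (0 : ℝ) 1 ×ˢ {u : Fin m → ℝ | ∑ i, u i ^ 2 = 1}) ∩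
      (fun p : ℝ × (Fin m → ℝ) => Path_q (H p.1) p.2) ⁻¹' Set.Iic 0) := by
    have h1 : IsCompact (Set.Icc (0 : ℝ) 1 ×ˢ {u : Fin m → ℝ | ∑ i, u i ^ 2 = 1}) :=
      isCompact_Icc.prod (Path_compact m)
    exact h1.of_isClosed_subset (hq.preimage_isClosed_of_isClosed h1.isClosed isClosed_Iic)
      Set.inter_subset_left
  have hne : ((Set.Icc (0 : ℝ) 1 ×ˢ {u : Fin m → ℝ | ∑ i, u i ^ 2 = 1}) ∩
      (fun p : ℝ × (Fin m → ℝ) => Path_q (H p.1) p.2) ⁻¹' Set.Iic 0).Nonempty := by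
    by_contra hemp
    have h1 : ∀ v : Fin m → ℝ, ∑ i, v i ^ 2 = 1 → 0 < Path_q (H 1) v := by
      intro v hv
      by_contra hn
      push Not at hn
      exact hemp ⟨(1, v), ⟨⟨zero_le_one, le_rfl⟩, hv⟩, hn⟩
    have h2 := Path_sphere (H 1) (fun v hv => (h1 v hv).le)
    have h3 := Path_kernel (H 1) (hs 1 ⟨zero_le_one, le_rfl⟩) h2 u hneg
    exact hu (hnd 1 ⟨zero_le_one, le_rfl⟩ u h3)
  obtain ⟨t₀, ⟨⟨p, hp, hpt⟩, hleast⟩⟩ := (hK.image continuous_fst).exists_isLeast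
    (hne.image Prod.fst)
  obtain ⟨⟨hp1, hp2⟩, hp3⟩ := hp
  subst hpt
  have hp3' : Path_q (H p.1) p.2 ≤ 0 := hp3
  have hp2' : ∑ i, p.2 i ^ 2 = 1 := hp2
  have hp20 : p.2 ≠ 0 := by
    intro h
    rw [h] at hp2'
    simp at hp2'
  have ht0 : p.1 ≠ 0 := by
    intro h
    rw [h] at hp3'
    exact absurd (h0 p.2 hp20) (not_lt.2 hp3')
  have hpos : ∀ t ∈ Set.Ico 0 p.1, ∀ v : Fin m → ℝ, ∑ i, v i ^ 2 = 1 → 0 < Path_q (H t) v := by
    intro t ht v hv
    by_contra hn
    push Not at hn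
    have := hleast ⟨(t, v), ⟨⟨⟨ht.1, ht.2.le.trans hp1.2⟩, hv⟩, hn⟩, rfl⟩
    exact absurd this (not_le.2 ht.2)
  have hnn : ∀ v : Fin m → ℝ, ∑ i, v i ^ 2 = 1 → 0 ≤ Path_q (H p.1) v := by
    intro v hv
    have hg : ContinuousOn (fun t => Path_q (H t) v) (Set.Icc 0 p.1) := by
      unfold Path_q
      refine continuousOn_finset_sum _ fun i _ => continuousOn_finset_sum _ fun j _ => ?_
      exact ((hc i j).mono (Set.Icc_subset_Icc_right hp1.2)).mul continuousOn_const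
    have hcl := hg.preimage_isClosed_of_isClosed isClosed_Icc (isClosed_Ici (a := (0 : ℝ)))
    have hsub : Set.Ico 0 p.1 ⊆ Set.Icc 0 p.1 ∩ (fun t => Path_q (H t) v) ⁻¹' Set.Ici 0 :=
      fun t ht => ⟨⟨ht.1, ht.2.le⟩, (hpos t ht v hv).le⟩
    have h1 := closure_minimal hsub hcl
    rw [closure_Ico (Ne.symm ht0)] at h1
    exact (h1 ⟨hp1.1, le_rfl⟩).2
  have h2 := Path_kernel (H p.1) (hs p.1 hp1) (Path_sphere (H p.1) hnn) p.2 hp3'
  exact hp20 (hnd p.1 hp1 p.2 h2)

end Pool.Agent.Lib.MP_adb389_ag
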