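import Pool.Agent.Lib.MP_adb389_ag.Spec

/-!
# Positive definiteness on the kernels of a continuous family of surjective matrices
-/

set_option autoImplicit false

namespace Pool.Agent.Lib.MP_adb389_ag

open Finset Matrix

variable {m r : ℕ}

theorem PathKer_form (H : Matrix (Fin m) (Fin m) ℝ) (u : Fin m → ℝ) :
    ∑ i, ∑ j, H i j * (u i * u j) = u ⬝ᵥ (H *ᵥ u) := by
  simp only [dotProduct, Matrix.mulVec, Finset.mul_sum]
  exact Finset.sum_congr rfl fun i _ => Finset.sum_congr rfl fun j _ => by ring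

theorem PathKer_unit (M : Matrix (Fin r) (Fin m) ℝ) (h : ∀ l, Mᵀ *ᵥ l = 0 → l = 0) :
    IsUnit (M * Mᵀ).det := by
  rw [← Matrix.isUnit_iff_isUnit_det, ← Matrix.mulVec_injective_iff_isUnit]
  have h1 : ∀ l : Fin r → ℝ, (M * Mᵀ) *ᵥ l = 0 → l = 0 := by
    intro l hl
    refine h l ?_
    have h2 : l ⬝ᵥ ((M * Mᵀ) *ᵥ l) = (Mᵀ *ᵥ l) ⬝ᵥ (Mᵀ *ᵥ l) := by
      rw [← Matrix.mulVec_mulVec, Matrix.dotProduct_mulVec, ← Matrix.mulVec_transpose]
    rw [hl, dotProduct_zero] at h2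
    exact dotProduct_self_eq_zero.1 h2.symm
  intro a b hab
  have h3 := h1 (a - b) (by rw [Matrix.mulVec_sub, sub_eq_zero]; exact hab)
  exact sub_eq_zero.1 h3

/-- The projection to the kernel. -/
noncomputable def PathKer_P (M : Matrix (Fin r) (Fin m) ℝ) : Matrix (Fin m) (Fin m) ℝ :=
  1 - Mᵀ * (M * Mᵀ)⁻¹ * M

theorem PathKer_symm (M : Matrix (Fin r) (Fin m) ℝ) : (PathKer_P M)ᵀ = PathKer_P M := by
  unfold PathKer_P
  rw [Matrix.transpose_sub, Matrix.transpose_one, Matrix.transpose_mul, Matrix.transpose_mul,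
    Matrix.transpose_nonsing_inv, Matrix.transpose_mul, Matrix.transpose_transpose,
    Matrix.mul_assoc]

theorem PathKer_mul (M : Matrix (Fin r) (Fin m) ℝ) (h : IsUnit (M * Mᵀ).det) :
    M * PathKer_P M = 0 := by
  unfold PathKer_P
  rw [Matrix.mul_sub, Matrix.mul_one, ← Matrix.mul_assoc, ← Matrix.mul_assoc,
    Matrix.mul_nonsing_inv _ h, Matrix.one_mul, sub_self]

theorem PathKer_mul' (M : Matrix (Fin r) (Fin m) ℝ) (h : IsUnit (M * Mᵀ).det) :
    PathKer_P M * Mᵀ = 0 := by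
  have h1 := congrArg Matrix.transpose (PathKer_mul M h)
  rwa [Matrix.transpose_mul, PathKer_symm, Matrix.transpose_zero] at h1

theorem PathKer_idem (M : Matrix (Fin r) (Fin m) ℝ) (h : IsUnit (M * Mᵀ).det) :
    PathKer_P M * PathKer_P M = PathKer_P M := by
  have h1 : PathKer_P M * PathKer_P M =
      PathKer_P M - PathKer_P M * Mᵀ * ((M * Mᵀ)⁻¹ * M) := by
    conv_lhs => rw [PathKer_P.eq_1 M, Matrix.mul_sub, Matrix.mul_one, ← PathKer_P.eq_1 M]
    simp only [Matrix.mul_assoc]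
  rw [h1, PathKer_mul' M h, Matrix.zero_mul, sub_zero]

theorem PathKer_fix (M : Matrix (Fin r) (Fin m) ℝ) (u : Fin m → ℝ) (hu : M *ᵥ u = 0) :
    PathKer_P M *ᵥ u = u := by
  unfold PathKer_P
  rw [Matrix.sub_mulVec, Matrix.one_mulVec, ← Matrix.mulVec_mulVec, hu, Matrix.mulVec_zero,
    sub_zero]

theorem PathKer_cont {X : Type} [TopologicalSpace X] (M : X → Matrix (Fin r) (Fin m) ℝ)
    (hM : Continuous M) (h : ∀ t, IsUnit (M t * (M t)ᵀ).det) :
    Continuous fun t => PathKer_P (M t) := by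
  have h1 : Continuous fun t => M t * (M t)ᵀ := hM.matrix_mul hM.matrix_transpose
  have h2 : Continuous fun t => (M t * (M t)ᵀ)⁻¹ := by
    have e : (fun t => (M t * (M t)ᵀ)⁻¹) =
        fun t => ((M t * (M t)ᵀ).det)⁻¹ • (M t * (M t)ᵀ).adjugate := by
      funext t
      rw [Matrix.inv_def, Ring.inverse_eq_inv']
    rw [e]
    exact (h1.matrix_det.inv₀ fun t => (h t).ne_zero).smul h1.matrix_adjugate
  unfold PathKer_P
  exact continuous_const.sub ((hM.matrix_transpose.matrix_mul h2).matrix_mul hM)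

theorem PathKer_norm (M : Matrix (Fin r) (Fin m) ℝ) (h : IsUnit (M * Mᵀ).det)
    (G : Matrix (Fin m) (Fin m) ℝ) (u : Fin m → ℝ) :
    u ⬝ᵥ ((PathKer_P M * G * PathKer_P M + (1 - PathKer_P M)) *ᵥ u) =
      (PathKer_P M *ᵥ u) ⬝ᵥ (G *ᵥ (PathKer_P M *ᵥ u)) +
        (u - PathKer_P M *ᵥ u) ⬝ᵥ (u - PathKer_P M *ᵥ u) := by
  have h1 : ∀ w : Fin m → ℝ, u ⬝ᵥ (PathKer_P M *ᵥ w) = (PathKer_P M *ᵥ u) ⬝ᵥ w := by
    intro w
    rw [Matrix.dotProduct_mulVec, ← Matrix.mulVec_transpose, PathKer_symm]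
  have h2 : (PathKer_P M *ᵥ u) ⬝ᵥ (PathKer_P M *ᵥ u) = u ⬝ᵥ (PathKer_P M *ᵥ u) := by
    rw [← h1, Matrix.mulVec_mulVec, PathKer_idem M h]
  have h3 : u ⬝ᵥ ((PathKer_P M * G * PathKer_P M) *ᵥ u) =
      (PathKer_P M *ᵥ u) ⬝ᵥ (G *ᵥ (PathKer_P M *ᵥ u)) := by
    rw [← Matrix.mulVec_mulVec, ← Matrix.mulVec_mulVec, h1]
  rw [Matrix.add_mulVec, dotProduct_add, h3, Matrix.sub_mulVec, Matrix.one_mulVec,
    dotProduct_sub, dotProduct_sub, sub_dotProduct, sub_dotProduct, h2,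
    dotProduct_comm (PathKer_P M *ᵥ u) u]
  ring

theorem tPathKer (h : StmtPath) : StmtPathKer := by
  intro m r G M hG hM hGs hsurj hnd hpos u hu hMu
  have hunit : ∀ t ∈ Set.Icc (0 : ℝ) 1, IsUnit (M t * (M t)ᵀ).det := fun t ht =>
    PathKer_unit (M t) fun l hl => hsurj t ht l fun i => congrFun hl i
  have hsymm : ∀ t ∈ Set.Icc (0 : ℝ) 1, (G t)ᵀ = G t := fun t ht =>
    Matrix.ext fun i j => hGs t ht j i
  have hM' : Continuous fun t : Set.Icc (0 : ℝ) 1 => M t.1 :=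
    continuous_matrix fun i j => (hM i j).restrict
  have hG' : Continuous fun t : Set.Icc (0 : ℝ) 1 => G t.1 :=
    continuous_matrix fun i j => (hG i j).restrict
  have hP' := PathKer_cont (fun t : Set.Icc (0 : ℝ) 1 => M t.1) hM' fun t => hunit t.1 t.2
  have hH' : Continuous fun t : Set.Icc (0 : ℝ) 1 =>
      PathKer_P (M t.1) * G t.1 * PathKer_P (M t.1) + (1 - PathKer_P (M t.1)) :=
    ((hP'.matrix_mul hG').matrix_mul hP').add (continuous_const.sub hP')
  have key := h m (fun t => PathKer_P (M t) * G t * PathKer_P (M t) + (1 - PathKer_P (M t)))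
    (fun i j => continuousOn_iff_continuous_restrict.2 (hH'.matrix_elem i j)) ?_ ?_ ?_ u hu
  · have h1 : (1 : ℝ) ∈ Set.Icc (0 : ℝ) 1 := ⟨zero_le_one, le_rfl⟩
    rw [PathKer_form, PathKer_norm _ (hunit 1 h1), PathKer_fix (M 1) u (funext hMu), sub_self,
      dotProduct_zero, add_zero] at key
    rw [PathKer_form]
    exact key
  · intro t ht i j
    have h1 : (PathKer_P (M t) * G t * PathKer_P (M t) + (1 - PathKer_P (M t)))ᵀ =
        PathKer_P (M t) * G t * PathKer_P (M t) + (1 - PathKer_P (M t)) := by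
      rw [Matrix.transpose_add, Matrix.transpose_sub, Matrix.transpose_one,
        Matrix.transpose_mul, Matrix.transpose_mul, PathKer_symm, hsymm t ht, Matrix.mul_assoc]
    exact (congrFun (congrFun h1 j) i)
  · intro t ht v hv
    have hv' : (PathKer_P (M t) * G t * PathKer_P (M t) + (1 - PathKer_P (M t))) *ᵥ v = 0 :=
      funext hv
    have hi := PathKer_idem (M t) (hunit t ht)
    have h1 : PathKer_P (M t) *ᵥ (G t *ᵥ (PathKer_P (M t) *ᵥ v)) = 0 := by
      have h2 := congrArg (fun w => PathKer_P (M t) *ᵥ w) hv'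
      simp only [Matrix.mulVec_zero] at h2
      rw [Matrix.mulVec_mulVec, Matrix.mul_add, Matrix.mul_sub, Matrix.mul_one, hi, sub_self,
        add_zero, ← Matrix.mul_assoc, ← Matrix.mul_assoc, hi] at h2
      rw [Matrix.mulVec_mulVec, Matrix.mulVec_mulVec]
      exact h2
    have h2 : PathKer_P (M t) *ᵥ v = v := by
      rw [Matrix.add_mulVec, ← Matrix.mulVec_mulVec, ← Matrix.mulVec_mulVec, h1, zero_add,
        Matrix.sub_mulVec, Matrix.one_mulVec, sub_eq_zero] at hv'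
      exact hv'.symm
    have h3 : M t *ᵥ v = 0 := by
      rw [← h2, Matrix.mulVec_mulVec, PathKer_mul (M t) (hunit t ht), Matrix.zero_mulVec]
    refine hnd t ht v (fun k => congrFun h3 k) ⟨(M t * (M t)ᵀ)⁻¹ *ᵥ (M t *ᵥ (G t *ᵥ v)),
      fun i => ?_⟩
    rw [h2] at h1
    have h4 : G t *ᵥ v = (M t)ᵀ *ᵥ ((M t * (M t)ᵀ)⁻¹ *ᵥ (M t *ᵥ (G t *ᵥ v))) := by
      unfold PathKer_P at h1
      rw [Matrix.sub_mulVec, Matrix.one_mulVec, sub_eq_zero, ← Matrix.mulVec_mulVec,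
        ← Matrix.mulVec_mulVec] at h1
      exact h1
    exact congrFun h4 i
  · intro v hv
    have h0 : (0 : ℝ) ∈ Set.Icc (0 : ℝ) 1 := ⟨le_rfl, zero_le_one⟩
    rw [PathKer_form, PathKer_norm _ (hunit 0 h0)]
    have hsq : 0 ≤ (v - PathKer_P (M 0) *ᵥ v) ⬝ᵥ (v - PathKer_P (M 0) *ᵥ v) := by
      unfold dotProduct
      exact Finset.sum_nonneg fun i _ => mul_self_nonneg _
    by_cases hPv : PathKer_P (M 0) *ᵥ v = 0
    · rw [hPv, zero_dotProduct, zero_add, sub_zero]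
      rcases lt_or_eq_of_le (show 0 ≤ v ⬝ᵥ v by
        unfold dotProduct
        exact Finset.sum_nonneg fun i _ => mul_self_nonneg _) with h1 | h1
      · exact h1
      · exact absurd (dotProduct_self_eq_zero.1 h1.symm) hv
    · have h1 : M 0 *ᵥ (PathKer_P (M 0) *ᵥ v) = 0 := by
        rw [Matrix.mulVec_mulVec, PathKer_mul (M 0) (hunit 0 h0), Matrix.zero_mulVec]
      have h2 := hpos _ hPv fun k => congrFun h1 k
      rw [PathKer_form] at h2
      linarith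

end Pool.Agent.Lib.MP_adb389_ag
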