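import Mathlib

/-! The Macaulay dual functionals of the ideals `(x_i ^ d_i * (A x)_i)` (MP_adb389_ag). -/

set_option autoImplicit false

namespace Pool.Agent.Lib.MP_adb389_ag

open MvPolynomial Finset

variable {n : ℕ} {K : Type} [Field K]

/-- The linear form `(A x)_i`. -/
noncomputable def yf (A : Matrix (Fin n) (Fin n) K) (i : Fin n) : MvPolynomial (Fin n) K :=
  ∑ j, C (A i j) * X j

/-- The generator `x_i ^ d_i * (A x)_i`. -/
noncomputable def gen (A : Matrix (Fin n) (Fin n) K) (d : Fin n → ℕ) (i : Fin n) :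
    MvPolynomial (Fin n) K := X i ^ d i * yf A i

/-- The ideal generated by the `x_i ^ d_i * (A x)_i`. -/
noncomputable def idl (A : Matrix (Fin n) (Fin n) K) (d : Fin n → ℕ) :
    Ideal (MvPolynomial (Fin n) K) := Ideal.span (Set.range (gen A d))

/-- All principal minors are nonzero, in the form of injectivity. -/
def Good (A : Matrix (Fin n) (Fin n) K) : Prop :=
  ∀ (S : Finset (Fin n)) (v : Fin n → K), (∀ j, j ∉ S → v j = 0) →
    (∀ i ∈ S, ∑ j, A i j * v j = 0) → v = 0

/-- The vector supported on `S ∪ {m}` with `m`-th coordinate `1` and `(A q)_S = 0`. -/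
noncomputable def qv (A : Matrix (Fin n) (Fin n) K) (S : Finset (Fin n)) (m j : Fin n) : K :=
  if j = m then 1 else
    if h : j ∈ S then
      -(((A.submatrix (fun i : S => (i : Fin n)) (fun i : S => (i : Fin n)))⁻¹).mulVec
        (fun i : S => A i m) ⟨j, h⟩)
    else 0

theorem qv_self (A : Matrix (Fin n) (Fin n) K) (S : Finset (Fin n)) (m : Fin n) :
    qv A S m m = 1 := by
  unfold qv; rw [if_pos rfl]

theorem qv_off (A : Matrix (Fin n) (Fin n) K) (S : Finset (Fin n)) (m j : Fin n) (h1 : j ≠ m)
    (h2 : j ∉ S) : qv A S m j = 0 := by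
  unfold qv; rw [if_neg h1, dif_neg h2]

theorem det_ne_zero_of_good {A : Matrix (Fin n) (Fin n) K} (hA : Good A) (S : Finset (Fin n)) :
    (A.submatrix (fun i : S => (i : Fin n)) (fun i : S => (i : Fin n))).det ≠ 0 := by
  intro hdet
  obtain ⟨v, hv, hv2⟩ := Matrix.exists_mulVec_eq_zero_iff.2 hdet
  apply hv
  have h := hA S (fun j => if h : j ∈ S then v ⟨j, h⟩ else 0) (fun j hj => dif_neg hj) ?_
  · funext j
    have := congrFun h j.1
    simpa using this
  · intro i hi
    have h2 := congrFun hv2 ⟨i, hi⟩
    simp only [Matrix.mulVec, dotProduct, Matrix.submatrix_apply, Pi.zero_apply] at h2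
    refine Eq.trans ?_ h2
    have h3 : ∀ j, j ∉ S → A i j * (if h : j ∈ S then v ⟨j, h⟩ else 0) = 0 := by
      intro j hj
      rw [dif_neg hj, mul_zero]
    rw [← Finset.sum_subset (Finset.subset_univ S) (fun j _ hj => h3 j hj)]
    rw [← Finset.sum_coe_sort S (fun j => A i j * (if h : j ∈ S then v ⟨j, h⟩ else 0))]
    refine Finset.sum_congr rfl fun j _ => ?_
    rw [dif_pos j.2]

theorem good_of_det {A : Matrix (Fin n) (Fin n) K} (h : ∀ S : Finset (Fin n),
    (A.submatrix (fun i : S => (i : Fin n)) (fun i : S => (i : Fin n))).det ≠ 0) : Good A := by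
  intro S v hv hv2
  have h1 : (fun j : S => v j) = 0 := by
    refine Matrix.eq_zero_of_mulVec_eq_zero (h S) ?_
    funext i
    simp only [Matrix.mulVec, dotProduct, Matrix.submatrix_apply, Pi.zero_apply]
    have h2 := hv2 i.1 i.2
    rw [← Finset.sum_subset (Finset.subset_univ S)
      (fun j _ hj => by rw [hv j hj, mul_zero]),
      ← Finset.sum_coe_sort S (fun j => A i j * v j)] at h2
    exact h2
  funext j
  by_cases hj : j ∈ S
  · exact congrFun h1 ⟨j, hj⟩
  · exact hv j hj

theorem qv_zero {A : Matrix (Fin n) (Fin n) K} (hA : Good A) {S : Finset (Fin n)} {m : Fin n}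
    (hm : m ∉ S) {i : Fin n} (hi : i ∈ S) : ∑ j, A i j * qv A S m j = 0 := by
  have hdet := det_ne_zero_of_good hA S
  set B := A.submatrix (fun i : S => (i : Fin n)) (fun i : S => (i : Fin n)) with hB
  set w : S → K := fun i => A i m with hw
  have h1 : ∑ j, A i j * qv A S m j = ∑ j ∈ insert m S, A i j * qv A S m j := by
    symm
    refine Finset.sum_subset (Finset.subset_univ _) (fun j _ hj => ?_)
    rw [Finset.mem_insert, not_or] at hj
    rw [qv_off A S m j hj.1 hj.2, mul_zero]
  rw [h1, Finset.sum_insert hm, qv_self, mul_one]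
  have h2 : ∑ j ∈ S, A i j * qv A S m j = -(B.mulVec (B⁻¹.mulVec w)) ⟨i, hi⟩ := by
    rw [← Finset.sum_coe_sort S (fun j => A i j * qv A S m j)]
    simp only [Matrix.mulVec, dotProduct]
    rw [← Finset.sum_neg_distrib]
    refine Finset.sum_congr rfl fun j _ => ?_
    have hjm : (j : Fin n) ≠ m := fun h => hm (h ▸ j.2)
    unfold qv
    rw [if_neg hjm, dif_pos j.2]
    simp only [Matrix.mulVec, dotProduct, hB, Matrix.submatrix_apply, hw]
    ring
  rw [h2, Matrix.mulVec_mulVec, Matrix.mul_nonsing_inv B (isUnit_iff_ne_zero.2 hdet),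
    Matrix.one_mulVec, hw]
  ring

/-- Integration of a closed family of functionals. -/
noncomputable def integ (ψ : Fin n → (MvPolynomial (Fin n) K →ₗ[K] K)) :
    MvPolynomial (Fin n) K →ₗ[K] K :=
  (basisMonomials (Fin n) K).constr K (fun α : Fin n →₀ ℕ =>
    if h : α.support.Nonempty then
      ψ (α.support.min' h) (monomial (α - Finsupp.single (α.support.min' h) 1) 1) else 0)

theorem integ_monomial (ψ : Fin n → (MvPolynomial (Fin n) K →ₗ[K] K)) (α : Fin n →₀ ℕ) :
    integ ψ (monomial α 1) = if h : α.support.Nonempty then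
      ψ (α.support.min' h) (monomial (α - Finsupp.single (α.support.min' h) 1) 1) else 0 := by
  have h := (basisMonomials (Fin n) K).constr_basis K (fun α : Fin n →₀ ℕ =>
    if h : α.support.Nonempty then
      ψ (α.support.min' h) (monomial (α - Finsupp.single (α.support.min' h) 1) 1) else 0) α
  rw [coe_basisMonomials] at h
  exact h

theorem integ_one (ψ : Fin n → (MvPolynomial (Fin n) K →ₗ[K] K)) : integ ψ 1 = 0 := by
  have h := integ_monomial ψ 0
  rw [dif_neg (by simp)] at h
  exact h

theorem X_mul_monomial (j : Fin n) (α : Fin n →₀ ℕ) :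
    (X j * monomial α 1 : MvPolynomial (Fin n) K) = monomial (Finsupp.single j 1 + α) 1 := by
  rw [X, monomial_mul, mul_one]

theorem integ_X_mul {ψ : Fin n → (MvPolynomial (Fin n) K →ₗ[K] K)}
    (hψ : ∀ i j g, ψ i (X j * g) = ψ j (X i * g)) (j : Fin n) (g : MvPolynomial (Fin n) K) :
    integ ψ (X j * g) = ψ j g := by
  have key : (integ ψ).comp (LinearMap.mulLeft K (X j)) = ψ j := by
    refine (basisMonomials (Fin n) K).ext fun α => ?_
    rw [coe_basisMonomials, LinearMap.comp_apply, LinearMap.mulLeft_apply, X_mul_monomial,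
      integ_monomial]
    have hne : (Finsupp.single j 1 + α).support.Nonempty := by
      refine ⟨j, ?_⟩
      rw [Finsupp.mem_support_iff, Finsupp.add_apply, Finsupp.single_eq_same]
      omega
    rw [dif_pos hne]
    obtain ⟨i, hi⟩ : ∃ i, i = (Finsupp.single j 1 + α).support.min' hne := ⟨_, rfl⟩
    rw [← hi]
    have hisupp : i ∈ (Finsupp.single j 1 + α).support := by
      rw [hi]; exact Finset.min'_mem _ _
    by_cases hij : i = j
    · subst hij
      congr 2
      ext k
      simp
    · have h1 : α i ≠ 0 := by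
        rw [Finsupp.mem_support_iff, Finsupp.add_apply, Finsupp.single_apply,
          if_neg (fun h => hij h.symm), zero_add] at hisupp
        exact hisupp
      have h2 : Finsupp.single j 1 + α - Finsupp.single i 1 =
          Finsupp.single j 1 + (α - Finsupp.single i 1) := by
        ext k
        simp only [Finsupp.add_apply, Finsupp.tsub_apply, Finsupp.single_apply]
        by_cases hk : i = k
        · subst hk
          rw [if_pos rfl, if_neg (fun h => hij h.symm)]
          omega
        · rw [if_neg hk]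
          omega
      have h3 : α = Finsupp.single i 1 + (α - Finsupp.single i 1) := by
        ext k
        simp only [Finsupp.add_apply, Finsupp.tsub_apply, Finsupp.single_apply]
        by_cases hk : i = k
        · subst hk
          rw [if_pos rfl]
          omega
        · rw [if_neg hk]
          omega
      rw [h2, ← X_mul_monomial, hψ]
      congr 1
      rw [X_mul_monomial, ← h3]
  have := LinearMap.congr_fun key g
  rwa [LinearMap.comp_apply, LinearMap.mulLeft_apply] at this

/-- two functionals that agree at `1` and on all `X j * g` are equal -/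
theorem functional_ext {φ φ' : MvPolynomial (Fin n) K →ₗ[K] K} (h1 : φ 1 = φ' 1)
    (h2 : ∀ j g, φ (X j * g) = φ' (X j * g)) : φ = φ' := by
  refine (basisMonomials (Fin n) K).ext fun α => ?_
  rw [coe_basisMonomials]
  by_cases hα : α = 0
  · subst hα
    exact h1
  · obtain ⟨i, hi⟩ := Finsupp.ne_iff.1 hα
    have h3 : α = Finsupp.single i 1 + (α - Finsupp.single i 1) := by
      ext k
      simp only [Finsupp.add_apply, Finsupp.tsub_apply, Finsupp.single_apply]
      by_cases hk : i = k
      · subst hk
        rw [if_pos rfl]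
        have : α i ≠ 0 := hi
        omega
      · rw [if_neg hk]
        omega
    show φ (monomial α 1) = φ' (monomial α 1)
    rw [h3, ← X_mul_monomial]
    exact h2 _ _

/-- the set of indices with `d i = 0` -/
def zs (d : Fin n → ℕ) : Finset (Fin n) := Finset.univ.filter (fun i => d i = 0)

theorem mem_zs {d : Fin n → ℕ} {i : Fin n} : i ∈ zs d ↔ d i = 0 := by
  simp [zs]

/-- `d` lowered at `m`. -/
def low (d : Fin n → ℕ) (m : Fin n) : Fin n → ℕ := Function.update d m (d m - 1)

theorem low_self (d : Fin n → ℕ) (m : Fin n) : low d m m = d m - 1 := by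
  simp [low]

theorem low_ne (d : Fin n → ℕ) {m j : Fin n} (h : j ≠ m) : low d m j = d j := by
  simp [low, h]

theorem low_comm (d : Fin n → ℕ) (m j : Fin n) : low (low d m) j = low (low d j) m := by
  by_cases h : j = m
  · subst h; rfl
  · funext k
    by_cases hk : k = j
    · subst hk
      rw [low_self, low_ne _ h, low_ne _ h, low_self]
    · by_cases hk2 : k = m
      · subst hk2
        rw [low_ne _ hk, low_self, low_self, low_ne _ (Ne.symm h)]
      · rw [low_ne _ hk, low_ne _ hk2, low_ne _ hk2, low_ne _ hk]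

theorem sum_low {d : Fin n → ℕ} {m : Fin n} (h : d m ≠ 0) : ∑ i, low d m i + 1 = ∑ i, d i := by
  rw [← Finset.add_sum_erase _ _ (Finset.mem_univ m),
    ← Finset.add_sum_erase Finset.univ d (Finset.mem_univ m), low_self]
  have : ∑ i ∈ Finset.univ.erase m, low d m i = ∑ i ∈ Finset.univ.erase m, d i :=
    Finset.sum_congr rfl fun i hi => low_ne _ (Finset.ne_of_mem_erase hi)
  rw [this]
  omega

/-- The functionals, by recursion on the degree. -/
noncomputable def phiAux (A : Matrix (Fin n) (Fin n) K) : ℕ → (Fin n → ℕ) →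
    (MvPolynomial (Fin n) K →ₗ[K] K)
  | 0, _ => lcoeff K 0
  | N + 1, d => integ (fun j => ∑ m, if d m = 0 then 0 else qv A (zs d) m j • phiAux A N (low d m))

/-- The functional of `d`. -/
noncomputable def phi (A : Matrix (Fin n) (Fin n) K) (d : Fin n → ℕ) :
    MvPolynomial (Fin n) K →ₗ[K] K := phiAux A (∑ i, d i) d

theorem phi_zero (A : Matrix (Fin n) (Fin n) K) {d : Fin n → ℕ} (hd : ∑ i, d i = 0)
    (g : MvPolynomial (Fin n) K) : phi A d g = coeff 0 g := by
  unfold phi
  rw [hd]
  rfl

theorem coeff_zero_X_mul (j : Fin n) (g : MvPolynomial (Fin n) K) : coeff 0 (X j * g) = 0 := by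
  rw [mul_comm, coeff_mul_X']
  simp

theorem sum_ite_qv (A : Matrix (Fin n) (Fin n) K) (d : Fin n → ℕ) (j : Fin n) (hj : d j ≠ 0)
    (f : Fin n → K) : ∑ m, (if d m = 0 then 0 else qv A (zs d) m j * f m) = f j := by
  rw [Finset.sum_eq_single j]
  · rw [if_neg hj, qv_self, one_mul]
  · intro m _ hm
    by_cases h : d m = 0
    · rw [if_pos h]
    · rw [if_neg h, qv_off A (zs d) m j (Ne.symm hm) (fun h' => hj (mem_zs.1 h')), zero_mul]
  · intro h; exact absurd (Finset.mem_univ j) h

/-- Expansion of a vector killed by the rows in `zs d`. -/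
theorem expand {A : Matrix (Fin n) (Fin n) K} (hA : Good A) (d : Fin n → ℕ) (v : Fin n → K)
    (hv : ∀ i, d i = 0 → ∑ j, A i j * v j = 0) (j : Fin n) :
    v j = ∑ m, if d m = 0 then 0 else qv A (zs d) m j * v m := by
  have h := hA (zs d) (fun j => v j - ∑ m, if d m = 0 then 0 else qv A (zs d) m j * v m) ?_ ?_
  · have := congrFun h j
    simp only [Pi.zero_apply] at this
    exact sub_eq_zero.1 this
  · intro j hj
    rw [mem_zs] at hj
    show v j - _ = 0
    rw [sum_ite_qv A d j hj v, sub_self]
  · intro i hi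
    rw [mem_zs] at hi
    simp only [mul_sub, Finset.sum_sub_distrib]
    rw [hv i hi, zero_sub, neg_eq_zero]
    simp only [Finset.mul_sum]
    rw [Finset.sum_comm]
    refine Finset.sum_eq_zero fun m _ => ?_
    by_cases hm : d m = 0
    · simp [hm]
    · simp only [if_neg hm]
      have h2 := qv_zero hA (S := zs d) (m := m) (fun h => hm (mem_zs.1 h)) (mem_zs.2 hi)
      have : ∀ j, A i j * (qv A (zs d) m j * v m) = (A i j * qv A (zs d) m j) * v m := fun j => by
        ring
      rw [Finset.sum_congr rfl fun j _ => this j, ← Finset.sum_mul, h2, zero_mul]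

theorem yf_mul (A : Matrix (Fin n) (Fin n) K) (φ : MvPolynomial (Fin n) K →ₗ[K] K) (i : Fin n)
    (g : MvPolynomial (Fin n) K) : φ (yf A i * g) = ∑ j, A i j * φ (X j * g) := by
  unfold yf
  rw [Finset.sum_mul, map_sum]
  refine Finset.sum_congr rfl fun j _ => ?_
  rw [mul_assoc, ← smul_eq_C_mul, map_smul, smul_eq_mul]

/-- the two characteristic properties of `phi` -/
theorem phi_props {A : Matrix (Fin n) (Fin n) K} (hA : Good A) : ∀ (N : ℕ) (d : Fin n → ℕ),
    ∑ i, d i = N → (∀ m, d m ≠ 0 → ∀ g, phi A d (X m * g) = phi A (low d m) g) ∧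
      (∀ i, d i = 0 → ∀ g, phi A d (yf A i * g) = 0) ∧
      (∀ j g, phi A d (X j * g) =
        ∑ m, if d m = 0 then 0 else qv A (zs d) m j * phi A (low d m) g) := by
  intro N
  induction N with
  | zero =>
    intro d hd
    have hz : ∀ i, d i = 0 := fun i => by
      have := (Finset.sum_eq_zero_iff.1 hd) i (Finset.mem_univ i)
      exact this
    refine ⟨fun m hm => absurd (hz m) hm, fun i _ g => ?_, fun j g => ?_⟩
    · rw [yf_mul]
      refine Finset.sum_eq_zero fun j _ => ?_
      rw [phi_zero A hd, coeff_zero_X_mul, mul_zero]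
    · rw [phi_zero A hd, coeff_zero_X_mul]
      symm
      refine Finset.sum_eq_zero fun m _ => ?_
      rw [if_pos (hz m)]
  | succ N ih =>
    intro d hd
    have hlow : ∀ m, d m ≠ 0 → ∑ i, low d m i = N := by
      intro m hm
      have := sum_low hm
      omega
    have hphi : ∀ m, d m ≠ 0 → phiAux A N (low d m) = phi A (low d m) := by
      intro m hm
      unfold phi
      rw [hlow m hm]
    -- the symmetric family
    have hsym : ∀ m m' g, d m ≠ 0 → d m' ≠ 0 →
        phi A (low d m) (X m' * g) = phi A (low d m') (X m * g) := by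
      intro m m' g hm hm'
      by_cases h : m = m'
      · subst h; rfl
      · have h1 : low d m m' ≠ 0 := by rw [low_ne _ (Ne.symm h)]; exact hm'
        have h2 : low d m' m ≠ 0 := by rw [low_ne _ h]; exact hm
        rw [(ih _ (hlow m hm)).1 m' h1, (ih _ (hlow m' hm')).1 m h2, low_comm]
    have hexp : ∀ m j g, d m ≠ 0 → phi A (low d m) (X j * g) =
        ∑ m', if d m' = 0 then 0 else qv A (zs d) m' j * phi A (low d m) (X m' * g) := by
      intro m j g hm
      refine expand hA d (fun j => phi A (low d m) (X j * g)) (fun i hi => ?_) j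
      rw [← yf_mul]
      refine (ih _ (hlow m hm)).2.1 i ?_ g
      have : i ≠ m := fun h => hm (h ▸ hi)
      rw [low_ne _ this]; exact hi
    set ψ : Fin n → (MvPolynomial (Fin n) K →ₗ[K] K) :=
      fun j => ∑ m, if d m = 0 then 0 else qv A (zs d) m j • phiAux A N (low d m) with hψ
    have hψe : ∀ j g, ψ j g = ∑ m, if d m = 0 then 0 else qv A (zs d) m j * phi A (low d m) g := by
      intro j g
      simp only [hψ, LinearMap.sum_apply]
      refine Finset.sum_congr rfl fun m _ => ?_
      by_cases hm : d m = 0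
      · rw [if_pos hm, if_pos hm, LinearMap.zero_apply]
      · rw [if_neg hm, if_neg hm, LinearMap.smul_apply, smul_eq_mul, hphi m hm]
    have hcl : ∀ i j g, ψ i (X j * g) = ψ j (X i * g) := by
      intro i j g
      rw [hψe, hψe]
      have e1 : ∀ i j, (∑ m, if d m = 0 then 0 else
          qv A (zs d) m i * phi A (low d m) (X j * g)) =
          ∑ m, ∑ m', if d m = 0 ∨ d m' = 0 then 0 else
            qv A (zs d) m i * qv A (zs d) m' j * phi A (low d m) (X m' * g) := by
        intro i j
        refine Finset.sum_congr rfl fun m _ => ?_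
        by_cases hm : d m = 0
        · simp [hm]
        · rw [if_neg hm, hexp m j g hm, Finset.mul_sum]
          refine Finset.sum_congr rfl fun m' _ => ?_
          by_cases hm' : d m' = 0
          · simp [hm']
          · rw [if_neg hm', if_neg (by tauto)]
            ring
      rw [e1 i j, e1 j i, Finset.sum_comm]
      refine Finset.sum_congr rfl fun m _ => Finset.sum_congr rfl fun m' _ => ?_
      by_cases hm : d m = 0
      · simp [hm]
      · by_cases hm' : d m' = 0
        · simp [hm']
        · rw [if_neg (by tauto), if_neg (by tauto), hsym m' m g hm' hm]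
          ring
    have hphid : phi A d = integ ψ := by
      unfold phi
      rw [hd]
      rfl
    have hform : ∀ j g, phi A d (X j * g) =
        ∑ m, if d m = 0 then 0 else qv A (zs d) m j * phi A (low d m) g := by
      intro j g
      rw [hphid, integ_X_mul hcl, hψe]
    refine ⟨fun m hm g => ?_, fun i hi g => ?_, hform⟩
    · rw [hform, sum_ite_qv A d m hm (fun m => phi A (low d m) g)]
    · rw [yf_mul]
      simp only [hform, Finset.mul_sum]
      rw [Finset.sum_comm]
      refine Finset.sum_eq_zero fun m _ => ?_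
      by_cases hm : d m = 0
      · simp [hm]
      · simp only [if_neg hm]
        have h2 := qv_zero hA (S := zs d) (m := m) (fun h => hm (mem_zs.1 h)) (mem_zs.2 hi)
        have : ∀ j, A i j * (qv A (zs d) m j * phi A (low d m) g) =
            (A i j * qv A (zs d) m j) * phi A (low d m) g := fun j => by ring
        rw [Finset.sum_congr rfl fun j _ => this j, ← Finset.sum_mul, h2, zero_mul]

theorem phi_X_mul {A : Matrix (Fin n) (Fin n) K} (hA : Good A) {d : Fin n → ℕ} {m : Fin n}
    (hm : d m ≠ 0) (g : MvPolynomial (Fin n) K) : phi A d (X m * g) = phi A (low d m) g :=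
  (phi_props hA _ d rfl).1 m hm g

theorem phi_yf_mul {A : Matrix (Fin n) (Fin n) K} (hA : Good A) {d : Fin n → ℕ} {i : Fin n}
    (hi : d i = 0) (g : MvPolynomial (Fin n) K) : phi A d (yf A i * g) = 0 :=
  (phi_props hA _ d rfl).2.1 i hi g

theorem phi_X_mul' {A : Matrix (Fin n) (Fin n) K} (hA : Good A) (d : Fin n → ℕ) (j : Fin n)
    (g : MvPolynomial (Fin n) K) : phi A d (X j * g) =
      ∑ m, if d m = 0 then 0 else qv A (zs d) m j * phi A (low d m) g :=
  (phi_props hA _ d rfl).2.2 j g

end Pool.Agent.Lib.MP_adb389_ag
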