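import Pool.Agent.Lib.MP_adb389_ag.Spec
import Pool.Agent.Lib.MP_adb389_ag.Box

/-! Ample pairs, and the step from the Hodge-Riemann relations in degree `D - 1` to the hard
Lefschetz property in degree `D`. -/

set_option autoImplicit false

namespace Pool.Agent.Lib.MP_adb389_ag

open MvPolynomial Finset

variable {n : ℕ}

/-- The linear form with coefficients `c` has positive coordinates in all bases `x_j` (`j ∉ S`),
`(A x)_i` (`i ∈ S`). -/
def Cube (A : Matrix (Fin n) (Fin n) ℝ) (c : Fin n → ℝ) : Prop :=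
  ∀ S : Finset (Fin n), ∃ w : Fin n → ℝ, (∀ i, 0 < w i) ∧
    ∀ j, c j = (∑ i ∈ S, w i * A i j) + if j ∈ S then 0 else w j

/-- Ample pairs. -/
def Amp (A : Matrix (Fin n) (Fin n) ℝ) (c : Fin n → ℝ) : Prop :=
  Good A ∧ ∀ (S : Finset (Fin n)) (m : Fin n), m ∉ S → 0 < ∑ j, c j * qv A S m j

theorem cube_pair {A : Matrix (Fin n) (Fin n) ℝ} {c : Fin n → ℝ} {S : Finset (Fin n)}
    {w : Fin n → ℝ} (hw : ∀ j, c j = (∑ i ∈ S, w i * A i j) + if j ∈ S then 0 else w j)
    (v : Fin n → ℝ) : ∑ j, c j * v j =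
      ∑ i ∈ S, w i * ∑ j, A i j * v j + ∑ j, (if j ∈ S then 0 else w j) * v j := by
  have e : ∀ j, c j * v j = (∑ i ∈ S, w i * (A i j * v j)) + (if j ∈ S then 0 else w j) * v j := by
    intro j
    rw [hw j, add_mul, Finset.sum_mul]
    congr 1
    exact Finset.sum_congr rfl fun i _ => by ring
  rw [Finset.sum_congr rfl fun j _ => e j, Finset.sum_add_distrib, Finset.sum_comm]
  congr 1
  exact Finset.sum_congr rfl fun i _ => (Finset.mul_sum _ _ _).symm

theorem good_of_cube {A : Matrix (Fin n) (Fin n) ℝ} {c : Fin n → ℝ} (h : Cube A c) : Good A := by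
  have key : ∀ (S : Finset (Fin n)) (v : Fin n → ℝ), (∀ j, j ∉ S → v j = 0) →
      (∀ i ∈ S, ∑ j, A i j * v j = 0) → ∀ j, v j ≤ 0 := by
    intro S v hv hv2
    obtain ⟨w, hw0, hw⟩ := h S
    have h1 : ∑ j, c j * v j = 0 := by
      rw [cube_pair hw, Finset.sum_eq_zero fun i hi => by rw [hv2 i hi, mul_zero], zero_add]
      refine Finset.sum_eq_zero fun j _ => ?_
      by_cases hj : j ∈ S
      · rw [if_pos hj, zero_mul]
      · rw [hv j hj, mul_zero]
    obtain ⟨w', hw0', hw'⟩ := h (S.filter fun j => v j ≤ 0)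
    rw [cube_pair hw', Finset.sum_eq_zero fun i hi => by
      rw [hv2 i (Finset.mem_filter.1 hi).1, mul_zero], zero_add] at h1
    have hterm : ∀ j, 0 ≤ (if j ∈ S.filter fun j => v j ≤ 0 then 0 else w' j) * v j := by
      intro j
      by_cases hj : j ∈ S.filter fun j => v j ≤ 0
      · rw [if_pos hj, zero_mul]
      · rw [if_neg hj]
        by_cases hjS : j ∈ S
        · refine mul_nonneg (hw0' j).le ?_
          by_contra hcon
          exact hj (Finset.mem_filter.2 ⟨hjS, (not_le.1 hcon).le⟩)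
        · rw [hv j hjS, mul_zero]
    intro j
    by_contra hcon
    push Not at hcon
    have h2 := (Finset.sum_eq_zero_iff_of_nonneg fun j _ => hterm j).1 h1 j (Finset.mem_univ j)
    have hj : j ∉ S.filter fun j => v j ≤ 0 := fun h' =>
      absurd (Finset.mem_filter.1 h').2 (not_le.2 hcon)
    rw [if_neg hj] at h2
    exact absurd h2 (mul_pos (hw0' j) hcon).ne'
  intro S v hv hv2
  funext j
  refine le_antisymm (key S v hv hv2 j) ?_
  have := key S (fun j => - v j) (fun j hj => by rw [hv j hj, neg_zero]) (fun i hi => by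
    have e : ∑ j, A i j * - v j = - ∑ j, A i j * v j := by
      rw [← Finset.sum_neg_distrib]
      exact Finset.sum_congr rfl fun j _ => by ring
    rw [e, hv2 i hi, neg_zero]) j
  show (0 : ℝ) ≤ v j
  linarith

theorem amp_of_cube {A : Matrix (Fin n) (Fin n) ℝ} {c : Fin n → ℝ} (h : Cube A c) : Amp A c := by
  refine ⟨good_of_cube h, fun S m hm => ?_⟩
  obtain ⟨w, hw0, hw⟩ := h S
  rw [cube_pair hw, Finset.sum_eq_zero fun i hi => by
    rw [qv_zero (good_of_cube h) hm hi, mul_zero], zero_add, Finset.sum_eq_single m]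
  · rw [if_neg hm, qv_self, mul_one]
    exact hw0 m
  · intro j _ hj
    by_cases hjS : j ∈ S
    · rw [if_pos hjS, zero_mul]
    · rw [qv_off A S m j hj hjS, mul_zero]
  · intro h; exact absurd (Finset.mem_univ m) h

theorem lin_hom {K : Type} [Field K] (c : Fin n → K) : (lin c).IsHomogeneous 1 := by
  unfold lin
  refine IsHomogeneous.sum _ _ _ fun j _ => ?_
  have := (isHomogeneous_C (Fin n) (c j)).mul (isHomogeneous_X K j)
  simpa using this

theorem lin_pow_hom {K : Type} [Field K] (c : Fin n → K) (s : ℕ) :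
    (lin c ^ s).IsHomogeneous s := by
  have := (lin_hom c).pow s
  rwa [one_mul] at this

theorem phi_lin {K : Type} [Field K] {A : Matrix (Fin n) (Fin n) K} (hA : Good A) (c : Fin n → K)
    (d : Fin n → ℕ) (g : MvPolynomial (Fin n) K) : phi A d (lin c * g) =
      ∑ m, if d m = 0 then 0 else (∑ j, c j * qv A (zs d) m j) * phi A (low d m) g := by
  have h1 : phi A d (lin c * g) = ∑ j, c j * phi A d (X j * g) := by
    unfold lin
    rw [Finset.sum_mul, map_sum]
    refine Finset.sum_congr rfl fun j _ => ?_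
    rw [mul_assoc, ← smul_eq_C_mul, map_smul, smul_eq_mul]
  rw [h1]
  simp only [phi_X_mul' hA, Finset.mul_sum]
  rw [Finset.sum_comm]
  refine Finset.sum_congr rfl fun m _ => ?_
  by_cases hm : d m = 0
  · simp [hm]
  · simp only [if_neg hm]
    rw [Finset.sum_mul]
    refine Finset.sum_congr rfl fun j _ => ?_
    ring

/-- Hodge-Riemann relations in degree `k`. -/
def HR (A : Matrix (Fin n) (Fin n) ℝ) (c : Fin n → ℝ) (d : Fin n → ℕ) (k : ℕ) : Prop :=
  ∀ f : MvPolynomial (Fin n) ℝ, f.IsHomogeneous k → 2 * k ≤ ∑ i, d i →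
    lin c ^ (∑ i, d i - 2 * k + 1) * f ∈ idl A d →
    0 ≤ (-1) ^ k * phi A d (lin c ^ (∑ i, d i - 2 * k) * (f * f)) ∧
      (phi A d (lin c ^ (∑ i, d i - 2 * k) * (f * f)) = 0 → f ∈ idl A d)

/-- Hard Lefschetz property in degree `k`. -/
def HL (A : Matrix (Fin n) (Fin n) ℝ) (c : Fin n → ℝ) (d : Fin n → ℕ) (k : ℕ) : Prop :=
  ∀ f : MvPolynomial (Fin n) ℝ, f.IsHomogeneous k → 2 * k ≤ ∑ i, d i →
    lin c ^ (∑ i, d i - 2 * k) * f ∈ idl A d → f ∈ idl A d

theorem HL_of_HR {A : Matrix (Fin n) (Fin n) ℝ} {c : Fin n → ℝ} (h : Amp A c) (d : Fin n → ℕ)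
    (k : ℕ) (ih : ∀ m, d m ≠ 0 → HR A c (low d m) k) : HL A c d k := by
  have hA := h.1
  intro f hf hk hlf
  by_cases he : 2 * k = ∑ i, d i
  · rw [he, Nat.sub_self, pow_zero, one_mul] at hlf
    exact hlf
  · have hlt : 2 * k < ∑ i, d i := lt_of_le_of_ne hk he
    obtain ⟨N, hN⟩ : ∃ N, ∑ i, d i = N + 1 := ⟨∑ i, d i - 1, by omega⟩
    have hlow : ∀ m, d m ≠ 0 → ∑ i, low d m i = N := fun m hm => by
      have := sum_low hm
      omega
    have hprim : ∀ m, d m ≠ 0 → lin c ^ (∑ i, low d m i - 2 * k + 1) * f ∈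
        idl A (low d m) := by
      intro m hm
      rw [hlow m hm]
      have e : N - 2 * k + 1 = ∑ i, d i - 2 * k := by omega
      rw [e]
      exact idl_le_low hm hlf
    have hHR := fun m (hm : d m ≠ 0) => ih m hm f hf (by rw [hlow m hm]; omega) (hprim m hm)
    have h0 : phi A d (lin c * (lin c ^ (N - 2 * k) * (f * f))) = 0 := by
      have e : lin c * (lin c ^ (N - 2 * k) * (f * f)) =
          (lin c ^ (∑ i, d i - 2 * k) * f) * f := by
        have e2 : ∑ i, d i - 2 * k = (N - 2 * k) + 1 := by omega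
        rw [e2, pow_succ]; ring
      rw [e]
      exact phi_idl hA hlf f
    rw [phi_lin hA] at h0
    have hterm : ∀ m, 0 ≤ if d m = 0 then (0 : ℝ) else (∑ j, c j * qv A (zs d) m j) *
        ((-1) ^ k * phi A (low d m) (lin c ^ (N - 2 * k) * (f * f))) := by
      intro m
      by_cases hm : d m = 0
      · rw [if_pos hm]
      · rw [if_neg hm]
        refine mul_nonneg (h.2 _ _ (fun h' => hm (mem_zs.1 h'))).le ?_
        have := (hHR m hm).1
        rwa [hlow m hm] at this
    have hsum : ∑ m, (if d m = 0 then (0 : ℝ) else (∑ j, c j * qv A (zs d) m j) *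
        ((-1) ^ k * phi A (low d m) (lin c ^ (N - 2 * k) * (f * f)))) = 0 := by
      have : ∑ m, (if d m = 0 then (0 : ℝ) else (∑ j, c j * qv A (zs d) m j) *
          ((-1) ^ k * phi A (low d m) (lin c ^ (N - 2 * k) * (f * f)))) =
          (-1) ^ k * ∑ m, (if d m = 0 then (0 : ℝ) else (∑ j, c j * qv A (zs d) m j) *
            phi A (low d m) (lin c ^ (N - 2 * k) * (f * f))) := by
        rw [Finset.mul_sum]
        refine Finset.sum_congr rfl fun m _ => ?_
        by_cases hm : d m = 0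
        · simp [hm]
        · rw [if_neg hm, if_neg hm]; ring
      rw [this, h0, mul_zero]
    have hz := (Finset.sum_eq_zero_iff_of_nonneg fun m _ => hterm m).1 hsum
    refine mem_of_low hA hf (by omega) (fun m hm => ?_)
    have h1 := hz m (Finset.mem_univ m)
    rw [if_neg hm] at h1
    have h2 := (mul_eq_zero.1 h1).resolve_left (h.2 _ _ (fun h' => hm (mem_zs.1 h'))).ne'
    have h3 := (mul_eq_zero.1 h2).resolve_left (pow_ne_zero _ (by norm_num))
    refine (hHR m hm).2 ?_
    rw [hlow m hm]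
    exact h3

/-- positivity of the top power -/
theorem phi_top_pos {A : Matrix (Fin n) (Fin n) ℝ} {c : Fin n → ℝ} (h : Amp A c) :
    ∀ (N : ℕ) (d : Fin n → ℕ), ∑ i, d i = N → 0 < phi A d (lin c ^ N) := by
  have hA := h.1
  intro N
  induction N with
  | zero =>
    intro d hd
    rw [phi_zero A hd, pow_zero]
    simp
  | succ N ih =>
    intro d hd
    rw [pow_succ', phi_lin hA]
    have hne : ∃ m, d m ≠ 0 := by
      by_contra hcon
      push Not at hcon
      rw [Finset.sum_eq_zero fun i _ => hcon i] at hd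
      exact absurd hd (by omega)
    obtain ⟨m, hm⟩ := hne
    have hlow : ∀ m, d m ≠ 0 → ∑ i, low d m i = N := fun m hm => by
      have := sum_low hm
      omega
    have hterm : ∀ m, 0 ≤ if d m = 0 then (0 : ℝ) else (∑ j, c j * qv A (zs d) m j) *
        phi A (low d m) (lin c ^ N) := by
      intro m
      by_cases hm : d m = 0
      · rw [if_pos hm]
      · rw [if_neg hm]
        exact mul_nonneg (h.2 _ _ (fun h' => hm (mem_zs.1 h'))).le (ih _ (hlow m hm)).le
    refine lt_of_lt_of_le ?_ (Finset.single_le_sum (fun m _ => hterm m) (Finset.mem_univ m))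
    rw [if_neg hm]
    exact mul_pos (h.2 _ _ (fun h' => hm (mem_zs.1 h'))) (ih _ (hlow m hm))

end Pool.Agent.Lib.MP_adb389_ag
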