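import Pool.Agent.Lib.MP_adb389_ag.Conn
import Pool.Agent.Lib.MP_adb389_ag.Dom
import Pool.Agent.Lib.MP_adb389_ag.Lef

/-! Scaling of variables and rows, and the two criteria. -/

set_option autoImplicit false

namespace Pool.Agent.Lib.MP_adb389_ag

open MvPolynomial Finset

variable {n : ℕ}

section scaling

variable {K : Type} [Field K]

/-- The substitution `x_j ↦ ε_j x_j`. -/
noncomputable def scl (ε : Fin n → K) : MvPolynomial (Fin n) K →ₐ[K] MvPolynomial (Fin n) K :=
  aeval fun j => C (ε j) * X j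

theorem scl_X (ε : Fin n → K) (j : Fin n) : scl ε (X j) = C (ε j) * X j := by
  simp [scl]

theorem scl_C (ε : Fin n → K) (a : K) : scl ε (C a) = C a := by
  simp [scl]

theorem scl_hom (ε : Fin n → K) {f : MvPolynomial (Fin n) K} {k : ℕ} (hf : f.IsHomogeneous k) :
    (scl ε f).IsHomogeneous k := by
  have h := hf.aeval (fun j => C (ε j) * X j) (n := 1) (fun j => by
    have := (isHomogeneous_C (Fin n) (ε j)).mul (isHomogeneous_X K j)
    simpa using this)
  rwa [one_mul] at h

theorem scl_inv {ε : Fin n → K} (hε : ∀ j, ε j ≠ 0) (f : MvPolynomial (Fin n) K) :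
    scl (fun j => (ε j)⁻¹) (scl ε f) = f := by
  have h : (scl (fun j => (ε j)⁻¹)).comp (scl ε) = AlgHom.id K _ := by
    refine MvPolynomial.algHom_ext fun j => ?_
    rw [AlgHom.comp_apply, scl_X, map_mul, scl_C, scl_X, ← mul_assoc, ← C_mul,
      mul_inv_cancel₀ (hε j), C_1, one_mul]
    rfl
  exact DFunLike.congr_fun h f

theorem scl_yf {A A' : Matrix (Fin n) (Fin n) K} {ε η : Fin n → K}
    (h : ∀ i j, A i j * ε j = η i * A' i j) (i : Fin n) :
    scl ε (yf A i) = C (η i) * yf A' i := by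
  unfold yf
  rw [map_sum, Finset.mul_sum]
  refine Finset.sum_congr rfl fun j _ => ?_
  rw [map_mul, scl_C, scl_X, ← mul_assoc, ← C_mul, h, C_mul]
  ring

theorem scl_mem {A A' : Matrix (Fin n) (Fin n) K} {ε η : Fin n → K}
    (h : ∀ i j, A i j * ε j = η i * A' i j) {d : Fin n → ℕ} {f : MvPolynomial (Fin n) K}
    (hf : f ∈ idl A d) : scl ε f ∈ idl A' d := by
  have hle : idl A d ≤ (idl A' d).comap (scl ε) := by
    unfold idl
    rw [Ideal.span_le]
    rintro _ ⟨i, rfl⟩
    show scl ε (gen A d i) ∈ idl A' d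
    have e : scl ε (gen A d i) = C (ε i) ^ d i * C (η i) * gen A' d i := by
      unfold gen
      rw [map_mul, map_pow, scl_X, scl_yf h, mul_pow]
      ring
    rw [e]
    exact Ideal.mul_mem_left _ _ (Ideal.subset_span ⟨i, rfl⟩)
  exact hle hf

theorem scl_lin (ε c : Fin n → K) : scl ε (lin c) = lin fun j => ε j * c j := by
  unfold lin
  rw [map_sum]
  refine Finset.sum_congr rfl fun j _ => ?_
  rw [map_mul, scl_C, scl_X, C_mul]
  ring

theorem inj_scl {A A' : Matrix (Fin n) (Fin n) K} {ε η : Fin n → K} (hε : ∀ j, ε j ≠ 0)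
    (hη : ∀ j, η j ≠ 0) (h : ∀ i j, A i j * ε j = η i * A' i j) {d : Fin n → ℕ}
    {c : Fin n → K} {s k : ℕ} (hI : Inj (idl A' d) (lin (fun j => ε j * c j) ^ s) k) :
    Inj (idl A d) (lin c ^ s) k := by
  intro f hf hm
  have h1 := scl_mem h hm
  rw [map_mul, map_pow, scl_lin] at h1
  have h2 := hI _ (scl_hom ε hf) h1
  have h3 := scl_mem (A := A') (A' := A) (ε := fun j => (ε j)⁻¹) (η := fun j => (η j)⁻¹)
    (fun i j => by
      have := h i j
      have h4 := hε j
      have h5 := hη i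
      field_simp
      linear_combination -this) h2
  rwa [scl_inv hε] at h3

end scaling

/-- The coordinates of the linear form with coefficients `c`. -/
def Crd (A : Matrix (Fin n) (Fin n) ℝ) (c : Fin n → ℝ) (S : Finset (Fin n)) (w : Fin n → ℝ) :
    Prop :=
  ∀ j, c j = (∑ i ∈ S, w i * A i j) + if j ∈ S then 0 else w j

theorem good_of_crit {A : Matrix (Fin n) (Fin n) ℝ} {c ε η : Fin n → ℝ}
    (h : ∀ S : Finset (Fin n), ∃ w, Crd A c S w ∧
      ((∀ i, i ∉ S → 0 < ε i * w i) ∧ (∀ i, i ∈ S → 0 < η i * w i) ∨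
        (∀ i, i ∉ S → ε i * w i < 0) ∧ (∀ i, i ∈ S → η i * w i < 0))) : Good A := by
  have key : ∀ (S : Finset (Fin n)) (v : Fin n → ℝ), (∀ j, j ∉ S → v j = 0) →
      (∀ i ∈ S, ∑ j, A i j * v j = 0) → ∀ j, ε j * v j ≤ 0 := by
    intro S v hv hv2
    obtain ⟨w, hw, -⟩ := h S
    have h1 : ∑ j, c j * v j = 0 := by
      rw [cube_pair hw, Finset.sum_eq_zero fun i hi => by rw [hv2 i hi, mul_zero], zero_add]
      refine Finset.sum_eq_zero fun j _ => ?_
      by_cases hj : j ∈ S
      · rw [if_pos hj, zero_mul]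
      · rw [hv j hj, mul_zero]
    obtain ⟨T, hT⟩ : ∃ T, T = S.filter fun j => ε j * v j ≤ 0 := ⟨_, rfl⟩
    obtain ⟨w', hw', hsgn⟩ := h T
    rw [cube_pair hw', Finset.sum_eq_zero fun i hi => by
      rw [hv2 i (Finset.mem_filter.1 (hT ▸ hi)).1, mul_zero], zero_add] at h1
    have hmem : ∀ j, j ∉ T → v j ≠ 0 → 0 < ε j * v j := by
      intro j hj hvj
      have hjS : j ∈ S := by
        by_contra hcon
        exact hvj (hv j hcon)
      by_contra hcon
      push Not at hcon
      refine hj ?_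
      rw [hT]
      exact Finset.mem_filter.2 ⟨hjS, hcon⟩
    intro j
    by_contra hcon
    push Not at hcon
    have hjT : j ∉ T := by
      intro h'
      rw [hT] at h'
      exact absurd (Finset.mem_filter.1 h').2 (not_le.2 hcon)
    have hvj : v j ≠ 0 := by
      intro h'
      rw [h', mul_zero] at hcon
      exact absurd hcon (lt_irrefl _)
    rcases hsgn with hs | hs
    · have hterm : ∀ i, 0 ≤ (if i ∈ T then 0 else w' i) * v i := by
        intro i
        by_cases hi : i ∈ T
        · rw [if_pos hi, zero_mul]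
        · rw [if_neg hi]
          by_cases hvi : v i = 0
          · rw [hvi, mul_zero]
          · have h2 := mul_pos (hs.1 i hi) (hmem i hi hvi)
            have h3 : ε i * w' i * (ε i * v i) = (ε i) ^ 2 * (w' i * v i) := by ring
            rw [h3] at h2
            exact (pos_of_mul_pos_right h2 (sq_nonneg _)).le
      have h2 := (Finset.sum_eq_zero_iff_of_nonneg fun j _ => hterm j).1 h1 j (Finset.mem_univ j)
      rw [if_neg hjT] at h2
      have h3 := mul_pos (hs.1 j hjT) hcon
      have h4 : ε j * w' j * (ε j * v j) = (ε j) ^ 2 * (w' j * v j) := by ring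
      rw [h4, h2, mul_zero] at h3
      exact absurd h3 (lt_irrefl _)
    · have hterm : ∀ i, (if i ∈ T then 0 else w' i) * v i ≤ 0 := by
        intro i
        by_cases hi : i ∈ T
        · rw [if_pos hi, zero_mul]
        · rw [if_neg hi]
          by_cases hvi : v i = 0
          · rw [hvi, mul_zero]
          · have h2 := mul_neg_of_neg_of_pos (hs.1 i hi) (hmem i hi hvi)
            have h3 : ε i * w' i * (ε i * v i) = (ε i) ^ 2 * (w' i * v i) := by ring
            rw [h3] at h2
            by_contra hcon2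
            push Not at hcon2
            exact absurd h2 (not_lt.2 (mul_nonneg (sq_nonneg _) hcon2.le))
      have h2 := (Finset.sum_eq_zero_iff_of_nonpos fun j _ => hterm j).1 h1 j (Finset.mem_univ j)
      rw [if_neg hjT] at h2
      have h3 := mul_neg_of_neg_of_pos (hs.1 j hjT) hcon
      have h4 : ε j * w' j * (ε j * v j) = (ε j) ^ 2 * (w' j * v j) := by ring
      rw [h4, h2, mul_zero] at h3
      exact absurd h3 (lt_irrefl _)
  have hε : ∀ j, ε j ≠ 0 := by
    intro j h0
    obtain ⟨w, -, hs⟩ := h ∅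
    rcases hs with hs | hs
    · have := hs.1 j (Finset.notMem_empty j)
      rw [h0, zero_mul] at this
      exact absurd this (lt_irrefl _)
    · have := hs.1 j (Finset.notMem_empty j)
      rw [h0, zero_mul] at this
      exact absurd this (lt_irrefl _)
  intro S v hv hv2
  funext j
  have h1 := key S v hv hv2 j
  have h2 := key S (fun j => - v j) (fun j hj => by rw [hv j hj, neg_zero]) (fun i hi => by
    have e : ∑ j, A i j * - v j = - ∑ j, A i j * v j := by
      rw [← Finset.sum_neg_distrib]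
      exact Finset.sum_congr rfl fun j _ => by ring
    rw [e, hv2 i hi, neg_zero]) j
  have h3 : ε j * v j = 0 := by
    have : ε j * - v j = - (ε j * v j) := by ring
    rw [this] at h2
    linarith
  exact (mul_eq_zero.1 h3).resolve_left (hε j)

theorem cube_of_crit {A : Matrix (Fin n) (Fin n) ℝ} {c ε η : Fin n → ℝ}
    (h : ∀ S : Finset (Fin n), ∃ w, Crd A c S w ∧
      (∀ i, i ∉ S → 0 < ε i * w i) ∧ (∀ i, i ∈ S → 0 < η i * w i)) :
    (∀ j, ε j ≠ 0) ∧ (∀ j, η j ≠ 0) ∧
      Cube (Matrix.of fun i j => (η i)⁻¹ * A i j * ε j) (fun j => ε j * c j) := by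
  have hε : ∀ j, ε j ≠ 0 := by
    intro j h0
    obtain ⟨w, -, hs, -⟩ := h ∅
    have := hs j (Finset.notMem_empty j)
    rw [h0, zero_mul] at this
    exact absurd this (lt_irrefl _)
  have hη : ∀ j, η j ≠ 0 := by
    intro j h0
    obtain ⟨w, -, -, hs⟩ := h Finset.univ
    have := hs j (Finset.mem_univ j)
    rw [h0, zero_mul] at this
    exact absurd this (lt_irrefl _)
  refine ⟨hε, hη, fun S => ?_⟩
  obtain ⟨w, hw, h1, h2⟩ := h S
  refine ⟨fun i => if i ∈ S then η i * w i else ε i * w i, fun i => ?_, fun j => ?_⟩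
  · dsimp only
    by_cases hi : i ∈ S
    · rw [if_pos hi]; exact h2 i hi
    · rw [if_neg hi]; exact h1 i hi
  · dsimp only
    rw [hw j, mul_add, Finset.mul_sum]
    congr 1
    · refine Finset.sum_congr rfl fun i hi => ?_
      rw [if_pos hi, Matrix.of_apply]
      have := hη i
      field_simp
    · by_cases hj : j ∈ S
      · rw [if_pos hj, if_pos hj, mul_zero]
      · rw [if_neg hj, if_neg hj, if_neg hj]

/-- The linear form of the first criterion has the strong Lefschetz property. -/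
theorem inj_of_crit (hP : StmtPathKer) (hM : StmtMono) (hR : StmtMonoHR)
    {A : Matrix (Fin n) (Fin n) ℝ} {c ε η : Fin n → ℝ}
    (h : ∀ S : Finset (Fin n), ∃ w, Crd A c S w ∧
      (∀ i, i ∉ S → 0 < ε i * w i) ∧ (∀ i, i ∈ S → 0 < η i * w i)) (d : Fin n → ℕ) (k : ℕ)
    (hk : 2 * k ≤ ∑ i, d i) : Inj (idl A d) (lin c ^ (∑ i, d i - 2 * k)) k := by
  obtain ⟨hε, hη, hC⟩ := cube_of_crit h
  refine inj_scl hε hη (A' := Matrix.of fun i j => (η i)⁻¹ * A i j * ε j) (fun i j => ?_) ?_
  · rw [Matrix.of_apply]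
    have := hη i
    field_simp
  · exact fun f hf hm => HL_all hP hM hR hC d k f hf hk hm

theorem slp_of_crit (hP : StmtPathKer) (hM : StmtMono) (hR : StmtMonoHR)
    {A : Matrix (Fin n) (Fin n) ℝ} {c ε η : Fin n → ℝ}
    (h : ∀ S : Finset (Fin n), ∃ w, Crd A c S w ∧
      (∀ i, i ∉ S → 0 < ε i * w i) ∧ (∀ i, i ∈ S → 0 < η i * w i)) (d : Fin n → ℕ) (k s : ℕ) :
    Inj (idl A d) (lin c ^ s) k ∨ Sur (idl A d) (lin c ^ s) k s := by
  have hA : Good A := good_of_crit (c := c) (ε := ε) (η := η) fun S => by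
    obtain ⟨w, hw, h1⟩ := h S
    exact ⟨w, hw, Or.inl h1⟩
  exact maxRank_of_HL hA (lin_hom c) (fun k hk => inj_of_crit hP hM hR h d k hk) k s

/-- The second criterion: the matrix becomes one of the first kind after adding a rank one
matrix. -/
theorem rank_one_of_crit {A : Matrix (Fin n) (Fin n) ℝ} {c ε η : Fin n → ℝ}
    (h : ∀ S : Finset (Fin n), ∃ w, Crd A c S w ∧
      ((∀ i, i ∉ S → 0 < ε i * w i) ∧ (∀ i, i ∈ S → 0 < η i * w i) ∨
        (∀ i, i ∉ S → ε i * w i < 0) ∧ (∀ i, i ∈ S → η i * w i < 0))) :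
    ∃ (ε' η' u : Fin n → ℝ), ∀ S : Finset (Fin n), ∃ w,
      Crd (Matrix.of fun i j => A i j + u i * c j) c S w ∧
      (∀ i, i ∉ S → 0 < ε' i * w i) ∧ (∀ i, i ∈ S → 0 < η' i * w i) := by
  -- normalization of the sign at the empty set
  wlog h0 : ∃ w, Crd A c ∅ w ∧ (∀ i, i ∉ (∅ : Finset (Fin n)) → 0 < ε i * w i) generalizing ε η
  · refine this (ε := fun i => - ε i) (η := fun i => - η i) (fun S => ?_) ?_
    · obtain ⟨w, hw, hs⟩ := h S
      refine ⟨w, hw, ?_⟩
      rcases hs with hs | hs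
      · right
        exact ⟨fun i hi => by linarith [hs.1 i hi], fun i hi => by linarith [hs.2 i hi]⟩
      · left
        exact ⟨fun i hi => by linarith [hs.1 i hi], fun i hi => by linarith [hs.2 i hi]⟩
    · obtain ⟨w, hw, hs⟩ := h ∅
      refine ⟨w, hw, ?_⟩
      rcases hs with hs | hs
      · exact absurd ⟨w, hw, hs.1⟩ h0
      · exact fun i hi => by linarith [hs.1 i hi]
  have hev : ∀ᶠ t : ℝ in Filter.atTop, ∀ S : Finset (Fin n), ∃ w,
      Crd (Matrix.of fun i j => A i j + t * η i * c j) c S w ∧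
      (∀ i, i ∉ S → 0 < ε i * w i) ∧ (∀ i, i ∈ S → 0 < η i * w i) := by
    rw [Filter.eventually_all]
    intro S
    have hcoord : ∀ (w : Fin n → ℝ) (t : ℝ), Crd A c S w → 1 + t * ∑ i ∈ S, η i * w i ≠ 0 →
        Crd (Matrix.of fun i j => A i j + t * η i * c j) c S
          (fun i => w i / (1 + t * ∑ i ∈ S, η i * w i)) := by
      intro w t hw hl j
      obtain ⟨l, hld⟩ : ∃ l, l = 1 + t * ∑ i ∈ S, η i * w i := ⟨_, rfl⟩
      rw [← hld] at hl ⊢
      have e : ∑ i ∈ S, w i / l * (Matrix.of fun i j => A i j + t * η i * c j) i j =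
          ((∑ i ∈ S, w i * A i j) + c j * (l - 1)) / l := by
        have e1 : l - 1 = t * ∑ i ∈ S, η i * w i := by rw [hld]; ring
        rw [e1, Finset.mul_sum, Finset.mul_sum, ← Finset.sum_add_distrib, Finset.sum_div]
        refine Finset.sum_congr rfl fun i _ => ?_
        rw [Matrix.of_apply]
        field_simp
      rw [e]
      have h1 := hw j
      by_cases hj : j ∈ S
      · rw [if_pos hj, add_zero] at h1 ⊢
        rw [← h1]
        field_simp
        ring
      · rw [if_neg hj] at h1 ⊢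
        have h2 : ∑ i ∈ S, w i * A i j = c j - w j := by linarith
        rw [h2]
        field_simp
        ring
    obtain ⟨w, hw, hs⟩ := h S
    rcases hs with hs | hs
    · filter_upwards [Filter.eventually_ge_atTop (0 : ℝ)] with t ht
      have hsum : 0 ≤ ∑ i ∈ S, η i * w i := Finset.sum_nonneg fun i hi => (hs.2 i hi).le
      have hl : 0 < 1 + t * ∑ i ∈ S, η i * w i := by
        have := mul_nonneg ht hsum
        linarith
      refine ⟨_, hcoord w t hw hl.ne', fun i hi => ?_, fun i hi => ?_⟩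
      · rw [← mul_div_assoc]
        exact div_pos (hs.1 i hi) hl
      · rw [← mul_div_assoc]
        exact div_pos (hs.2 i hi) hl
    · by_cases hS : S.Nonempty
      · have hsum : ∑ i ∈ S, η i * w i < 0 := by
          refine Finset.sum_neg (fun i hi => hs.2 i hi) hS
        filter_upwards [Filter.eventually_gt_atTop (-(∑ i ∈ S, η i * w i)⁻¹)] with t ht
        have hl : 1 + t * ∑ i ∈ S, η i * w i < 0 := by
          have h1 := mul_lt_mul_of_neg_right ht hsum
          have h2 : -(∑ i ∈ S, η i * w i)⁻¹ * ∑ i ∈ S, η i * w i = -1 := by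
            rw [neg_mul, inv_mul_cancel₀ hsum.ne]
          rw [h2] at h1
          linarith
        refine ⟨_, hcoord w t hw hl.ne, fun i hi => ?_, fun i hi => ?_⟩
        · rw [← mul_div_assoc]
          exact div_pos_of_neg_of_neg (hs.1 i hi) hl
        · rw [← mul_div_assoc]
          exact div_pos_of_neg_of_neg (hs.2 i hi) hl
      · rw [Finset.not_nonempty_iff_eq_empty] at hS
        subst hS
        obtain ⟨w', hw', h1⟩ := h0
        refine Filter.Eventually.of_forall fun t => ⟨w', ?_, h1, fun i hi =>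
          absurd hi (Finset.notMem_empty i)⟩
        intro j
        have := hw' j
        simpa using this
  obtain ⟨t, ht⟩ := hev.exists
  exact ⟨ε, η, fun i => t * η i, ht⟩

theorem wlp_of_crit (hP : StmtPathKer) (hM : StmtMono) (hR : StmtMonoHR)
    {A : Matrix (Fin n) (Fin n) ℝ} {c ε η : Fin n → ℝ}
    (h : ∀ S : Finset (Fin n), ∃ w, Crd A c S w ∧
      ((∀ i, i ∉ S → 0 < ε i * w i) ∧ (∀ i, i ∈ S → 0 < η i * w i) ∨
        (∀ i, i ∉ S → ε i * w i < 0) ∧ (∀ i, i ∈ S → η i * w i < 0))) (d : Fin n → ℕ)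
    (k : ℕ) : Inj (idl A d) (lin c) k ∨ Sur (idl A d) (lin c) k 1 := by
  have hA : Good A := good_of_crit h
  obtain ⟨ε', η', u, hB⟩ := rank_one_of_crit h
  set B : Matrix (Fin n) (Fin n) ℝ := Matrix.of fun i j => A i j + u i * c j with hBdef
  have hgB : Good B := good_of_crit (c := c) (ε := ε') (η := η') fun S => by
    obtain ⟨w, hw, h1⟩ := hB S
    exact ⟨w, hw, Or.inl h1⟩
  refine maxRank_of_upper hA (fun k hk => ?_) k
  refine sur_transfer (J := idl B d) (lin_hom c) (idl_rank_one A B u c (fun i j => rfl) d) ?_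
  intro p hp
  by_cases h1 : k + 1 ≤ ∑ i, d i
  · have h2 : Inj (idl B d) (lin c ^ 1) (∑ i, d i - (k + 1)) := by
      intro f hf hm
      refine inj_of_crit hP hM hR hB d (∑ i, d i - (k + 1)) (by omega) f hf ?_
      have e : ∑ i, d i - 2 * (∑ i, d i - (k + 1)) =
          (∑ i, d i - 2 * (∑ i, d i - (k + 1)) - 1) + 1 := by omega
      rw [e, pow_add, mul_assoc]
      exact Ideal.mul_mem_left _ _ hm
    obtain ⟨f, _, hf⟩ := sur_of_inj hgB (by rw [pow_one]; exact lin_hom c) (k := k) (s := 1)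
      (by omega) h2 p hp
    rw [pow_one] at hf
    exact ⟨f, hf⟩
  · refine ⟨0, ?_⟩
    rw [mul_zero, sub_zero]
    exact mem_of_top hgB hp (by omega)

/-- Generalized diagonally dominant matrices satisfy the first criterion. -/
theorem crit_of_dominant {A : Matrix (Fin n) (Fin n) ℝ} {z : Fin n → ℝ} (hz : ∀ i, 0 < z i)
    (h : ∀ j, ∑ i ∈ Finset.univ.erase j, z i * |A i j| < z j * |A j j|) :
    ∃ (ε η : Fin n → ℝ), (∀ i, η i = 1 ∨ η i = -1) ∧ ∀ S : Finset (Fin n), ∃ w,
      Crd A (fun j => ∑ i, z i * (η i * A i j)) S w ∧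
      (∀ i, i ∉ S → 0 < ε i * w i) ∧ (∀ i, i ∈ S → 0 < η i * w i) := by
  obtain ⟨η, hη⟩ : ∃ η : Fin n → ℝ, ∀ i, η i = if 0 ≤ A i i then 1 else -1 := ⟨_, fun _ => rfl⟩
  have hη1 : ∀ i, η i * η i = 1 := by
    intro i
    rw [hη]
    split_ifs <;> norm_num
  have habs : ∀ i, |η i| = 1 := by
    intro i
    rw [hη]
    split_ifs <;> norm_num
  have hηA : ∀ i, η i * A i i = |A i i| := by
    intro i
    rw [hη]
    by_cases hi : 0 ≤ A i i
    · rw [if_pos hi, one_mul, abs_of_nonneg hi]
    · rw [if_neg hi, abs_of_neg (not_le.1 hi)]; ring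
  set A' : Matrix (Fin n) (Fin n) ℝ := Matrix.of fun i j => η i * A i j with hA'
  have hD : Dom A' z := by
    refine ⟨hz, fun j => ?_⟩
    have e : A' j j = |A j j| := by rw [hA', Matrix.of_apply, hηA]
    rw [e]
    refine lt_of_eq_of_lt (Finset.sum_congr rfl fun i _ => ?_) (h j)
    rw [hA', Matrix.of_apply, abs_mul, habs, one_mul]
  have hC := cube_of_dom hD
  have hη2 : ∀ i, η i = 1 ∨ η i = -1 := by
    intro i
    rw [hη]
    by_cases hi : 0 ≤ A i i
    · rw [if_pos hi]; exact Or.inl rfl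
    · rw [if_neg hi]; exact Or.inr rfl
  refine ⟨fun _ => 1, η, hη2, fun S => ?_⟩
  obtain ⟨w, hw0, hw⟩ := hC S
  refine ⟨fun i => if i ∈ S then w i * η i else w i, fun j => ?_, fun i hi => ?_, fun i hi => ?_⟩
  · dsimp only
    have e0 : ∑ i, z i * (η i * A i j) = cz A' z j := by
      unfold cz
      exact Finset.sum_congr rfl fun i _ => by rw [hA', Matrix.of_apply]
    rw [e0, hw j]
    congr 1
    · refine Finset.sum_congr rfl fun i hi => ?_
      rw [if_pos hi, hA', Matrix.of_apply]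
      ring
    · by_cases hj : j ∈ S
      · rw [if_pos hj, if_pos hj]
      · rw [if_neg hj, if_neg hj, if_neg hj]
  · dsimp only
    rw [if_neg hi, one_mul]
    exact hw0 i
  · dsimp only
    rw [if_pos hi]
    have e : η i * (w i * η i) = w i * (η i * η i) := by ring
    rw [e, hη1, mul_one]
    exact hw0 i

end Pool.Agent.Lib.MP_adb389_ag
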